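import Pool.Agent.Y693.R2.Tail3
import Pool.Agent.W164.RC.Final

/-!
The zeros of `L(E/K, s)` on average over the ray class fields of modulus `m r`: Euler factors at the
primes dividing the modulus omitted.
-/

set_option autoImplicit false

open Complex Filter Topology Set NumberField IsDedekindDomain
open H370 (zset mult NN Nd Ns)

namespace Pool.Agent.Y693.R2

open H385
open H385.HG6b (nrm_pos)
open Pool.Agent.H304R3.HK (tc HC LH aH psi uh_psi one_le_norm_tc goodH tc_star_mul)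
open Pool.Agent.W164.RC (two2 IsRayClassField eulerFactor zerosH NH NH₀ FE FE_diff Cq_ne hasProd_K
  ray_card tot_cnt N_shift N₀_shift zeros_shift two_dvd_star phiQ_star eight_le_nrm)
open Pool.Agent.H82R3.EK (cnt strip line)

/-- the primitive characters -/
noncomputable def cdq (q : ZI) (χ : MulChar (RQ q) ℂ) : ZI := PmD (chiZ q χ)
/-- the primitive characters -/
noncomputable def prq (q : ZI) (χ : MulChar (RQ q) ℂ) : ZI →* ℂ := Pm (chiZ q χ)

theorem prq_prim : ∀ q : ZI, q ≠ 0 → ∀ χ ∈ FQs q, cdq q χ ∣ q ∧ HC (cdq q χ) (prq q χ) ∧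
      ∀ a : ZI, IsCoprime a q → prq q χ a = chiZ q χ a := pmq_prim

/-- the entire function -/
noncomputable def Fq (q : ZI) (s : ℂ) : ℂ := FE prq q (s - 1 / 2) * FE prq (star q) (s - 1 / 2)

/-- sum over the family modulo `q` -/
noncomputable def HN (q : ZI) (f : (ZI →* ℂ) → ℝ) : ℝ := ∑ χ ∈ FQs q, f (Pm (chiZ q χ))

open Classical in
/-- the moduli -/
noncomputable def RS (m : ZI) (X Y : ℕ) : Finset ZI :=
  (BX Y).filter (fun r => X < nrm r ∧ IsCoprime r m)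

theorem mem_RS {m : ZI} {X Y : ℕ} {r : ZI} :
    r ∈ RS m X Y ↔ r ≠ 0 ∧ X < nrm r ∧ nrm r ≤ Y ∧ IsCoprime r m := by
  classical
  unfold RS
  rw [Finset.mem_filter, hg6e_mem_BX]
  tauto

theorem AA_RS (m : ZI) (X Y : ℕ) (f : (ZI →* ℂ) → ℝ) :
    AA m X Y f = ∑ r ∈ RS m X Y, (1 / (nrm r : ℝ) ^ 2) * HN (m * r) f := rfl

theorem nrm_star (a : ZI) : nrm (star a) = nrm a := by
  unfold nrm
  rw [Pool.Agent.H304R2.EC.A1.gnorm_star]

theorem cop_star {a b : ZI} (h : IsCoprime a b) : IsCoprime (star a) (star b) := by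
  obtain ⟨u, v, huv⟩ := h
  refine ⟨star u, star v, ?_⟩
  have := congrArg star huv
  rw [star_add, star_mul, star_mul, star_one] at this
  rw [← this]
  ring

theorem star_ne {a : ZI} (h : a ≠ 0) : star a ≠ 0 := fun h' => h (by
  rw [← star_star a, h', star_zero])

theorem AA_star (m : ZI) (X Y : ℕ) (f : (ZI →* ℂ) → ℝ) :
    AA (star m) X Y f = ∑ r ∈ RS m X Y, (1 / (nrm r : ℝ) ^ 2) * HN (star (m * r)) f := by
  rw [AA_RS]
  refine Finset.sum_nbij' star star ?_ ?_ ?_ ?_ ?_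
  · intro r hr
    rw [mem_RS] at hr ⊢
    refine ⟨star_ne hr.1, by rw [nrm_star]; exact hr.2.1, by rw [nrm_star]; exact hr.2.2.1, ?_⟩
    have := cop_star hr.2.2.2
    rwa [star_star] at this
  · intro r hr
    rw [mem_RS] at hr ⊢
    exact ⟨star_ne hr.1, by rw [nrm_star]; exact hr.2.1, by rw [nrm_star]; exact hr.2.2.1,
      cop_star hr.2.2.2⟩
  · intro r _
    exact star_star r
  · intro r _
    exact star_star r
  · intro r _
    have e : star (m * star r) = star m * r := by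
      rw [star_mul, star_star, mul_comm]
    rw [e, nrm_star]

theorem Fq_props : ∀ q : ZI, q ≠ 0 → two2 ∣ q →
    Differentiable ℂ (Fq q) ∧
    (∀ (K : Type) [Field K] [NumberField K] (ι : ZI →+* 𝓞 K)
      (art : (RQ q)ˣ →* (𝓞 K ≃+* 𝓞 K)), IsRayClassField q K ι art →
      4 * Nat.card art.range = phiQ q ∧
      ∀ s : ℂ, 3 / 2 < s.re → HasProd (open Classical in fun v : HeightOneSpectrum (𝓞 K) =>
        if ι q ∈ v.asIdeal then 1 else eulerFactor s v) (Fq q s)) := by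
  intro q hq h2
  have hq' := star_ne hq
  have hd1 := FE_diff cdq prq prq_prim hq
  have hd2 := FE_diff cdq prq prq_prim hq'
  refine ⟨?_, ?_⟩
  · exact (hd1.comp (by fun_prop)).mul (hd2.comp (by fun_prop))
  · intro K _ _ ι art H
    exact ⟨ray_card hq h2 H, fun s hs => hasProd_K cdq prq prq_prim hq h2 H hs⟩

/-- the zeros of `F_q` -/
theorem Fq_zeros {q : ZI} (hq : q ≠ 0) {T : ℝ} (hT : 1 ≤ T) :
    (zerosH (Fq q) T).Finite ∧
    (NH (Fq q) T : ℝ) = HN q (fun ψ => (NN (LH ψ) T (2 * T) : ℝ)) +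
      HN (star q) (fun ψ => (NN (LH ψ) T (2 * T) : ℝ)) ∧
    HN q (fun ψ => (Ns (LH ψ) T (2 * T) : ℝ)) + HN (star q) (fun ψ => (Ns (LH ψ) T (2 * T) : ℝ)) ≤
      (NH₀ (Fq q) T : ℝ) := by
  obtain ⟨A, hA, hgood⟩ := goodH
  have hq' := star_ne hq
  have hne : ∀ q : ZI, q ≠ 0 → ∀ z : ℂ, 1 ≤ z.re → 1 ≤ z.im → FE prq q z ≠ 0 := by
    intro q hq z h1 h3
    unfold FE
    rw [Finset.prod_ne_zero_iff]
    intro χ hχ
    obtain ⟨b1, b2, b3⟩ := prq_prim q hq χ hχ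
    exact mul_ne_zero ((hgood _ _ b2).2.2.2.nzr z h1 h3)
      (Cq_ne q (uh_psi _ _ b2) (by linarith))
  have hG : ∀ z : ℂ, 1 ≤ z.re → 1 ≤ z.im → FE prq q z * FE prq (star q) z ≠ 0 :=
    fun z h1 h3 => mul_ne_zero (hne q hq z h1 h3) (hne _ hq' z h1 h3)
  obtain ⟨t1, t2, t3⟩ := tot_cnt cdq prq prq_prim hq hT
  have e1 : NH (Fq q) T = cnt (fun z => FE prq q z * FE prq (star q) z) (strip T (2 * T)) :=
    N_shift (G := fun z => FE prq q z * FE prq (star q) z) hT hG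
  have e2 : NH₀ (Fq q) T = cnt (fun z => FE prq q z * FE prq (star q) z) (line T (2 * T)) :=
    N₀_shift (G := fun z => FE prq q z * FE prq (star q) z) hT hG
  have e3 := zeros_shift (G := fun z => FE prq q z * FE prq (star q) z) hT hG
  refine ⟨?_, ?_, ?_⟩
  · have : zerosH (Fq q) T = (fun s : ℂ => s + 1 / 2) ''
      {s | s ∈ strip T (2 * T) ∧ FE prq q s * FE prq (star q) s = 0} := e3
    rw [this]
    exact t3.image _
  · rw [e1, t1]
    push_cast
    rfl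
  · rw [e2]
    have t2' : ((∑ χ ∈ FQs q, Ns (LH (prq q χ)) T (2 * T) +
        ∑ χ ∈ FQs (star q), Ns (LH (prq (star q) χ)) T (2 * T) : ℕ) : ℝ) ≤
        ((cnt (fun z => FE prq q z * FE prq (star q) z) (line T (2 * T)) : ℕ) : ℝ) := by
      exact_mod_cast t2
    push_cast at t2'
    exact t2'

theorem nrm_cast (r : ZI) : (r.norm : ℝ) = (nrm r : ℝ) := by
  unfold nrm
  rw [Nat.cast_natAbs, abs_of_nonneg (GaussianInt.norm_nonneg r)]

theorem mem_RS' {m : ZI} {X Y : ℕ} {r : ZI} :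
    r ∈ RS m X Y ↔ r ≠ 0 ∧ (X : ℤ) < r.norm ∧ r.norm ≤ Y ∧ IsCoprime r m := by
  rw [mem_RS]
  have h1 : ((nrm r : ℕ) : ℤ) = r.norm := by
    unfold nrm
    rw [Int.natCast_natAbs, abs_of_nonneg (GaussianInt.norm_nonneg r)]
  rw [← h1]
  norm_cast

/-- **Main theorem on average over the ray class fields** -/
theorem main_R2 {m : ZI} (hm0 : m ≠ 0) (h2 : two2 ∣ m) :
    ∃ C K η : ℝ, 0 < η ∧ ∀ (X Y : ℕ) (T : ℝ), 1 ≤ X → K * X ≤ Y → (Y : ℝ) ≤ (X : ℝ) ^ (1 + η) →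
    C * (1 + Real.sqrt (Real.log X)) ≤ T → T ≤ (X : ℝ) ^ η →
    (∀ r ∈ RS m X Y, (zerosH (Fq (m * r)) T).Finite ∧
      T * ((phiQ (m * r) : ℝ) / 2) ≤ (NH (Fq (m * r)) T : ℝ)) ∧
    0 < ∑ r ∈ RS m X Y, (1 / (nrm r : ℝ) ^ 2) * (NH (Fq (m * r)) T : ℝ) ∧
    0.8883 * ∑ r ∈ RS m X Y, (1 / (nrm r : ℝ) ^ 2) * (NH (Fq (m * r)) T : ℝ) ≤
      ∑ r ∈ RS m X Y, (1 / (nrm r : ℝ) ^ 2) * (NH₀ (Fq (m * r)) T : ℝ) := by
  have hm8 := eight_le_nrm hm0 h2
  have hms0 := star_ne hm0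
  obtain ⟨Ca, Ka, ηa, hCa, hKa, hηa, hηa8, ha⟩ := tail_all (m := m) (by omega)
  obtain ⟨Cb, Kb, ηb, hCb, hKb, hηb, hηb8, hb⟩ := tail_all (m := star m) (by rw [nrm_star]; omega)
  obtain ⟨C1, hC1, Hl⟩ := Pool.Agent.W164.RC.fam_lower cdq prq prq_prim
  have hmr : (1 : ℝ) ≤ nrm m := by exact_mod_cast (by omega : 1 ≤ nrm m)
  obtain ⟨η, hη, hη1, hη2, hη8⟩ : ∃ η : ℝ, 0 < η ∧ η ≤ ηa ∧ η ≤ ηb ∧ η ≤ 1 / 8 :=
    ⟨min (min ηa ηb) (1 / 8), by positivity, (min_le_left _ _).trans (min_le_left _ _),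
      (min_le_left _ _).trans (min_le_right _ _), min_le_right _ _⟩
  refine ⟨Ca + Cb + C1 + 3 + nrm m ^ 2, Ka + Kb, η, hη, ?_⟩
  intro X Y T hX hXY hYX hT hTX
  have hXr : (1 : ℝ) ≤ X := by exact_mod_cast hX
  have hX0 : (0 : ℝ) < X := by linarith
  have hsq0 := Real.sqrt_nonneg (Real.log X)
  have hlX0 : 0 ≤ Real.log X := Real.log_nonneg hXr
  have hmsq : (0 : ℝ) ≤ (nrm m : ℝ) ^ 2 := by positivity
  have hsp : ∀ c : ℝ, c ≤ Ca + Cb + C1 + 3 + (nrm m : ℝ) ^ 2 →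
      c * (1 + Real.sqrt (Real.log X)) ≤ T := by
    intro c hc
    refine le_trans ?_ hT
    exact mul_le_mul_of_nonneg_right hc (by linarith)
  have hT3 : 3 ≤ T := by
    have := hsp 3 (by linarith)
    linarith
  have hTpos : 0 < T := by linarith
  have hTm : (nrm m : ℝ) ^ 2 ≤ T := by
    have h1 := hsp ((nrm m : ℝ) ^ 2) (by linarith)
    have h3 : (nrm m : ℝ) ^ 2 * 1 ≤ (nrm m : ℝ) ^ 2 * (1 + Real.sqrt (Real.log X)) :=
      mul_le_mul_of_nonneg_left (by linarith) hmsq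
    linarith
  have hpow : ∀ e1 e2 : ℝ, e1 ≤ e2 → (X : ℝ) ^ e1 ≤ (X : ℝ) ^ e2 := fun e1 e2 h =>
    Real.rpow_le_rpow_of_exponent_le hXr h
  have hXYa : Ka * X ≤ Y := by
    refine le_trans ?_ hXY
    exact mul_le_mul_of_nonneg_right (by linarith) hX0.le
  have hXYb : Kb * X ≤ Y := by
    refine le_trans ?_ hXY
    exact mul_le_mul_of_nonneg_right (by linarith) hX0.le
  obtain ⟨a1, a2⟩ := ha X Y T hX hXYa (hYX.trans (hpow _ _ (by linarith))) (hsp Ca (by linarith))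
    (hTX.trans (hpow _ _ hη1))
  obtain ⟨b1, b2⟩ := hb X Y T hX hXYb (hYX.trans (hpow _ _ (by linarith))) (hsp Cb (by linarith))
    (hTX.trans (hpow _ _ hη2))
  have hz : ∀ r ∈ RS m X Y, (zerosH (Fq (m * r)) T).Finite ∧
      (NH (Fq (m * r)) T : ℝ) = HN (m * r) (fun ψ => (NN (LH ψ) T (2 * T) : ℝ)) +
        HN (star (m * r)) (fun ψ => (NN (LH ψ) T (2 * T) : ℝ)) ∧
      HN (m * r) (fun ψ => (Ns (LH ψ) T (2 * T) : ℝ)) +
        HN (star (m * r)) (fun ψ => (Ns (LH ψ) T (2 * T) : ℝ)) ≤ (NH₀ (Fq (m * r)) T : ℝ) := by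
    intro r hr
    rw [mem_RS] at hr
    exact Fq_zeros (mul_ne_zero hm0 hr.1) (by linarith)
  have eN : ∑ r ∈ RS m X Y, (1 / (nrm r : ℝ) ^ 2) * (NH (Fq (m * r)) T : ℝ) =
      AA m X Y (fun ψ => (NN (LH ψ) T (2 * T) : ℝ)) +
      AA (star m) X Y (fun ψ => (NN (LH ψ) T (2 * T) : ℝ)) := by
    rw [AA_star, AA_RS, ← Finset.sum_add_distrib]
    refine Finset.sum_congr rfl fun r hr => ?_
    rw [(hz r hr).2.1, mul_add]
  have eS : AA m X Y (fun ψ => (Ns (LH ψ) T (2 * T) : ℝ)) +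
      AA (star m) X Y (fun ψ => (Ns (LH ψ) T (2 * T) : ℝ)) ≤
      ∑ r ∈ RS m X Y, (1 / (nrm r : ℝ) ^ 2) * (NH₀ (Fq (m * r)) T : ℝ) := by
    rw [AA_star, AA_RS, ← Finset.sum_add_distrib]
    refine Finset.sum_le_sum fun r hr => ?_
    rw [← mul_add]
    exact mul_le_mul_of_nonneg_left (hz r hr).2.2 (by positivity)
  refine ⟨?_, ?_, ?_⟩
  · intro r hr
    obtain ⟨z1, z2, -⟩ := hz r hr
    rw [mem_RS] at hr
    obtain ⟨hr0, hrX, hrY, hrm⟩ := hr
    refine ⟨z1, ?_⟩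
    have hq := mul_ne_zero hm0 hr0
    have hq' := star_ne hq
    have hsr : (1 : ℝ) ≤ nrm r := by exact_mod_cast nrm_pos hr0
    have hsXr : (X : ℝ) ≤ nrm r := by exact_mod_cast hrX.le
    have hsYr : (nrm r : ℝ) ≤ (X : ℝ) ^ (1 + η) := le_trans (by exact_mod_cast hrY) hYX
    have hn : (nrm (m * r) : ℝ) = ‖tc (m * r)‖ ^ 2 := nrm_eq (m * r)
    have hQ1 := one_le_norm_tc hq
    have hlQ : 2 * Real.log ‖tc (m * r)‖ = Real.log (nrm m) + Real.log (nrm r) := by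
      have h2 : Real.log (nrm (m * r) : ℝ) = 2 * Real.log ‖tc (m * r)‖ := by
        rw [hn, Real.log_pow]; push_cast; ring
      rw [← h2, hg5b_nrm_mul]
      push_cast
      rw [Real.log_mul (by positivity) (by positivity)]
    have hl1 : Real.log X ≤ Real.log (nrm r) := Real.log_le_log hX0 hsXr
    have hl2 : Real.log (nrm r) ≤ (1 + η) * Real.log X := by
      have := Real.log_le_log (by linarith) hsYr
      rwa [Real.log_rpow hX0] at this
    have hl0 : 0 ≤ Real.log (nrm m : ℝ) := Real.log_nonneg hmr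
    have hηL : η * Real.log X ≤ 1 / 8 * Real.log X := mul_le_mul_of_nonneg_right hη8 hlX0
    have hlT : Real.log T ≤ η * Real.log X := by
      have := Real.log_le_log hTpos hTX
      rwa [Real.log_rpow hX0] at this
    have hlm : 2 * Real.log (nrm m) ≤ Real.log T := by
      have := Real.log_le_log (by positivity) hTm
      rw [Real.log_pow] at this
      exact_mod_cast this
    have e3 : (1 + η) * Real.log X = Real.log X + η * Real.log X := by ring
    rw [e3] at hl2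
    have g1 : C1 * (1 + Real.sqrt (Real.log ‖tc (m * r)‖)) ≤ T := by
      refine le_trans ?_ (hsp C1 (by linarith))
      refine mul_le_mul_of_nonneg_left ?_ (by linarith)
      have : Real.log ‖tc (m * r)‖ ≤ Real.log X := by linarith
      have := Real.sqrt_le_sqrt this
      linarith
    have g2 : T ≤ ‖tc (m * r)‖ := by
      rw [← Real.log_le_log_iff hTpos (by linarith)]
      linarith
    have hst := Pool.Agent.W164.RC.norm_tc_star (m * r)
    have l1 := Hl (m * r) T hq g1 g2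
    have l2 := Hl (star (m * r)) T hq' (by rw [hst]; exact g1) (by rw [hst]; exact g2)
    have c1 := fq_card (m * r) (by
      have := eight_le_nrm hq (h2.trans (Dvd.intro _ rfl)); omega)
    have c2 := fq_card (star (m * r)) (by
      have := eight_le_nrm hq' (two_dvd_star (h2.trans (Dvd.intro _ rfl))); omega)
    rw [phiQ_star] at c2
    rw [c1] at l1
    rw [c2] at l2
    rw [z2]
    have l1' : T * ((phiQ (m * r) : ℝ) / 4) ≤
      HN (m * r) (fun ψ => (NN (LH ψ) T (2 * T) : ℝ)) := l1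
    have l2' : T * ((phiQ (m * r) : ℝ) / 4) ≤
      HN (star (m * r)) (fun ψ => (NN (LH ψ) T (2 * T) : ℝ)) := l2
    linarith
  · rw [eN]
    linarith
  · rw [eN]
    have : 0.8883 * (AA m X Y (fun ψ => (NN (LH ψ) T (2 * T) : ℝ)) +
      AA (star m) X Y (fun ψ => (NN (LH ψ) T (2 * T) : ℝ))) =
      0.8883 * AA m X Y (fun ψ => (NN (LH ψ) T (2 * T) : ℝ)) +
      0.8883 * AA (star m) X Y (fun ψ => (NN (LH ψ) T (2 * T) : ℝ)) := by ring
    rw [this]
    exact (add_le_add a2 b2).trans eS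

end Pool.Agent.Y693.R2
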