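import Pool.Agent.Y693.R2.Pm

/-!
The family of all characters modulo `m r` whose `r`-part is primitive.
-/

set_option autoImplicit false

open Complex Filter Topology Set MeasureTheory
open H370 (zset mult NN Nd Ns)

namespace Pool.Agent.Y693.R2

open H385
open H385.HG6b (nrm_pos)
open Pool.Agent.H304R3.HK (tc HC LH)

/-- the characters modulo `m` with `χ(i) z = -i` -/
noncomputable def FZ (m : ZI) (z : ℂ) : Finset (MulChar (RQ m) ℂ) :=
  hg5b_fs m (fun χ => chiZ m χ im1 * z = -I)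

theorem chiZ_mul (m : ZI) (χ χ' : MulChar (RQ m) ℂ) (a : ZI) :
    chiZ m (χ * χ') a = chiZ m χ a * chiZ m χ' a := rfl

theorem chiZ_im1_pow (m : ZI) (χ : MulChar (RQ m) ℂ) : chiZ m χ im1 ^ 4 = 1 := by
  rw [← map_pow, he2_im4, map_one]

theorem root4 {z : ℂ} (hz : z ^ 4 = 1) : ∃ k : ℕ, z = (-I) ^ k := by
  have h1 : (z - 1) * (z + 1) * ((z - I) * (z + I)) = 0 := by
    have : (z - 1) * (z + 1) * ((z - I) * (z + I)) = (z ^ 2 - 1) * (z ^ 2 - I ^ 2) := by ring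
    rw [this, I_sq]
    linear_combination hz
  rcases mul_eq_zero.1 h1 with h | h
  · rcases mul_eq_zero.1 h with h | h
    · exact ⟨0, by rw [pow_zero]; linear_combination h⟩
    · refine ⟨2, ?_⟩
      rw [neg_sq, I_sq]
      linear_combination h
  · rcases mul_eq_zero.1 h with h | h
    · refine ⟨3, ?_⟩
      have : (-I) ^ 3 = I := by
        rw [pow_succ, neg_sq, I_sq]; ring
      rw [this]
      linear_combination h
    · exact ⟨1, by rw [pow_one]; linear_combination h⟩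

theorem card_FZ (m : ZI) (hm : 4 < nrm m) (z : ℂ) (hz : z ^ 4 = 1) :
    ((FZ m z).card : ℝ) = (phiQ m : ℝ) / 4 := by
  classical
  have hm0 : m ≠ 0 := by
    rintro rfl
    simp [nrm] at hm
  rw [← fq_card m hm]
  have hφ : 0 < phiQ m := (fq_finite m hm0).2.1
  obtain ⟨χ0, hχ0⟩ : (FQs m).Nonempty := by
    rw [← Finset.card_pos]
    have h1 := fq_card m hm
    have h2 : (0 : ℝ) < phiQ m := by exact_mod_cast hφ
    have h3 : (0 : ℝ) < ((FQs m).card : ℝ) := by rw [h1]; linarith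
    exact_mod_cast h3
  have h0 : chiZ m χ0 im1 = -I := ((fq_finite m hm0).2.2 χ0).1 hχ0
  obtain ⟨k, hk⟩ := root4 hz
  have hpow : ∀ j : ℕ, chiZ m (χ0 ^ j) im1 = (-I) ^ j := by
    intro j
    induction j with
    | zero =>
      rw [pow_zero, pow_zero]
      have hu := (im1_unit 1).map (Ideal.Quotient.mk (Ideal.span {m}))
      rw [pow_one] at hu
      exact MulChar.one_apply hu
    | succ j ih => rw [pow_succ, chiZ_mul, ih, h0, pow_succ]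
  congr 1
  refine Finset.card_bij (fun χ _ => χ * χ0 ^ k) ?_ ?_ ?_
  · intro χ hχ
    rw [FZ, hg5b_mem hm0] at hχ
    rw [(fq_finite m hm0).2.2, chiZ_mul, hpow, ← hk]
    exact hχ
  · intro a _ b _ hab
    exact mul_right_cancel hab
  · intro χ hχ
    rw [(fq_finite m hm0).2.2] at hχ
    refine ⟨χ * (χ0 ^ k)⁻¹, ?_, by rw [inv_mul_cancel_right]⟩
    rw [FZ, hg5b_mem hm0, hk, ← hpow, ← chiZ_mul, inv_mul_cancel_right]
    exact hχ

/-- the index set of the family: `((r, χ_r), χ_m)` -/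
noncomputable def SS (m : ZI) (X Y : ℕ) :
    Finset ((Σ q : ZI, MulChar (RQ q) ℂ) × MulChar (RQ m) ℂ) :=
  open Classical in
  (FM m X Y ×ˢ hg5b_fs m (fun _ => True)).filter
    (fun p => chiZ m p.2 im1 * chiZ p.1.1 p.1.2 im1 = -I)

noncomputable def gp (m : ZI) (p : (Σ q : ZI, MulChar (RQ q) ℂ) × MulChar (RQ m) ℂ) : ZI →* ℂ :=
  pg m p.2 p.1.1 p.1.2

theorem mem_SS {m : ZI} (hm : m ≠ 0) {X Y : ℕ}
    {p : (Σ q : ZI, MulChar (RQ q) ℂ) × MulChar (RQ m) ℂ} :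
    p ∈ SS m X Y ↔ p.1 ∈ FM m X Y ∧ chiZ m p.2 im1 * chiZ p.1.1 p.1.2 im1 = -I := by
  classical
  unfold SS
  rw [Finset.mem_filter, Finset.mem_product, hg5b_mem hm]
  tauto

/-- sums over the family -/
theorem sum_SS {m : ZI} (hm : m ≠ 0) (X Y : ℕ)
    (f : ((Σ q : ZI, MulChar (RQ q) ℂ) × MulChar (RQ m) ℂ) → ℝ) :
    ∑ p ∈ SS m X Y, f p = ∑ p ∈ FM m X Y, ∑ χ ∈ FZ m (chiZ p.1 p.2 im1), f (p, χ) := by
  classical
  unfold SS
  rw [Finset.sum_filter, Finset.sum_product]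
  refine Finset.sum_congr rfl fun p hp => ?_
  rw [← Finset.sum_filter]
  refine Finset.sum_congr ?_ fun _ _ => rfl
  ext χ
  rw [Finset.mem_filter, FZ, hg5b_mem hm, hg5b_mem hm]
  tauto

theorem mass_SS {m : ZI} (hm : 4 < nrm m) (X Y : ℕ) :
    ∑ p ∈ SS m X Y, wF p.1 = (phiQ m : ℝ) / 4 * WM m X Y := by
  have hm0 : m ≠ 0 := by
    rintro rfl
    simp [nrm] at hm
  rw [sum_SS hm0]
  unfold WM
  rw [Finset.mul_sum]
  refine Finset.sum_congr rfl fun p hp => ?_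
  show ∑ χ ∈ FZ m (chiZ p.1 p.2 im1), wF p = _
  rw [Finset.sum_const, nsmul_eq_mul, card_FZ m hm _ (chiZ_im1_pow p.1 p.2)]

theorem norm_chiZ_le (m : ZI) (χ : MulChar (RQ m) ℂ) (hm : m ≠ 0) (a : ZI) : ‖chiZ m χ a‖ ≤ 1 := by
  by_cases h : IsCoprime a m
  · exact (he9_norm m hm χ a h).le
  · rw [hg5b_zero χ h, norm_zero]
    exact zero_le_one

theorem ls_SS {m : ZI} (hm : 4 < nrm m) (e : ℝ) (he : 0 < e) :
    ∃ P : ZI, P ≠ 0 ∧ ∃ C : ℝ, 0 < C ∧ ∀ (X Y N : ℕ) (b : ZI → ℂ),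
      1 ≤ X → X ≤ Y → (∀ n, ¬ IsCoprime n P → b n = 0) →
      ∑ p ∈ SS m X Y, wF p.1 * ‖∑ a ∈ BX N, b a * Pm (gp m p) a‖ ^ 2 ≤
        Real.exp (2 * Real.pi * Real.sqrt N / X) * (4 * ((1 + e) * ∑ p ∈ SS m X Y, wF p.1 + C)) *
          ∑ n ∈ BX N, ‖b n‖ ^ 2 := by
  classical
  have hm0 : m ≠ 0 := by
    rintro rfl
    simp [nrm] at hm
  obtain ⟨P, hP, hmP, C, hC, hls⟩ := lsM m hm0 e he
  have hφ : 0 < phiQ m := (fq_finite m hm0).2.1
  have hφ' : (0 : ℝ) < phiQ m := by exact_mod_cast hφ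
  refine ⟨P, hP, (phiQ m : ℝ) / 4 * C, by positivity, fun X Y N b hX hXY hb => ?_⟩
  rw [mass_SS hm]
  have hwF : ∀ p : Σ q : ZI, MulChar (RQ q) ℂ, 0 ≤ wF p := fun p => by
    unfold wF; positivity
  have h1 : ∑ p ∈ SS m X Y, wF p.1 * ‖∑ a ∈ BX N, b a * Pm (gp m p) a‖ ^ 2 =
      ∑ p ∈ SS m X Y, wF p.1 * ‖SC (BX N) (fun a => b a * chiZ m p.2 a) p.1.1 p.1.2‖ ^ 2 := by
    refine Finset.sum_congr rfl fun p hp => ?_
    obtain ⟨h2, h3⟩ := (mem_SS hm0).1 hp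
    rw [mem_FM] at h2
    congr 3
    unfold SC
    refine Finset.sum_congr rfl fun a _ => ?_
    by_cases ha : IsCoprime a P
    · rw [gp, pg_val hm0 h2.1 h2.2.2.2.1 p.2 p.1.2 h2.2.2.2.2 h3 a
        (ha.of_isCoprime_of_dvd_right hmP)]
      ring
    · simp only [hb a ha, zero_mul]
  rw [h1]
  have h2 : ∑ p ∈ SS m X Y, wF p.1 * ‖SC (BX N) (fun a => b a * chiZ m p.2 a) p.1.1 p.1.2‖ ^ 2 ≤
      ∑ χ ∈ hg5b_fs m (fun _ => True), ∑ p ∈ FM m X Y,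
        wF p * ‖SC (BX N) (fun a => b a * chiZ m χ a) p.1 p.2‖ ^ 2 := by
    rw [Finset.sum_comm, ← Finset.sum_product']
    unfold SS
    refine Finset.sum_le_sum_of_subset_of_nonneg (Finset.filter_subset _ _) fun p _ _ => ?_
    exact mul_nonneg (hwF _) (by positivity)
  have h3 : ∀ χ ∈ hg5b_fs m (fun _ => True), ∑ p ∈ FM m X Y,
        wF p * ‖SC (BX N) (fun a => b a * chiZ m χ a) p.1 p.2‖ ^ 2 ≤
      Real.exp (2 * Real.pi * Real.sqrt N / X) * ((1 + e) * WM m X Y + C) *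
        ∑ n ∈ BX N, ‖b n‖ ^ 2 := by
    intro χ _
    refine (hls X Y N (fun a => b a * chiZ m χ a) hX hXY (fun n hn => by rw [hb n hn, zero_mul])).trans ?_
    have hW := WM_nonneg m X Y
    refine mul_le_mul_of_nonneg_left ?_ (by positivity)
    refine Finset.sum_le_sum fun n _ => ?_
    rw [norm_mul, mul_pow]
    have h4 := norm_chiZ_le m χ hm0 n
    have h5 : ‖chiZ m χ n‖ ^ 2 ≤ 1 := pow_le_one₀ (norm_nonneg _) h4
    exact mul_le_of_le_one_right (by positivity) h5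
  have hcard : ((hg5b_fs m (fun _ : MulChar (RQ m) ℂ => True)).card : ℝ) = phiQ m := by
    have h5 := (fq_finite m hm0).1
    have h6 : Fintype (MulChar (RQ m) ℂ) := Fintype.ofFinite _
    rw [← card_mulChar hm0, Nat.card_eq_fintype_card, ← Finset.card_univ]
    congr 2
    ext χ
    rw [hg5b_mem hm0]
    simp
  refine h2.trans ((Finset.sum_le_sum h3).trans (le_of_eq ?_))
  rw [Finset.sum_const, nsmul_eq_mul, hcard]
  ring

/-- the core estimate for the family -/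
theorem core_SS {m : ZI} (hm : 4 < nrm m) (γ β ε : ℝ) (h0 : 0 < γ) (hπ : γ < Real.pi) (hβ : 0 < β)
    (hβ1 : β < 4) (hε : 0 < ε) : ∃ C0 K0 η : ℝ, 1 ≤ C0 ∧ 1 ≤ K0 ∧ 0 < η ∧
    ∀ (X Y : ℕ) (T : ℝ), 1 ≤ X →
      K0 * X ≤ Y → ((nrm m * Y : ℕ) : ℝ) ≤ (X : ℝ) ^ (1 + η) →
      C0 * (1 + Real.sqrt (Real.log X)) ≤ T → T ≤ (X : ℝ) ^ η →
      0 < ∑ p ∈ SS m X Y, wF p.1 ∧
      (∑ p ∈ SS m X Y, wF p.1 * (2 * (NN (LH (Pm (gp m p))) T (2 * T) : ℝ) -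
          (Ns (LH (Pm (gp m p))) T (2 * T) : ℝ)) ≤
        (2 * Rw γ 0 / β + β * (∫ α in (0 : ℝ)..1, α * Rw γ α) + ε) *
        ∑ p ∈ SS m X Y, wF p.1 * (NN (LH (Pm (gp m p))) T (2 * T) : ℝ)) := by
  have hm0 : m ≠ 0 := by
    rintro rfl
    simp [nrm] at hm
  have hφ : 0 < phiQ m := (fq_finite m hm0).2.1
  have hφ' : (0 : ℝ) < phiQ m := by exact_mod_cast hφ
  refine core _ (SS m) (fun p => wF p.1) (fun p => PmD (gp m p)) (fun p => Pm (gp m p)) (nrm m)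
    (by omega) (fun p => by unfold wF; positivity) ?_ (fun e he => ls_SS hm e he) ?_ γ β ε h0 hπ hβ
    hβ1 hε
  · intro X Y p hp
    obtain ⟨h2, h3⟩ := (mem_SS hm0).1 hp
    rw [mem_FM] at h2
    obtain ⟨a1, a2, a3, a4, a5⟩ := h2
    obtain ⟨⟨b1, -⟩, b2, b3⟩ := pg_spec hm0 a1 p.2 p.1.2 h3
    have b4 := pg_dvd hm0 a1 a4 p.2 p.1.2 a5 h3
    refine ⟨b1, ?_, ?_⟩
    · exact lt_of_lt_of_le a2 (he3_nrm b4 b1.q0)
    · refine (he3_nrm b2 (mul_ne_zero hm0 a1)).trans ?_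
      rw [hg5b_nrm_mul]
      exact Nat.mul_le_mul_left _ a3
  · obtain ⟨c, C, hc, hC, h⟩ := WM_inf m hm0
    refine ⟨(phiQ m : ℝ) / 4 * c, (phiQ m : ℝ) / 4 * C, by positivity, by positivity,
      fun X Y hX hXY => ?_⟩
    rw [mass_SS hm]
    have := mul_le_mul_of_nonneg_left (h X Y hX hXY) (by positivity : (0 : ℝ) ≤ (phiQ m : ℝ) / 4)
    refine le_trans (le_of_eq ?_) this
    ring

end Pool.Agent.Y693.R2
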