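import Pool.Agent.Y693.R2.Cnt
import Pool.Agent.Y693.R2.Fam

/-!
The sum over all characters modulo `m s` in terms of the families of primitive characters.
-/

set_option autoImplicit false

open Complex Filter Topology Set MeasureTheory

namespace Pool.Agent.Y693.R2

open H385
open H385.HG6b (nrm_pos)
open Pool.Agent.H304R3.HK (tc HC LH)

theorem crt_elt {m s : ZI} (hc : IsCoprime s m) : ∃ e : ZI → ZI, (∀ x, m ∣ e x - x) ∧
    (∀ x, s ∣ e x - 1) ∧ e 1 = 1 ∧ (∀ x y, m * s ∣ e (x * y) - e x * e y) ∧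
    (∀ x y, m ∣ x - y → m * s ∣ e x - e y) := by
  obtain ⟨β, α, h⟩ := hc
  refine ⟨fun x => x * (β * s) + α * m, fun x => ?_, fun x => ?_, ?_, fun x y => ?_, fun x y hxy => ?_⟩
  · exact ⟨α * (1 - x), by linear_combination x * h⟩
  · exact ⟨β * (x - 1), by linear_combination h⟩
  · show 1 * (β * s) + α * m = 1
    rw [one_mul]; exact h
  · refine ⟨α * β * (x * y - x - y + 1), ?_⟩
    linear_combination (-(x * y * β * s) - α * m) * h
  · obtain ⟨c, hc⟩ := hxy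
    exact ⟨c * β, by linear_combination (β * s) * hc⟩

/-- the component of a character modulo `m s` -/
theorem comp_exists {m s : ZI} (hc : IsCoprime s m) (χ : MulChar (RQ (m * s)) ℂ) :
    ∃ (e : ZI → ZI) (χm : MulChar (RQ m) ℂ), (∀ x, m ∣ e x - x) ∧ (∀ x, s ∣ e x - 1) ∧
      ∀ a, chiZ m χm a = chiZ (m * s) χ (e a) := by
  obtain ⟨e, h1, h2, h3, h4, h5⟩ := crt_elt hc
  have hcop : ∀ a, ¬ IsCoprime a m → ¬ IsCoprime (e a) (m * s) := by
    intro a ha h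
    exact ha (he9_cop (by rw [dvd_sub_comm]; exact h1 a) h.of_mul_right_left)
  obtain ⟨χm, hχ⟩ := hg6e_lift m
    { toFun := fun a => chiZ (m * s) χ (e a)
      map_one' := by rw [h3, map_one]
      map_mul' := fun a b => by
        rw [← map_mul]
        exact he9_per (m * s) χ _ _ (h4 a b) }
    (fun a b hab => he9_per (m * s) χ _ _ (h5 a b hab))
    (fun a ha => hg5b_zero χ (hcop a ha))
  exact ⟨e, χm, h1, h2, hχ⟩

theorem pg_surj {m s : ZI} (hc : IsCoprime s m) (χ : MulChar (RQ (m * s)) ℂ) :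
    ∃ (χm : MulChar (RQ m) ℂ) (χs : MulChar (RQ s) ℂ), ∀ a,
      chiZ (m * s) χ a = pg m χm s χs a := by
  obtain ⟨e, χm, h1, h2, h3⟩ := comp_exists hc χ
  have hswap : ∀ x y : ZI, s * m ∣ x - y ↔ m * s ∣ x - y := fun x y => by rw [mul_comm]
  obtain ⟨Ψ, hΨ⟩ := hg6e_lift (s * m) (chiZ (m * s) χ)
    (fun a b hab => he9_per (m * s) χ a b ((hswap a b).1 hab))
    (fun a ha => hg5b_zero χ (by rwa [mul_comm m s]))
  obtain ⟨e', χs, h1', h2', h3'⟩ := comp_exists hc.symm Ψ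
  refine ⟨χm, χs, fun a => ?_⟩
  rw [pg_apply, h3, h3', hΨ, ← map_mul]
  refine he9_per (m * s) χ _ _ ?_
  refine hc.symm.mul_dvd ?_ ?_
  · have e1 : a - e a * e' a = -(e a - a) * e' a - a * (e' a - 1) := by ring
    rw [e1]
    exact dvd_sub (Dvd.dvd.mul_right ((dvd_neg).2 (h1 a)) _) (Dvd.dvd.mul_left (h2' a) _)
  · have e1 : a - e a * e' a = -(e a - 1) * e' a - (e' a - a) := by ring
    rw [e1]
    exact dvd_sub (Dvd.dvd.mul_right ((dvd_neg).2 (h2 a)) _) (h1' a)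

theorem pg_inj {m s : ZI} (hc : IsCoprime s m) (χm χm' : MulChar (RQ m) ℂ)
    (χs χs' : MulChar (RQ s) ℂ) (h : ∀ a, pg m χm s χs a = pg m χm' s χs' a) :
    χm = χm' ∧ χs = χs' := by
  obtain ⟨e, h1, h2, -, -, -⟩ := crt_elt hc
  obtain ⟨e', h1', h2', -, -, -⟩ := crt_elt hc.symm
  constructor
  · refine hg5b_ext χm χm' fun a _ => ?_
    have := h (e a)
    rw [pg_apply, pg_apply, he9_per m χm _ _ (h1 a), he9_per m χm' _ _ (h1 a),
      he9_per s χs _ _ (h2 a), he9_per s χs' _ _ (h2 a), map_one, map_one, mul_one, mul_one] at this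
    exact this
  · refine hg5b_ext χs χs' fun a _ => ?_
    have := h (e' a)
    rw [pg_apply, pg_apply, he9_per s χs _ _ (h1' a), he9_per s χs' _ _ (h1' a),
      he9_per m χm _ _ (h2' a), he9_per m χm' _ _ (h2' a), map_one, map_one, one_mul, one_mul] at this
    exact this

/-- sum over all characters modulo `m s` with `χ(i) = -i` -/
theorem sum_FQs {m s : ZI} (hm : m ≠ 0) (hs : s ≠ 0) (hc : IsCoprime s m)
    (f : (ZI →* ℂ) → ℝ) :
    ∑ χ ∈ FQs (m * s), f (Pm (chiZ (m * s) χ)) =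
      ∑ χs ∈ hg5b_fs s (fun _ => True), ∑ χm ∈ FZ m (chiZ s χs im1), f (Pm (pg m χm s χs)) := by
  classical
  have hms := mul_ne_zero hm hs
  rw [Finset.sum_sigma' (hg5b_fs s (fun _ => True)) (fun χs => FZ m (chiZ s χs im1))
    (fun χs χm => f (Pm (pg m χm s χs)))]
  symm
  refine Finset.sum_bij (fun p _ => (pg_lift m p.2 s p.1).choose) ?_ ?_ ?_ ?_
  · rintro ⟨χs, χm⟩ hp
    rw [Finset.mem_sigma, FZ, hg5b_mem hm] at hp
    rw [(fq_finite (m * s) hms).2.2, (pg_lift m χm s χs).choose_spec]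
    exact hp.2
  · rintro ⟨χs, χm⟩ hp ⟨χs', χm'⟩ hp' heq
    have h1 : ∀ a, pg m χm s χs a = pg m χm' s χs' a := by
      intro a
      rw [← (pg_lift m χm s χs).choose_spec, ← (pg_lift m χm' s χs').choose_spec]
      have heq' : (pg_lift m χm s χs).choose = (pg_lift m χm' s χs').choose := heq
      rw [heq']
    obtain ⟨h2, h3⟩ := pg_inj hc χm χm' χs χs' h1
    rw [h2, h3]
  · intro χ hχ
    rw [(fq_finite (m * s) hms).2.2] at hχ
    obtain ⟨χm, χs, h⟩ := pg_surj hc χ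
    refine ⟨⟨χs, χm⟩, ?_, ?_⟩
    · rw [Finset.mem_sigma, FZ, hg5b_mem hm]
      refine ⟨(hg5b_mem hs _ _).2 trivial, ?_⟩
      rw [← hχ, h]
      rfl
    · refine hg5b_ext _ _ fun a _ => ?_
      show chiZ (m * s) ((pg_lift m χm s χs).choose) a = _
      rw [(pg_lift m χm s χs).choose_spec, h]
  · rintro ⟨χs, χm⟩ hp
    have : pg m χm s χs = chiZ (m * s) (pg_lift m χm s χs).choose :=
      MonoidHom.ext fun a => ((pg_lift m χm s χs).choose_spec a).symm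
    exact congrArg (fun g => f (Pm g)) this

theorem im1_coprime (q : ZI) : IsCoprime im1 q := by
  refine ⟨⟨0, -1⟩, 0, ?_⟩
  rw [zero_mul, add_zero]
  decide

open Classical in
/-- the sum over all characters -/
theorem sum_all {m : ZI} (hm : m ≠ 0) (X Y : ℕ) (f : (ZI →* ℂ) → ℝ) :
    ∑ s ∈ (BX Y).filter (fun s => X < nrm s ∧ IsCoprime s m), (1 / (nrm s : ℝ) ^ 2) *
      ∑ χ ∈ FQs (m * s), f (Pm (chiZ (m * s) χ)) =
    (1 / 4 : ℝ) * ∑ k ∈ (BX Y).filter (fun k => IsCoprime k m), (1 / (nrm k : ℝ) ^ 2) *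
      ∑ p ∈ SS m (X / nrm k) (Y / nrm k), wF p.1 * f (Pm (gp m p)) := by
  set G : (Σ q : ZI, MulChar (RQ q) ℂ) → ℝ := fun u =>
    (1 / (nrm u.1 : ℝ) ^ 2) * ∑ χm ∈ FZ m (chiZ u.1 u.2 im1), f (Pm (pg m χm u.1 u.2)) with hG
  have h1 : ∑ s ∈ (BX Y).filter (fun s => X < nrm s ∧ IsCoprime s m), (1 / (nrm s : ℝ) ^ 2) *
      ∑ χ ∈ FQs (m * s), f (Pm (chiZ (m * s) χ)) = ∑ u ∈ UU m X Y, G u := by
    unfold UU
    rw [Finset.sum_sigma]
    refine Finset.sum_congr rfl fun s hs => ?_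
    rw [Finset.mem_filter] at hs
    rw [sum_FQs hm (hg5b_BX_ne hs.1) hs.2.2, Finset.mul_sum]
  rw [h1, gen_count]
  congr 1
  unfold TT
  rw [Finset.sum_sigma]
  refine Finset.sum_congr rfl fun k hk => ?_
  rw [Finset.mem_filter] at hk
  have hk0 := hg5b_BX_ne hk.1
  rw [sum_SS hm, Finset.mul_sum]
  refine Finset.sum_congr rfl fun p hp => ?_
  rw [mem_FM] at hp
  obtain ⟨a1, a2, a3, a4, a5⟩ := hp
  rw [hG]
  show (1 / (nrm (p.1 * k) : ℝ) ^ 2) * ∑ χm ∈ FZ m (chiZ (p.1 * k) (hg5b_ind p.1 k p.2) im1),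
      f (Pm (pg m χm (p.1 * k) (hg5b_ind p.1 k p.2))) =
    (1 / (nrm k : ℝ) ^ 2) * ∑ χm ∈ FZ m (chiZ p.1 p.2 im1), wF p * f (Pm (pg m χm p.1 p.2))
  rw [hg5b_ind_eq _ _ _ (im1_coprime _), Finset.mul_sum, Finset.mul_sum]
  refine Finset.sum_congr rfl fun χm hχ => ?_
  rw [FZ, hg5b_mem hm] at hχ
  have h2 : Pm (pg m χm (p.1 * k) (hg5b_ind p.1 k p.2)) = Pm (pg m χm p.1 p.2) := by
    refine pm_congr (pg_spec hm a1 χm p.2 hχ).1 (mul_ne_zero a1 hk0) fun a ha => ?_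
    rw [pg_apply, pg_apply, hg5b_ind_eq _ _ _ ha]
  rw [h2, hg5b_nrm_mul]
  unfold wF
  push_cast
  rw [mul_pow, one_div, one_div, one_div, mul_inv]
  ring

end Pool.Agent.Y693.R2
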