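import Pool.Agent.Y693.R2.Reg

/-!
Averages over the moduli coprime to `M`.
-/

set_option autoImplicit false

open Complex Filter Topology Set MeasureTheory

namespace Pool.Agent.Y693.R2

open H385
open H385.HG6b (nrm_pos mem_BX card_Rep)
open Pool.Agent.H304R3.HK (tc HC CS bb LamK psi bH aH LH Rep)
open Pool.Agent.H304R3.HK.G1a (tc_add tc_mul tc_ne mem_Rep rp rp_congr rp_mem mk_rp mk_eq)

theorem rp_dvd (P a : ZI) : P ∣ rp P a - a := by
  rw [← mk_eq, mk_rp]

open Classical in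
/-- every class has its share, lower bound -/
theorem class_lower (P : ZI) (hP : P ≠ 0) : ∃ C : ℝ, 0 < C ∧
    ∀ X Y : ℕ, 1 ≤ X → X ≤ Y → ∀ c ∈ Rep P,
    Real.pi / nrm P * Real.log ((Y : ℝ) / X) - C ≤
      ∑ q ∈ ((BX Y).filter (fun q => X < nrm q)).filter (fun q => P ∣ q - c), (1 : ℝ) / nrm q := by
  obtain ⟨C2, hC2, h2⟩ := class_sum_lower
  obtain ⟨C3, hC3, h3⟩ := class_sum P hP
  have hN := nrm_pos hP
  have hN0 : (0 : ℝ) < nrm P := by exact_mod_cast hN
  have hN1 : (1 : ℝ) ≤ nrm P := by exact_mod_cast hN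
  refine ⟨C2 + nrm P * C3, by positivity, fun X Y hX hXY => ?_⟩
  have hX0 : (0 : ℝ) < X := by exact_mod_cast hX
  have hXY0 : (X : ℝ) ≤ Y := by exact_mod_cast hXY
  set L := Real.log ((Y : ℝ) / X) with hL
  set F := (BX Y).filter (fun q => X < nrm q) with hF
  have hF1 : ∀ q ∈ F, q ≠ 0 ∧ nrm q ≤ Y ∧ X < nrm q := by
    intro q hq
    rw [hF, Finset.mem_filter, mem_BX] at hq
    exact ⟨hq.1.1, hq.1.2, hq.2⟩
  have hsplit : ∀ f : ZI → ℝ, ∑ q ∈ F, f q =
      ∑ c ∈ Rep P, ∑ q ∈ F.filter (fun q => P ∣ q - c), f q := by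
    intro f
    have h4 : ∀ q ∈ F, f q = ∑ c ∈ Rep P, (if P ∣ q - c then f q else 0) := by
      intro q _
      obtain ⟨r, ⟨hr1, hr2⟩, hr3⟩ := Pool.Agent.H304R3.HK.rep_spec P hP q
      rw [Finset.sum_eq_single r]
      · rw [if_pos hr2]
      · intro c hc hcr
        rw [if_neg]
        intro hd
        exact hcr (hr3 c ⟨hc, hd⟩)
      · intro h; exact absurd hr1 h
    rw [Finset.sum_congr rfl h4, Finset.sum_comm]
    exact Finset.sum_congr rfl fun c _ => (Finset.sum_filter _ _).symm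
  have hup : ∀ c : ZI, ∑ q ∈ F.filter (fun q => P ∣ q - c), (1 : ℝ) / nrm q ≤
      Real.pi / nrm P * L + C3 := by
    intro c
    have := h3 X Y c (F.filter (fun q => P ∣ q - c)) hX0 hXY0 (by
      intro j hj
      rw [Finset.mem_filter] at hj
      obtain ⟨g1, g2, g3⟩ := hF1 j hj.1
      exact ⟨g1, hj.2, by exact_mod_cast g3, by exact_mod_cast g2⟩)
    exact this
  intro c hc
  have h5 := h2 X Y hX hXY
  rw [← hF, hsplit, ← Finset.add_sum_erase _ _ hc] at h5
  have h6 : ∑ c' ∈ (Rep P).erase c, ∑ q ∈ F.filter (fun q => P ∣ q - c'), (1 : ℝ) / nrm q ≤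
      ∑ _c' ∈ (Rep P).erase c, (Real.pi / nrm P * L + C3) :=
    Finset.sum_le_sum fun c' _ => hup c'
  rw [Finset.sum_const, Finset.card_erase_of_mem hc, card_Rep P hP, nsmul_eq_mul,
    Nat.cast_sub hN, Nat.cast_one] at h6
  have h7 : Real.pi * L = nrm P * (Real.pi / nrm P * L) := by
    field_simp
  rw [← hL] at h5
  have h8 : ((nrm P : ℝ) - 1) * (Real.pi / nrm P * L + C3) =
    nrm P * (Real.pi / nrm P * L) - Real.pi / nrm P * L + nrm P * C3 - C3 := by ring
  rw [h8] at h6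
  linarith

open Classical in
theorem partCM (M P : ZI) (hP : P ≠ 0) (hMP : M ∣ P) : ∃ C : ℝ, 0 < C ∧
    ∀ X Y : ℕ, 1 ≤ X → X ≤ Y →
    Real.pi * GPm M P * Real.log ((Y : ℝ) / X) - C ≤
      ∑ q ∈ (BX Y).filter (fun q => X < nrm q ∧ IsCoprime q M), gP P q / (nrm q : ℝ) := by
  obtain ⟨C, hC, hlow⟩ := class_lower P hP
  have hN := nrm_pos hP
  have hN0 : (0 : ℝ) < nrm P := by exact_mod_cast hN
  refine ⟨nrm P * C, by positivity, fun X Y hX hXY => ?_⟩
  set L := Real.log ((Y : ℝ) / X) with hL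
  set F := (BX Y).filter (fun q => X < nrm q ∧ IsCoprime q M) with hF
  have hsplit : ∑ q ∈ F, gP P q / (nrm q : ℝ) =
      ∑ c ∈ RepM M P, ∑ q ∈ ((BX Y).filter (fun q => X < nrm q)).filter (fun q => P ∣ q - c),
        gP P q / (nrm q : ℝ) := by
    have h4 : ∀ q ∈ (BX Y).filter (fun q => X < nrm q),
        ∑ c ∈ RepM M P, (if P ∣ q - c then gP P q / (nrm q : ℝ) else 0) =
        if IsCoprime q M then gP P q / (nrm q : ℝ) else 0 := by
      intro q _
      obtain ⟨r, ⟨hr1, hr2⟩, hr3⟩ := Pool.Agent.H304R3.HK.rep_spec P hP q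
      by_cases hq : IsCoprime q M
      · rw [if_pos hq, Finset.sum_eq_single r]
        · rw [if_pos hr2]
        · intro c hc hcr
          rw [if_neg]
          intro hd
          exact hcr (hr3 c ⟨(Finset.mem_filter.1 hc).1, hd⟩)
        · intro h
          exfalso
          apply h
          unfold RepM
          rw [Finset.mem_filter]
          refine ⟨hr1, he9_cop ?_ hq⟩
          rw [← neg_sub, dvd_neg]
          exact hMP.trans hr2
      · rw [if_neg hq]
        refine Finset.sum_eq_zero fun c hc => ?_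
        rw [if_neg]
        intro hd
        exact hq (he9_cop (hMP.trans hd) (Finset.mem_filter.1 hc).2)
    have h5 : ∀ c ∈ RepM M P,
        ∑ q ∈ ((BX Y).filter (fun q => X < nrm q)).filter (fun q => P ∣ q - c),
        gP P q / (nrm q : ℝ) = ∑ q ∈ (BX Y).filter (fun q => X < nrm q),
          (if P ∣ q - c then gP P q / (nrm q : ℝ) else 0) := fun c _ => Finset.sum_filter _ _
    rw [Finset.sum_congr rfl h5, Finset.sum_comm, Finset.sum_congr rfl h4, ← Finset.sum_filter,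
      Finset.filter_filter]
  rw [hsplit]
  have h9 : ∀ c ∈ RepM M P, gP P c * (Real.pi / nrm P * L - C) ≤
      ∑ q ∈ ((BX Y).filter (fun q => X < nrm q)).filter (fun q => P ∣ q - c),
        gP P q / (nrm q : ℝ) := by
    intro c hc
    have h10 : ∑ q ∈ ((BX Y).filter (fun q => X < nrm q)).filter (fun q => P ∣ q - c),
        gP P q / (nrm q : ℝ) = gP P c *
        ∑ q ∈ ((BX Y).filter (fun q => X < nrm q)).filter (fun q => P ∣ q - c), (1 : ℝ) / nrm q := by
      rw [Finset.mul_sum]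
      refine Finset.sum_congr rfl fun q hq => ?_
      rw [Finset.mem_filter] at hq
      rw [HG6b.gP_congr hq.2]
      ring
    rw [h10]
    have hg0 : 0 ≤ gP P c := by
      unfold gP phq
      positivity
    exact mul_le_mul_of_nonneg_left (hlow X Y hX hXY c (Finset.mem_filter.1 hc).1) hg0
  refine le_trans ?_ (Finset.sum_le_sum h9)
  rw [← Finset.sum_mul]
  have h11 : ∑ c ∈ RepM M P, gP P c = nrm P * GPm M P := by
    unfold GPm
    field_simp
  have h12 : ∑ c ∈ RepM M P, gP P c ≤ nrm P := by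
    have h1 : ∑ c ∈ RepM M P, gP P c ≤ ∑ _c ∈ RepM M P, (1 : ℝ) := by
      refine Finset.sum_le_sum fun c hc => ?_
      have hgc : EuclideanDomain.gcd c P ≠ 0 := by
        intro h
        have := EuclideanDomain.gcd_dvd_right c P
        rw [h] at this
        exact hP (zero_dvd_iff.1 this)
      exact (phq_gP P _ hP hgc).2.2.2.2
    rw [Finset.sum_const, nsmul_eq_mul, mul_one] at h1
    refine h1.trans ?_
    rw [← card_Rep P hP]
    exact_mod_cast Finset.card_le_card (Finset.filter_subset _ _)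
  have h13 : (∑ c ∈ RepM M P, gP P c) * (Real.pi / nrm P * L - C) =
      Real.pi * GPm M P * L - (∑ c ∈ RepM M P, gP P c) * C := by
    rw [mul_sub, h11]
    congr 1
    field_simp
  rw [h13]
  have h14 : (∑ c ∈ RepM M P, gP P c) * C ≤ nrm P * C := mul_le_mul_of_nonneg_right h12 hC.le
  linarith

open Classical in
/-- average of `φ(q)/N(q)²` over the moduli coprime to `M` compared with `GPm M P` -/
theorem phq_avgM (M P : ZI) (hP : P ≠ 0) (hMP : M ∣ P) (K : ℕ) (hK : 1 ≤ K) (hS : Smo P K) :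
    ∃ C : ℝ, 0 < C ∧ ∀ X Y : ℕ, 1 ≤ X → X ≤ Y →
    (Real.pi * GPm M P - 200 / K) * Real.log ((Y : ℝ) / X) - C ≤
      ∑ q ∈ (BX Y).filter (fun q => X < nrm q ∧ IsCoprime q M), phq q / (nrm q : ℝ) := by
  classical
  obtain ⟨C1, hC1, h1⟩ := HG6b.partB K hK
  obtain ⟨C2, hC2, h2⟩ := partCM M P hP hMP
  refine ⟨C1 + C2, by positivity, fun X Y hX hXY => ?_⟩
  have h3 := h1 X Y hX hXY
  have h4 := h2 X Y hX hXY
  have h3' : ∑ q ∈ (BX Y).filter (fun q => X < nrm q ∧ IsCoprime q M),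
      (∑ m ∈ (BX (nrm q)).filter (fun m => m ∣ q ∧ K < nrm m), (1 : ℝ) / nrm m) / nrm q ≤
      ∑ q ∈ (BX Y).filter (fun q => X < nrm q),
      (∑ m ∈ (BX (nrm q)).filter (fun m => m ∣ q ∧ K < nrm m), (1 : ℝ) / nrm m) / nrm q := by
    apply Finset.sum_le_sum_of_subset_of_nonneg
    · intro q hq
      rw [Finset.mem_filter] at hq ⊢
      exact ⟨hq.1, hq.2.1⟩
    · intro q _ _
      positivity
  have h5 : ∑ q ∈ (BX Y).filter (fun q => X < nrm q ∧ IsCoprime q M), gP P q / (nrm q : ℝ) -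
      ∑ q ∈ (BX Y).filter (fun q => X < nrm q ∧ IsCoprime q M),
      (∑ m ∈ (BX (nrm q)).filter (fun m => m ∣ q ∧ K < nrm m), (1 : ℝ) / nrm m) / nrm q ≤
      ∑ q ∈ (BX Y).filter (fun q => X < nrm q ∧ IsCoprime q M), phq q / (nrm q : ℝ) := by
    rw [← Finset.sum_sub_distrib]
    refine Finset.sum_le_sum fun q hq => ?_
    rw [Finset.mem_filter, HG6b.mem_BX] at hq
    rw [← sub_div]
    exact div_le_div_of_nonneg_right (HG6b.partA P q K hS hq.1.1) (Nat.cast_nonneg _)
  have h6 : (Real.pi * GPm M P - 200 / K) * Real.log ((Y : ℝ) / X) =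
    Real.pi * GPm M P * Real.log ((Y : ℝ) / X) - 200 / K * Real.log ((Y : ℝ) / X) := by ring
  rw [h6]
  linarith

open Classical in
theorem cnt_class_le {P s : ZI} (hP : P ≠ 0) (hs : s ∣ P) (c0 : ZI) :
    (((Rep P).filter (fun c => s ∣ c - c0)).card : ℝ) ≤ (nrm P : ℝ) / (nrm s : ℝ) := by
  refine le_trans ?_ (hg6d_cnt hP hs)
  norm_cast
  refine Finset.card_le_card_of_injOn (fun c => rp P (c - c0)) ?_ ?_
  · intro c hc
    rw [Finset.mem_coe, Finset.mem_filter] at hc
    simp only [Finset.coe_filter, Set.mem_ofPred_eq]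
    refine ⟨rp_mem P hP _, ?_⟩
    have h1 := hs.trans (rp_dvd P (c - c0))
    have h2 := dvd_add h1 hc.2
    rwa [sub_add_cancel] at h2
  · intro c hc c' hc' h
    rw [Finset.mem_coe, Finset.mem_filter] at hc hc'
    simp only at h
    have h1 := rp_dvd P (c - c0)
    have h2 := rp_dvd P (c' - c0)
    rw [h] at h1
    have h3 := dvd_sub h2 h1
    have h4 : rp P (c' - c0) - (c' - c0) - (rp P (c' - c0) - (c - c0)) = c - c' := by ring
    rw [h4] at h3
    rw [mem_Rep hc.1, mem_Rep hc'.1]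
    exact rp_congr h3

open Classical in
theorem cnt_class_ge {P M : ZI} (hP : P ≠ 0) (hM : M ∣ P) :
    (nrm P : ℝ) / (nrm M : ℝ) ≤ (((Rep P).filter (fun c => M ∣ c - 1)).card : ℝ) := by
  obtain ⟨Q, rfl⟩ := hM
  have hM0 : M ≠ 0 := left_ne_zero_of_mul hP
  have hQ0 : Q ≠ 0 := right_ne_zero_of_mul hP
  have h1 : (0 : ℝ) < nrm M := by exact_mod_cast nrm_pos hM0
  rw [HG6b.nrm_mul]
  push_cast
  rw [mul_div_cancel_left₀ _ h1.ne', ← card_Rep Q hQ0]
  norm_cast
  refine Finset.card_le_card_of_injOn (fun x => rp (M * Q) (1 + M * x)) ?_ ?_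
  · intro x hx
    simp only [Finset.coe_filter, Set.mem_ofPred_eq]
    refine ⟨rp_mem _ hP _, ?_⟩
    have h2 := (dvd_mul_right M Q).trans (rp_dvd (M * Q) (1 + M * x))
    have h3 := dvd_add h2 (dvd_mul_right M x)
    have h4 : rp (M * Q) (1 + M * x) - (1 + M * x) + M * x = rp (M * Q) (1 + M * x) - 1 := by ring
    rwa [h4] at h3
  · intro x hx y hy h
    rw [Finset.mem_coe] at hx hy
    simp only at h
    have h2 := rp_dvd (M * Q) (1 + M * x)
    have h3 := rp_dvd (M * Q) (1 + M * y)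
    rw [h] at h2
    have h4 := dvd_sub h3 h2
    have h5 : rp (M * Q) (1 + M * y) - (1 + M * y) - (rp (M * Q) (1 + M * y) - (1 + M * x)) =
      M * (x - y) := by ring
    rw [h5] at h4
    have h6 := (mul_dvd_mul_iff_left hM0).1 h4
    rw [mem_Rep hx, mem_Rep hy]
    exact rp_congr h6

/-- `GPm M P` is bounded below -/
theorem GPm_lower (M : ZI) (hM : M ≠ 0) : ∃ g : ℝ, 0 < g ∧ ∀ P : ZI, P ≠ 0 → M ∣ P →
    g ≤ GPm M P := by
  classical
  have hM0 : (0 : ℝ) < nrm M := by exact_mod_cast nrm_pos hM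
  refine ⟨3 / 64 / nrm M, by positivity, fun P hP hMP => ?_⟩
  have hN : (0 : ℝ) < nrm P := by exact_mod_cast nrm_pos hP
  have h1 : ∀ c ∈ (Rep P).filter (fun c => M ∣ c - 1),
      1 - ∑ t ∈ hg6d_T P, (if t ∣ c then 1 / (nrm t : ℝ) else 0) ≤ gP P c := by
    intro c _
    have hg : EuclideanDomain.gcd c P ≠ 0 := by
      intro h2
      have := EuclideanDomain.gcd_dvd_right c P
      rw [h2, zero_dvd_iff] at this
      exact hP this
    refine le_trans ?_ (hg6d_phq hg)
    apply sub_le_sub_left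
    rw [← Finset.sum_filter]
    refine Finset.sum_le_sum_of_subset_of_nonneg ?_ (fun _ _ _ => by positivity)
    intro t ht
    rw [hg6d_mem_T hg] at ht
    rw [Finset.mem_filter, hg6d_mem_T hP]
    exact ⟨⟨ht.1, ht.2.1, ht.2.2.1, ht.2.2.2.trans (EuclideanDomain.gcd_dvd_right c P)⟩,
      ht.2.2.2.trans (EuclideanDomain.gcd_dvd_left c P)⟩
  have h2 := Finset.sum_le_sum h1
  rw [Finset.sum_sub_distrib, Finset.sum_const, nsmul_eq_mul, mul_one, Finset.sum_comm] at h2
  have h3 : ∑ t ∈ hg6d_T P, ∑ c ∈ (Rep P).filter (fun c => M ∣ c - 1),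
      (if t ∣ c then 1 / (nrm t : ℝ) else 0) ≤
      ∑ t ∈ hg6d_T P, ((nrm P : ℝ) / nrm M) * (1 / (nrm t : ℝ) ^ 2) := by
    refine Finset.sum_le_sum fun t ht => ?_
    rw [← Finset.sum_filter, Finset.sum_const, nsmul_eq_mul, Finset.filter_filter]
    have ht2 := (hg6d_mem_T hP).1 ht
    have ht0 : t ≠ 0 := by
      rintro rfl
      simp at ht2
    have hNt : (0 : ℝ) < nrm t := by exact_mod_cast nrm_pos ht0
    rcases ((Rep P).filter (fun c => M ∣ c - 1 ∧ t ∣ c)).eq_empty_or_nonempty with he | ⟨c0, hc0⟩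
    · rw [he]
      simp only [Finset.card_empty, Nat.cast_zero, zero_mul]
      positivity
    · rw [Finset.mem_filter] at hc0
      have hcop : IsCoprime t M := by
        obtain ⟨x, hx⟩ := hc0.2.1
        obtain ⟨y, hy⟩ := hc0.2.2
        exact ⟨y, -x, by linear_combination hx - hy⟩
      have hdv : t * M ∣ P := hcop.mul_dvd ht2.2.2.2 hMP
      have h4 := cnt_class_le hP hdv c0
      have h5 : (((Rep P).filter (fun c => M ∣ c - 1 ∧ t ∣ c)).card : ℝ) ≤
          (((Rep P).filter (fun c => t * M ∣ c - c0)).card : ℝ) := by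
        norm_cast
        apply Finset.card_le_card
        intro c hc
        rw [Finset.mem_filter] at hc ⊢
        refine ⟨hc.1, hcop.mul_dvd (dvd_sub hc.2.2 hc0.2.2) ?_⟩
        have := dvd_sub hc.2.1 hc0.2.1
        rwa [sub_sub_sub_cancel_right] at this
      rw [HG6b.nrm_mul] at h4
      push_cast at h4
      calc (((Rep P).filter (fun c => M ∣ c - 1 ∧ t ∣ c)).card : ℝ) * (1 / (nrm t : ℝ))
          ≤ ((nrm P : ℝ) / ((nrm t : ℝ) * nrm M)) * (1 / (nrm t : ℝ)) :=
            mul_le_mul_of_nonneg_right (h5.trans h4) (by positivity)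
        _ = ((nrm P : ℝ) / nrm M) * (1 / (nrm t : ℝ) ^ 2) := by
            field_simp
  rw [← Finset.mul_sum] at h3
  have h4 := cnt_class_ge hP hMP
  have h5 := hg6d_T_sum hP
  have h6 : ∑ c ∈ (Rep P).filter (fun c => M ∣ c - 1), gP P c ≤ ∑ c ∈ RepM M P, gP P c := by
    apply Finset.sum_le_sum_of_subset_of_nonneg
    · intro c hc
      rw [Finset.mem_filter] at hc
      unfold RepM
      rw [Finset.mem_filter]
      exact ⟨hc.1, he9_cop hc.2 isCoprime_one_left⟩
    · intro c _ _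
      exact HG5a.gP_nonneg P c
  have h7 : ((nrm P : ℝ) / nrm M) * (3 / 64) ≤ ∑ c ∈ RepM M P, gP P c := by
    have h8 : 0 ≤ (nrm P : ℝ) / nrm M := by positivity
    have h9 := mul_le_mul_of_nonneg_left h5 h8
    linarith
  unfold GPm
  rw [div_le_iff₀ hM0, one_div, mul_assoc, mul_comm _ (nrm M : ℝ), ← mul_assoc, ← div_eq_inv_mul,
    div_mul_eq_mul_div, le_div_iff₀ hN]
  have h10 : (3 : ℝ) / 64 * nrm P = (nrm M : ℝ) * (((nrm P : ℝ) / nrm M) * (3 / 64)) := by
    field_simp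
  rw [h10]
  exact mul_le_mul_of_nonneg_left h7 hM0.le

end Pool.Agent.Y693.R2
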