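import Pool.Agent.Y693.R2.Mass

/-!
All characters as characters induced by the primitive ones, exact counting.
-/

set_option autoImplicit false

open Complex Filter Topology Set MeasureTheory

namespace Pool.Agent.Y693.R2

open H385
open H385.HG6b (nrm_pos)
open Pool.Agent.H304R3.HK (tc HC LH)

theorem sig_ext {a b : ZI} {x : MulChar (RQ a) ℂ} {y : MulChar (RQ b) ℂ} (h : a = b)
    (h2 : ∀ z, IsCoprime z b → chiZ a x z = chiZ b y z) :
    (⟨a, x⟩ : Σ q : ZI, MulChar (RQ q) ℂ) = ⟨b, y⟩ := by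
  subst h
  rw [hg5b_ext x y h2]

theorem nrm_im1_pow (j : ℕ) : nrm (im1 ^ j) = 1 := by
  induction j with
  | zero => decide
  | succ j ih =>
    rw [pow_succ, hg5b_nrm_mul, ih]
    decide

/-- the pairs -/
noncomputable def TT (M : ZI) (X Y : ℕ) : Finset (Σ _ : ZI, (Σ q : ZI, MulChar (RQ q) ℂ)) :=
  open Classical in
  ((BX Y).filter (fun k => IsCoprime k M)).sigma (fun k => FM M (X / nrm k) (Y / nrm k))

/-- all the characters -/
noncomputable def UU (M : ZI) (X Y : ℕ) : Finset (Σ q : ZI, MulChar (RQ q) ℂ) :=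
  open Classical in
  ((BX Y).filter (fun q => X < nrm q ∧ IsCoprime q M)).sigma (fun q => hg5b_fs q (fun _ => True))

/-- the induced character -/
noncomputable def gi (t : Σ _ : ZI, (Σ q : ZI, MulChar (RQ q) ℂ)) : Σ q : ZI, MulChar (RQ q) ℂ :=
  ⟨t.2.1 * t.1, hg5b_ind t.2.1 t.1 t.2.2⟩

theorem mem_TT {M : ZI} {X Y : ℕ} {t : Σ _ : ZI, (Σ q : ZI, MulChar (RQ q) ℂ)} :
    t ∈ TT M X Y ↔ t.1 ≠ 0 ∧ IsCoprime t.1 M ∧ t.2.1 ≠ 0 ∧ X < nrm (t.2.1 * t.1) ∧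
      nrm (t.2.1 * t.1) ≤ Y ∧ IsCoprime t.2.1 M ∧ PrimC t.2.1 t.2.2 := by
  classical
  unfold TT
  rw [Finset.mem_sigma, Finset.mem_filter, mem_FM, hg5b_nrm_mul]
  constructor
  · rintro ⟨⟨h1, h2⟩, h3, h4, h5, h6, h7⟩
    have h0 := nrm_pos (hg5b_BX_ne h1)
    exact ⟨hg5b_BX_ne h1, h2, h3, (Nat.div_lt_iff_lt_mul h0).1 h4,
      (Nat.le_div_iff_mul_le h0).1 h5, h6, h7⟩
  · rintro ⟨h1, h2, h3, h4, h5, h6, h7⟩
    have h0 := nrm_pos h1
    have h0' := nrm_pos h3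
    refine ⟨⟨hg5b_mem_BX.2 ⟨h0, ?_⟩, h2⟩, h3, (Nat.div_lt_iff_lt_mul h0).2 h4,
      (Nat.le_div_iff_mul_le h0).2 h5, h6, h7⟩
    exact (Nat.le_mul_of_pos_left _ h0').trans h5

theorem mem_UU {M : ZI} {X Y : ℕ} {u : Σ q : ZI, MulChar (RQ q) ℂ} :
    u ∈ UU M X Y ↔ u.1 ≠ 0 ∧ X < nrm u.1 ∧ nrm u.1 ≤ Y ∧ IsCoprime u.1 M := by
  classical
  unfold UU
  rw [Finset.mem_sigma, Finset.mem_filter]
  constructor
  · rintro ⟨⟨h1, h2, h3⟩, h4⟩
    exact ⟨hg5b_BX_ne h1, h2, (hg5b_mem_BX.1 h1).2, h3⟩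
  · rintro ⟨h1, h2, h3, h4⟩
    exact ⟨⟨hg5b_mem_BX.2 ⟨nrm_pos h1, h3⟩, h2, h4⟩, (hg5b_mem h1 _ _).2 trivial⟩

theorem gi_maps {M : ZI} {X Y : ℕ} {t : Σ _ : ZI, (Σ q : ZI, MulChar (RQ q) ℂ)}
    (ht : t ∈ TT M X Y) : gi t ∈ UU M X Y := by
  rw [mem_TT] at ht
  rw [mem_UU]
  obtain ⟨h1, h2, h3, h4, h5, h6, h7⟩ := ht
  exact ⟨mul_ne_zero h3 h1, h4, h5, h6.mul_left h2⟩

open Classical in
theorem fib_le {M : ZI} {X Y : ℕ} (u : Σ q : ZI, MulChar (RQ q) ℂ) :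
    ((TT M X Y).filter (fun t => gi t = u)).card ≤ 4 := by
  rcases ((TT M X Y).filter (fun t => gi t = u)).eq_empty_or_nonempty with he | ⟨t0, ht0⟩
  · rw [he]
    simp
  rw [Finset.mem_filter, mem_TT] at ht0
  obtain ⟨⟨a1, -, a3, -, -, -, a7⟩, hu0⟩ := ht0
  have heq : ∀ t, gi t = u → t.2.1 * t.1 = t0.2.1 * t0.1 ∧
      ∀ x, IsCoprime x (t0.2.1 * t0.1) → chiZ t.2.1 t.2.2 x = chiZ t0.2.1 t0.2.2 x := by
    intro t hu
    have h1 : gi t = gi t0 := hu.trans hu0.symm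
    have h2 : t.2.1 * t.1 = t0.2.1 * t0.1 := congrArg Sigma.fst h1
    refine ⟨h2, fun x hx => ?_⟩
    have h3 : chiZ (gi t).1 (gi t).2 x = chiZ (gi t0).1 (gi t0).2 x := by rw [h1]
    have h4 : chiZ (t.2.1 * t.1) (hg5b_ind t.2.1 t.1 t.2.2) x =
      chiZ (t0.2.1 * t0.1) (hg5b_ind t0.2.1 t0.1 t0.2.2) x := h3
    rwa [hg5b_ind_eq _ _ _ hx, hg5b_ind_eq _ _ _ (by rw [h2]; exact hx)] at h4
  have h0 : t0.2.1 * t0.1 ≠ 0 := mul_ne_zero a3 a1
  have hcard : ((TT M X Y).filter (fun t => gi t = u)).card ≤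
      ((BX 1).image (fun w => t0.2.1 * w)).card := by
    refine Finset.card_le_card_of_injOn (fun t => t.2.1) ?_ ?_
    · intro t ht
      rw [Finset.mem_coe, Finset.mem_filter, mem_TT] at ht
      obtain ⟨⟨b1, -, b3, -, -, -, b7⟩, hu⟩ := ht
      obtain ⟨h1, h2⟩ := heq t hu
      have h3 : t0.2.1 ∣ t.2.1 := hg5b_dvd h0 t0.2.2 t.2.2 a7 (fun x hx => (h2 x hx).symm)
      have h4 : t.2.1 ∣ t0.2.1 := hg5b_dvd h0 t.2.2 t0.2.2 b7 h2
      obtain ⟨w, hw⟩ := h3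
      rw [Finset.mem_coe, Finset.mem_image]
      refine ⟨w, ?_, hw.symm⟩
      rw [hg5b_mem_BX]
      have h5 := he3_nrm h4 a3
      rw [hw, hg5b_nrm_mul] at h5
      have h6 : 0 < nrm t0.2.1 := nrm_pos a3
      have h7 : nrm w ≤ 1 := by
        by_contra hcon
        push Not at hcon
        have : nrm t0.2.1 * 2 ≤ nrm t0.2.1 * nrm w := Nat.mul_le_mul_left _ hcon
        omega
      have h8 : w ≠ 0 := by
        rintro rfl
        rw [mul_zero] at hw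
        exact b3 hw
      exact ⟨nrm_pos h8, h7⟩
    · intro t ht t' ht' htt
      rw [Finset.mem_coe, Finset.mem_filter, mem_TT] at ht ht'
      obtain ⟨⟨b1, -, b3, -, -, -, b7⟩, hu⟩ := ht
      obtain ⟨-, hu'⟩ := ht'
      obtain ⟨h1, h2⟩ := heq t hu
      obtain ⟨h1', h2'⟩ := heq t' hu'
      obtain ⟨k, ⟨m, ψ⟩⟩ := t
      obtain ⟨k', ⟨m', ψ'⟩⟩ := t'
      simp only at htt h1 h1' h2 h2' b3
      subst htt
      have hk : k = k' := mul_left_cancel₀ b3 (h1.trans h1'.symm)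
      subst hk
      have hψ : ψ = ψ' := by
        refine hg5b_ext ψ ψ' fun x hx => ?_
        obtain ⟨y, hy1, hy2⟩ := he9_lift (t0.2.1 * t0.1) m x h0 hx
        rw [← he9_per m ψ y x hy1, ← he9_per m ψ' y x hy1, h2 y hy2, h2' y hy2]
      rw [hψ]
  exact hcard.trans (Finset.card_image_le.trans hg5b_BX_one)

open Classical in
theorem le_fib {M : ZI} {X Y : ℕ} {u : Σ q : ZI, MulChar (RQ q) ℂ} (hu : u ∈ UU M X Y) :
    4 ≤ ((TT M X Y).filter (fun t => gi t = u)).card := by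
  obtain ⟨q, χ⟩ := u
  rw [mem_UU] at hu
  obtain ⟨hq, hX, hY, hM⟩ := hu
  simp only at hq hX hY hM
  obtain ⟨d, ψ, hd1, hd2, hd3, hd4, hd5, hd6⟩ := prim_gen q hq χ
  obtain ⟨c, hc⟩ := hd1
  have hc0 : c ≠ 0 := fun h => hq (by rw [hc, h, mul_zero])
  have h2 : ∀ (j : ℕ), ∃ Ψ : MulChar (RQ (im1 ^ j * d)) ℂ,
      (PrimC (im1 ^ j * d) Ψ ∧ ∀ a, chiZ (im1 ^ j * d) Ψ a = ψ a) := by
    intro j
    have hu := im1_unit j
    obtain ⟨Ψ, hΨ⟩ := hg6e_lift (im1 ^ j * d) ψ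
      (fun a b hab => hd3 a b (dvd_of_mul_left_dvd hab))
      (fun a ha => by
        by_contra hc
        exact ha ((isCoprime_mul_unit_left_right hu a d).2 ((hd4 a).1 hc)))
    refine ⟨Ψ, ?_, hΨ⟩
    intro e he hne
    obtain ⟨a, h1, h2, h3⟩ := hd5 e (hu.dvd_mul_left.1 he) (fun h' => hne (hu.mul_left_dvd.2 h'))
    refine ⟨a, (isCoprime_mul_unit_left_right hu a d).2 h1, h2, ?_⟩
    rw [hΨ]
    exact h3
  choose Ψ hΨ1 hΨ2 using h2
  have hprod : ∀ j : ℕ, im1 ^ j * d * (im1 ^ (3 * j) * c) = q := by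
    intro j
    have e : im1 ^ j * im1 ^ (3 * j) = 1 := by
      rw [← pow_add, show j + 3 * j = 4 * j by ring, pow_mul, he2_im4, one_pow]
    calc im1 ^ j * d * (im1 ^ (3 * j) * c) = (im1 ^ j * im1 ^ (3 * j)) * (d * c) := by ring
      _ = q := by rw [e, one_mul, hc]
  rw [show (4 : ℕ) = (Finset.range 4).card from (Finset.card_range 4).symm]
  refine Finset.card_le_card_of_injOn
    (fun j => (⟨im1 ^ (3 * j) * c, ⟨im1 ^ j * d, Ψ j⟩⟩ : Σ _ : ZI, (Σ q : ZI, MulChar (RQ q) ℂ)))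
    ?_ ?_
  · intro j _
    rw [Finset.mem_coe, Finset.mem_filter, mem_TT]
    simp only
    rw [hprod j]
    refine ⟨⟨mul_ne_zero (im1_unit _).ne_zero hc0, ?_, mul_ne_zero (im1_unit j).ne_zero hd2, hX, hY,
      ?_, hΨ1 j⟩, ?_⟩
    · exact hM.of_isCoprime_of_dvd_left (Dvd.intro_left _ (hprod j))
    · exact hM.of_isCoprime_of_dvd_left (Dvd.intro _ (hprod j))
    · refine sig_ext (hprod j) fun z hz => ?_
      rw [hg5b_ind_eq _ _ _ (by rw [hprod j]; exact hz), hΨ2, hd6 z hz]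
  · intro j hj j' hj' heq
    have hj : j < 4 := Finset.mem_range.1 hj
    have hj' : j' < 4 := Finset.mem_range.1 hj'
    have h8 : im1 ^ j * d = im1 ^ j' * d := by
      have := congrArg (fun t : (Σ _ : ZI, (Σ q : ZI, MulChar (RQ q) ℂ)) => t.2.1) heq
      exact this
    exact hg6e_pow_inj hj hj' (mul_right_cancel₀ hd2 h8)

/-- every character is induced by four primitive ones (with their moduli) -/
theorem gen_count (M : ZI) (X Y : ℕ) (h : (Σ q : ZI, MulChar (RQ q) ℂ) → ℝ) :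
    ∑ u ∈ UU M X Y, h u = (1 / 4 : ℝ) * ∑ t ∈ TT M X Y, h (gi t) := by
  classical
  rw [← Finset.sum_fiberwise_of_maps_to (fun t ht => gi_maps ht), Finset.mul_sum]
  refine Finset.sum_congr rfl fun u hu => ?_
  rw [Finset.sum_congr rfl (g := fun _ => h u) (fun t ht => by
      rw [(Finset.mem_filter.1 ht).2])]
  rw [Finset.sum_const, nsmul_eq_mul]
  have h4 : ((TT M X Y).filter (fun t => gi t = u)).card = 4 := le_antisymm (fib_le u) (le_fib hu)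
  rw [h4]
  push_cast
  ring

end Pool.Agent.Y693.R2
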