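import Pool.Agent.H385R6.HG8d

/-!
Mean square of the prime sums over a family with a large sieve inequality.
-/

set_option autoImplicit false

open Complex Filter Topology Set MeasureTheory

set_option maxHeartbeats 4000000

namespace Pool.Agent.Y693.R2

open H385
open Pool.Agent.H304R3.HK (tc HC CS bb LamK psi bH aH LH)

/-- pointwise bound -/
theorem core_pt {ι : Type} (S : Finset ι) (w : ι → ℝ) (d : ι → ZI) (ψ : ι → (ZI →* ℂ))
    (hw0 : ∀ p ∈ S, 0 ≤ w p) (hHC : ∀ p ∈ S, HC (d p) (ψ p))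
    (δ : ℝ) (hδ : 0 < δ) (P : ZI) (hP : P ≠ 0) (N : ℕ) (Δ : ℝ)
    (hΔ : ∑ p ∈ S, w p ≤ Δ)
    (hls : ∀ b : ZI → ℂ, (∀ n, ¬ IsCoprime n P → b n = 0) →
      ∑ p ∈ S, w p * ‖∑ a ∈ BX N, b a * ψ p a‖ ^ 2 ≤ 4 * Δ * ∑ n ∈ BX N, ‖b n‖ ^ 2)
    (T u t : ℝ) (hT : 0 ≤ T) (hu : 0 ≤ u) (hN : Tl N u ≤ 1) :
    ∑ p ∈ S, w p * ‖∑' n : ℕ, aH (ψ p) n * bn T u t n‖ ^ 2 ≤
      Δ * ((1 + δ) * (∑ n ∈ Finset.Icc 1 N, lamK2 n * ‖bn T u t n‖ ^ 2) +
      (1 + 1 / δ) * (wt T t ^ 2 * (4 * (Gq (nrm P) u + 1) ^ 2))) := by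
  classical
  have hw := wt_nonneg T t hT
  have hG := Gq_nonneg (nrm P) u
  have hΔ0 : 0 ≤ Δ := by
    refine le_trans ?_ hΔ
    exact Finset.sum_nonneg fun p hp => hw0 p hp
  set E : ℝ := wt T t ^ 2 * (4 * (Gq (nrm P) u + 1) ^ 2) with hE
  have hE0 : 0 ≤ E := by positivity
  have hpt : ∀ p ∈ S, ‖∑' n : ℕ, aH (ψ p) n * bn T u t n‖ ^ 2 ≤
      (1 + δ) * ((1 / 16) * ‖∑ a ∈ BX N, wZ P (bn T u t) a * ψ p a‖ ^ 2) + (1 + 1 / δ) * E := by
    intro p hp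
    have h1 := HG7.hg7_main P (d p) (ψ p) (hHC p hp) N T u t hT
    set S := (1 / 4 : ℂ) * ∑ a ∈ BX N, wZ P (bn T u t) a * ψ p a with hS
    set R := ∑' n : ℕ, aH (ψ p) n * bn T u t n with hR
    have h2 : R = S + (R - S) := by ring
    have h3 : ‖R - S‖ ≤ wt T t * (2 * (Gq (nrm P) u + 1)) := by
      refine h1.trans ?_
      refine mul_le_mul_of_nonneg_left ?_ hw
      linarith
    have h4 : ‖R - S‖ ^ 2 ≤ E := by
      have := pow_le_pow_left₀ (norm_nonneg _) h3 2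
      refine this.trans (le_of_eq ?_)
      rw [hE]
      ring
    have h7 : ‖S‖ ^ 2 = (1 / 16) * ‖∑ a ∈ BX N, wZ P (bn T u t) a * ψ p a‖ ^ 2 := by
      rw [hS, norm_mul, mul_pow]
      norm_num
    rw [h2]
    refine (FamLS.sq_add_le S (R - S) δ hδ).trans ?_
    have h5 : 0 ≤ 1 + 1 / δ := by positivity
    have h6 := mul_le_mul_of_nonneg_left h4 h5
    rw [h7]
    linarith
  have hms := hls (wZ P (bn T u t)) (fun n hn => HG8d_wZ_cop P _ n hn)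
  have hsq := hg_sq P N (bn T u t)
  calc _ ≤ ∑ p ∈ S, w p * ((1 + δ) *
        ((1 / 16) * ‖∑ a ∈ BX N, wZ P (bn T u t) a * ψ p a‖ ^ 2) + (1 + 1 / δ) * E) :=
        Finset.sum_le_sum fun p hp => mul_le_mul_of_nonneg_left (hpt p hp) (hw0 p hp)
    _ = (1 + δ) * ((1 / 16) * ∑ p ∈ S, w p *
          ‖∑ a ∈ BX N, wZ P (bn T u t) a * ψ p a‖ ^ 2) +
        (1 + 1 / δ) * (E * ∑ p ∈ S, w p) := by
        simp only [Finset.mul_sum, mul_add, Finset.sum_add_distrib]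
        congr 1
        · exact Finset.sum_congr rfl fun p _ => by ring
        · exact Finset.sum_congr rfl fun p _ => by ring
    _ ≤ (1 + δ) * ((1 / 16) * (4 * Δ * (4 * ∑ n ∈ Finset.Icc 1 N, lamK2 n * ‖bn T u t n‖ ^ 2))) +
        (1 + 1 / δ) * (E * Δ) := by
        have h1 : 0 ≤ 1 + δ := by positivity
        have h2 : 0 ≤ 1 + 1 / δ := by positivity
        refine add_le_add (mul_le_mul_of_nonneg_left ?_ h1) (mul_le_mul_of_nonneg_left ?_ h2)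
        · refine mul_le_mul_of_nonneg_left ?_ (by norm_num)
          refine hms.trans ?_
          exact mul_le_mul_of_nonneg_left hsq (by positivity)
        · exact mul_le_mul_of_nonneg_left hΔ hE0
    _ = _ := by ring

/-- mean square -/
theorem core_int : ∃ C : ℝ, 0 < C ∧ ∀ {ι : Type} (S : Finset ι) (w : ι → ℝ) (d : ι → ZI)
    (ψ : ι → (ZI →* ℂ)) (δ : ℝ) (P : ZI) (N : ℕ) (Δ T κ u : ℝ),
    (∀ p ∈ S, 0 ≤ w p) → (∀ p ∈ S, HC (d p) (ψ p)) → 0 < δ →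
    P ≠ 0 → ∑ p ∈ S, w p ≤ Δ →
    (∀ b : ZI → ℂ, (∀ n, ¬ IsCoprime n P → b n = 0) →
      ∑ p ∈ S, w p * ‖∑ a ∈ BX N, b a * ψ p a‖ ^ 2 ≤ 4 * Δ * ∑ n ∈ BX N, ‖b n‖ ^ 2) →
    1 ≤ κ → 1 ≤ T → T ≤ Real.exp (κ ^ 2) → 0 ≤ u → Tl N u ≤ 1 →
    ∫ t : ℝ, ∑ p ∈ S, w p *
      ‖∑' n : ℕ, aH (ψ p) n * ((Real.sqrt n : ℂ)⁻¹ * bt T u t (Real.log n))‖ ^ 2 ≤
      Δ * YH cK δ C (nrm P) T κ u := by
  obtain ⟨C0, hC0, hS, hcK, hlam⟩ := selb_cK
  obtain ⟨C1, hC1, h1⟩ := btc_sum_int cK C0 hS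
  obtain ⟨C2, hC2, h2⟩ := wt_sq_int
  refine ⟨C1 + C2, by positivity, ?_⟩
  intro ι S w d ψ δ P N Δ T κ u hw0 hHC hδ hP hΔ hls hκ hT hTκ hu hN
  have hT0 : 0 ≤ T := by linarith
  have hΔ0 : 0 ≤ Δ := by
    refine le_trans ?_ hΔ
    exact Finset.sum_nonneg fun p hp => hw0 p hp
  obtain ⟨a1, a2⟩ := h1 T κ u N hκ hT hTκ hu
  obtain ⟨b1, b2⟩ := h2 T hT0
  have e : (fun t : ℝ => ∑ n ∈ Finset.Icc 1 N, lamK2 n * ‖bn T u t n‖ ^ 2) =
      fun t => ∑ n ∈ Finset.Icc 1 N, (ArithmeticFunction.vonMangoldt n) ^ 2 *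
        ‖cK n * ((Real.sqrt n : ℂ)⁻¹ * bt T u t (Real.log n))‖ ^ 2 := by
    funext t
    refine Finset.sum_congr rfl (fun n _ => ?_)
    rw [hlam n, norm_mul (cK n), mul_pow]
    unfold bn
    ring
  have a1' : Integrable (fun t : ℝ => ∑ n ∈ Finset.Icc 1 N, lamK2 n * ‖bn T u t n‖ ^ 2) := by
    rw [e]; exact a1
  calc _ ≤ ∫ t : ℝ, Δ * ((1 + δ) * (∑ n ∈ Finset.Icc 1 N, lamK2 n * ‖bn T u t n‖ ^ 2) +
      (1 + 1 / δ) * (wt T t ^ 2 * (4 * (Gq (nrm P) u + 1) ^ 2))) := by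
        refine integral_mono_of_nonneg ?_ ?_ ?_
        · exact Filter.Eventually.of_forall (fun t => Finset.sum_nonneg fun p hp =>
            mul_nonneg (hw0 p hp) (by positivity))
        · exact ((a1'.const_mul _).add ((b1.mul_const _).const_mul _)).const_mul _
        · exact Filter.Eventually.of_forall
            (fun t => core_pt S w d ψ hw0 hHC δ hδ P hP N Δ hΔ hls T u t hT0 hu hN)
    _ = Δ * ((1 + δ) * (∫ t : ℝ, ∑ n ∈ Finset.Icc 1 N, lamK2 n * ‖bn T u t n‖ ^ 2) +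
      (1 + 1 / δ) * ((∫ t : ℝ, wt T t ^ 2) * (4 * (Gq (nrm P) u + 1) ^ 2))) := by
        rw [integral_const_mul,
          integral_add (a1'.const_mul _) ((b1.mul_const _).const_mul _),
          integral_const_mul, integral_const_mul, integral_mul_const]
    _ ≤ Δ * ((1 + δ) * (T / (2 * Real.pi) * SW cK u + C1 * κ * (u + 1)) +
        (1 + 1 / δ) * ((T + C2) * (4 * (Gq (nrm P) u + 1) ^ 2))) := by
        refine mul_le_mul_of_nonneg_left (add_le_add ?_ ?_) hΔ0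
        · refine mul_le_mul_of_nonneg_left ?_ (by positivity)
          rw [e]
          exact a2
        · refine mul_le_mul_of_nonneg_left ?_ (by positivity)
          exact mul_le_mul_of_nonneg_right b2 (by positivity)
    _ ≤ _ := by
        refine mul_le_mul_of_nonneg_left ?_ hΔ0
        unfold YH
        have e1 : C1 * κ * (u + 1) ≤ (C1 + C2) * κ * (u + 1) := by gcongr; linarith
        have e3 : (T + C2) * (4 * (Gq (nrm P) u + 1) ^ 2) ≤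
            (T + (C1 + C2)) * (4 * (Gq (nrm P) u + 1) ^ 2) := by
          gcongr; linarith
        have e4 : 0 ≤ 1 + δ := by positivity
        have e5 : 0 ≤ 1 + 1 / δ := by positivity
        refine add_le_add (mul_le_mul_of_nonneg_left (by linarith) e4)
          (mul_le_mul_of_nonneg_left e3 e5)

end Pool.Agent.Y693.R2
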