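import Pool.Agent.H385R6.HG8c

/-!
Large sieve for the fractions `a/q` with denominators `q` coprime to `M`.
-/

set_option autoImplicit false

open Complex Filter Topology Set MeasureTheory

namespace Pool.Agent.Y693.R2

open H385
open H385.HG5a (gP_congr gP_nonneg KV_nonneg)
open Pool.Agent.H304R3.HK (tc HC CS bb LamK psi bH aH LH Rep)
open Pool.Agent.H304R3.HK.G1a (tc_add tc_mul tc_ne mem_Rep rp rp_congr rp_mem mk_rp mk_eq)

open Classical in
/-- residues modulo `P` coprime to `M` -/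
noncomputable def RepM (M P : ZI) : Finset ZI := (Rep P).filter (fun c => IsCoprime c M)

/-- average of `gP P` over the residues coprime to `M` (zero for the others) -/
noncomputable def GPm (M P : ZI) : ℝ := (1 / (nrm P : ℝ)) * ∑ c ∈ RepM M P, gP P c

theorem fin_boundM (M P : ZI) (hP : P ≠ 0) (hMP : M ∣ P) (K : ℕ) (C : ℝ)
    (hC : ∀ (A B : ℕ) (V : ℝ) (θ : ℂ) (c : ZI) (F : Finset (ZI × ZI)), 1 ≤ A → A ≤ B → 1 ≤ V →
      V ≤ (A : ℝ) ^ 2 →
      (∀ v ∈ F, A < nrm v.1 ∧ nrm v.1 ≤ B ∧ P ∣ v.1 - c ∧ GcdLe K v.1 v.2) →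
      ∑ v ∈ F, (1 / (nrm v.1 : ℝ) ^ 2) * KV V (θ - tc v.2 / tc v.1) ≤
        Real.pi / (nrm P : ℝ) * Real.log ((B : ℝ) / A) + C)
    (A B : ℕ) (V : ℝ) (θ : ℂ) (s : Finset (ZI × ZI)) (T : Finset ZI) (hA : 1 ≤ A) (hAB : A ≤ B)
    (hV : 1 ≤ V) (hV2 : V ≤ (A : ℝ) ^ 2)
    (hs : ∀ v ∈ s, A < nrm v.1 ∧ nrm v.1 ≤ B ∧ v.2 ∈ Rep v.1 ∧ GcdLe K v.1 v.2 ∧ IsCoprime v.1 M) :
    ∑ v ∈ s, (gP P v.1 / (nrm v.1 : ℝ) ^ 2) * ∑ m ∈ T, KV V (θ - tc v.2 / tc v.1 + tc m) ≤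
      Real.pi * GPm M P * Real.log ((B : ℝ) / A) + C * ∑ c ∈ RepM M P, gP P c := by
  classical
  have e1 : ∑ v ∈ s, (gP P v.1 / (nrm v.1 : ℝ) ^ 2) * ∑ m ∈ T, KV V (θ - tc v.2 / tc v.1 + tc m) =
      ∑ x ∈ s ×ˢ T, (gP P x.1.1 / (nrm x.1.1 : ℝ) ^ 2) *
        KV V (θ - tc x.1.2 / tc x.1.1 + tc x.2) := by
    rw [Finset.sum_product]
    refine Finset.sum_congr rfl fun v _ => ?_
    rw [Finset.mul_sum]
  have e2 : ∀ x ∈ s ×ˢ T, rp P x.1.1 ∈ RepM M P := by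
    intro x hx
    unfold RepM
    rw [Finset.mem_filter]
    refine ⟨rp_mem P hP _, ?_⟩
    have h1 := (hs x.1 (Finset.mem_product.1 hx).1).2.2.2.2
    refine he9_cop ?_ h1
    refine hMP.trans ?_
    rw [← mk_eq, mk_rp]
  rw [e1, ← Finset.sum_fiberwise_of_maps_to e2]
  have hg : ∀ c ∈ RepM M P, ∑ x ∈ (s ×ˢ T).filter (fun x => rp P x.1.1 = c),
      (gP P x.1.1 / (nrm x.1.1 : ℝ) ^ 2) * KV V (θ - tc x.1.2 / tc x.1.1 + tc x.2) ≤
      gP P c * (Real.pi / (nrm P : ℝ) * Real.log ((B : ℝ) / A) + C) := by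
    intro c hc
    set φ : (ZI × ZI) × ZI → ZI × ZI := fun x => (x.1.1, x.1.2 - x.2 * x.1.1) with hφ
    set S := (s ×ˢ T).filter (fun x => rp P x.1.1 = c) with hS
    have hmem : ∀ x ∈ S, A < nrm x.1.1 ∧ nrm x.1.1 ≤ B ∧ x.1.2 ∈ Rep x.1.1 ∧
        GcdLe K x.1.1 x.1.2 ∧ P ∣ x.1.1 - c := by
      intro x hx
      rw [hS, Finset.mem_filter, Finset.mem_product] at hx
      obtain ⟨h1, h2, h3, h4, -⟩ := hs x.1 hx.1.1
      refine ⟨h1, h2, h3, h4, ?_⟩
      rw [← hx.2, ← mk_eq, mk_rp]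
    have hq0 : ∀ x ∈ S, x.1.1 ≠ 0 := by
      intro x hx h0
      have h1 := (hmem x hx).1
      rw [h0] at h1
      simp [nrm] at h1
    have hinj : ∀ x ∈ S, ∀ y ∈ S, φ x = φ y → x = y := by
      intro x hx y hy hxy
      simp only [hφ, Prod.mk.injEq] at hxy
      obtain ⟨hq, ha⟩ := hxy
      have h1 := (hmem x hx).2.2.1
      have h2 := (hmem y hy).2.2.1
      have h3 : x.1.2 = y.1.2 := by
        rw [mem_Rep h1, mem_Rep h2, hq]
        apply rp_congr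
        refine ⟨x.2 - y.2, ?_⟩
        rw [hq] at ha
        linear_combination ha
      have h4 : x.2 = y.2 := by
        have h5 : (x.2 - y.2) * y.1.1 = 0 := by
          rw [hq, h3] at ha
          linear_combination -ha
        rcases mul_eq_zero.1 h5 with h6 | h6
        · exact sub_eq_zero.1 h6
        · exact absurd h6 (hq0 y hy)
      exact Prod.ext (Prod.ext hq h3) h4
    have e3 : ∑ x ∈ S, (gP P x.1.1 / (nrm x.1.1 : ℝ) ^ 2) *
        KV V (θ - tc x.1.2 / tc x.1.1 + tc x.2) =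
        gP P c * ∑ v ∈ S.image φ, (1 / (nrm v.1 : ℝ) ^ 2) * KV V (θ - tc v.2 / tc v.1) := by
      rw [Finset.sum_image (fun x hx y hy h => hinj x hx y hy h), Finset.mul_sum]
      refine Finset.sum_congr rfl fun x hx => ?_
      rw [gP_congr (hmem x hx).2.2.2.2]
      have e4 : tc (φ x).2 / tc (φ x).1 = tc x.1.2 / tc x.1.1 - tc x.2 := by
        simp only [hφ]
        have e5 : tc x.1.2 = tc (x.1.2 - x.2 * x.1.1) + tc x.2 * tc x.1.1 := by
          rw [← tc_mul, ← tc_add, sub_add_cancel]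
        rw [e5]
        have := tc_ne (hq0 x hx)
        field_simp
        ring
      rw [e4]
      simp only [hφ]
      rw [show θ - (tc x.1.2 / tc x.1.1 - tc x.2) = θ - tc x.1.2 / tc x.1.1 + tc x.2 by ring]
      ring
    rw [e3]
    refine mul_le_mul_of_nonneg_left ?_ (gP_nonneg P c)
    refine hC A B V θ c (S.image φ) hA hAB hV hV2 ?_
    intro v hv
    rw [Finset.mem_image] at hv
    obtain ⟨x, hx, rfl⟩ := hv
    obtain ⟨h1, h2, h3, h4, h5⟩ := hmem x hx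
    refine ⟨h1, h2, h5, ?_⟩
    intro d hd hd'
    refine h4 d hd ?_
    simp only [hφ] at hd hd'
    have h6 := dvd_add hd' (hd.mul_left x.2)
    rwa [sub_add_cancel] at h6
  refine (Finset.sum_le_sum hg).trans (le_of_eq ?_)
  rw [← Finset.sum_mul]
  unfold GPm
  ring

open Classical in
/-- large sieve for the fractions with denominators coprime to `M` -/
theorem frac_lsM (M P : ZI) (hP : P ≠ 0) (hMP : M ∣ P) (K : ℕ) : ∃ C : ℝ, 0 < C ∧
    ∀ (A B N : ℕ) (F : Finset ZI) (b : ZI → ℂ), 1 ≤ A → A ≤ B → (∀ n ∈ F, nrm n ≤ N) →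
    ∑ q ∈ (BX B).filter (fun q => A < nrm q ∧ IsCoprime q M), (gP P q / (nrm q : ℝ) ^ 2) *
      ∑ a ∈ (Rep q).filter (fun a => GcdLe K q a), ‖SZ F b (tc a / tc q)‖ ^ 2 ≤
    Real.exp (2 * Real.pi * Real.sqrt N / A) * (Real.pi * GPm M P * Real.log ((B : ℝ) / A) + C) *
      ∑ n ∈ F, ‖b n‖ ^ 2 := by
  classical
  obtain ⟨C, hC0, hC⟩ := frac_density P hP K
  have hG : 0 ≤ ∑ c ∈ RepM M P, gP P c := Finset.sum_nonneg fun c _ => gP_nonneg P c
  refine ⟨C * ∑ c ∈ RepM M P, gP P c + 1, by positivity, ?_⟩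
  intro A B N F b hA hAB hF
  have hA' : (1 : ℝ) ≤ A := by exact_mod_cast hA
  have hAB' : (A : ℝ) ≤ B := by exact_mod_cast hAB
  have hlog : 0 ≤ Real.log ((B : ℝ) / A) := Real.log_nonneg (by
    rw [le_div_iff₀ (by linarith)]
    linarith)
  have hGP : 0 ≤ GPm M P := by
    unfold GPm
    positivity
  have hBX : ∀ q ∈ BX B, nrm q ≤ B := fun q hq => (hg5b_mem_BX.1 hq).2
  set s : Finset (ZI × ZI) := ((BX B).filter (fun q => A < nrm q ∧ IsCoprime q M)).biUnion fun q =>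
    ((Rep q).filter (fun a => GcdLe K q a)).image fun a => (q, a) with hs
  have hmem : ∀ v ∈ s, A < nrm v.1 ∧ nrm v.1 ≤ B ∧ v.2 ∈ Rep v.1 ∧ GcdLe K v.1 v.2 ∧
      IsCoprime v.1 M := by
    intro v hv
    rw [hs, Finset.mem_biUnion] at hv
    obtain ⟨q, hq, hv⟩ := hv
    rw [Finset.mem_image] at hv
    obtain ⟨a, ha, rfl⟩ := hv
    rw [Finset.mem_filter] at hq ha
    exact ⟨hq.2.1, hBX q hq.1, ha.1, ha.2, hq.2.2⟩
  have hsum : ∀ f : ZI → ZI → ℝ, ∑ v ∈ s, f v.1 v.2 =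
      ∑ q ∈ (BX B).filter (fun q => A < nrm q ∧ IsCoprime q M),
        ∑ a ∈ (Rep q).filter (fun a => GcdLe K q a), f q a := by
    intro f
    rw [hs, Finset.sum_biUnion]
    · refine Finset.sum_congr rfl fun q _ => ?_
      rw [Finset.sum_image]
      intro a _ a' _ h
      exact (Prod.mk.inj h).2
    · intro q _ q' _ hne
      simp only [Function.onFun]
      rw [Finset.disjoint_left]
      intro v hv hv'
      rw [Finset.mem_image] at hv hv'
      obtain ⟨a, -, rfl⟩ := hv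
      obtain ⟨a', -, h⟩ := hv'
      exact hne (Prod.mk.inj h).1.symm
  have hV : (1 : ℝ) ≤ (A : ℝ) ^ 2 := by nlinarith
  have key := dual_ls2 s (fun v => tc v.2 / tc v.1) (fun v => gP P v.1 / (nrm v.1 : ℝ) ^ 2)
    (fun v _ => div_nonneg (gP_nonneg _ _) (by positivity)) ((A : ℝ) ^ 2)
    (Real.pi * GPm M P * Real.log ((B : ℝ) / A) + (C * ∑ c ∈ RepM M P, gP P c + 1)) (by linarith)
    (by positivity) ?_ N F hF b
  · rw [hsum (fun q a => gP P q / (nrm q : ℝ) ^ 2 * ‖SZ F b (tc a / tc q)‖ ^ 2)] at key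
    have e1 : Real.sqrt (N / (A : ℝ) ^ 2) = Real.sqrt N / A := by
      rw [Real.sqrt_div (by positivity), Real.sqrt_sq (by positivity)]
    rw [e1] at key
    refine le_trans (le_of_eq ?_) (key.trans (le_of_eq ?_))
    · refine Finset.sum_congr rfl fun q _ => ?_
      rw [Finset.mul_sum]
    · rw [mul_div_assoc]
  · intro i hi
    have hsm : ∀ j : ZI × ZI, Summable (fun m : ZI =>
        KV ((A : ℝ) ^ 2) (tc i.2 / tc i.1 - tc j.2 / tc j.1 + tc m)) := fun j =>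
      (kv_poisson ((A : ℝ) ^ 2) (by linarith) (tc i.2 / tc i.1 - tc j.2 / tc j.1)).2.1
    have e1 : ∑ j ∈ s, gP P j.1 / (nrm j.1 : ℝ) ^ 2 *
        ∑' m : ZI, KV ((A : ℝ) ^ 2) (tc i.2 / tc i.1 - tc j.2 / tc j.1 + tc m) =
        ∑' m : ZI, ∑ j ∈ s, gP P j.1 / (nrm j.1 : ℝ) ^ 2 *
          KV ((A : ℝ) ^ 2) (tc i.2 / tc i.1 - tc j.2 / tc j.1 + tc m) := by
      rw [Summable.tsum_finsetSum (fun j _ => (hsm j).mul_left _)]
      refine Finset.sum_congr rfl fun j _ => ?_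
      rw [tsum_mul_left]
    rw [e1]
    refine Real.tsum_le_of_sum_le (fun m => Finset.sum_nonneg fun j _ =>
      mul_nonneg (div_nonneg (gP_nonneg _ _) (by positivity)) (KV_nonneg (by positivity) _)) ?_
    intro T
    rw [Finset.sum_comm]
    have h1 := fin_boundM M P hP hMP K C hC A B ((A : ℝ) ^ 2) (tc i.2 / tc i.1) s T hA hAB hV
      le_rfl hmem
    refine le_trans (le_of_eq ?_) (h1.trans (by linarith))
    refine Finset.sum_congr rfl fun j _ => ?_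
    rw [Finset.mul_sum]

end Pool.Agent.Y693.R2
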