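import Pool.Agent.Y693.R2.Mass

/-!
The sharp large sieve for the primitive characters with modulus coprime to `M`.
-/

set_option autoImplicit false

open Complex Filter Topology Set MeasureTheory

namespace Pool.Agent.Y693.R2

open H385
open H385.HG6b (nrm_pos mem_BX card_Rep)
open Pool.Agent.H304R3.HK (tc HC CS bb LamK psi bH aH LH Rep)

theorem zM_pos (M : ZI) : 0 < zM M := by
  unfold zM
  refine (zt_summ M).tsum_pos (zt_nonneg M) (1 : ZI) ?_
  unfold zt
  rw [if_neg, hg8c_nrm_one]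
  · norm_num
  · rintro (h | h)
    · exact one_ne_zero h
    · exact h isCoprime_one_left

theorem kapM_eq (M : ZI) (K : ℕ) : kapM M K = ∑ k ∈ BX K, zt M k := by
  classical
  unfold kapM
  rw [Finset.mul_sum, Finset.sum_filter]
  refine Finset.sum_congr rfl fun k hk => ?_
  have hk0 := hg5b_BX_ne hk
  unfold zt
  by_cases h : IsCoprime k M
  · rw [if_pos h, if_neg]
    rintro (h' | h')
    · exact hk0 h'
    · exact h' h
  · rw [if_neg h, if_pos (Or.inr h)]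

theorem kapM_tendsto (M : ZI) : Tendsto (fun K : ℕ => kapM M K) atTop (𝓝 (zM M)) := by
  have h1 := (zt_summ M).hasSum
  have hmono : Monotone (fun K : ℕ => insert (0 : ZI) (BX K)) := by
    intro a b hab
    refine Finset.insert_subset_insert _ (fun x hx => ?_)
    rw [hg5b_mem_BX] at hx ⊢
    exact ⟨hx.1, hx.2.trans hab⟩
  have hcof : Tendsto (fun K : ℕ => insert (0 : ZI) (BX K)) atTop atTop := by
    refine tendsto_atTop_finset_of_monotone hmono (fun x => ?_)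
    by_cases hx : x = 0
    · exact ⟨0, by simp [hx]⟩
    · refine ⟨nrm x, Finset.mem_insert_of_mem ?_⟩
      rw [hg5b_mem_BX]
      exact ⟨hg6e_nrm_pos hx, le_rfl⟩
  refine (h1.comp hcof).congr (fun K => ?_)
  simp only [Function.comp_apply]
  rw [kapM_eq, Finset.sum_insert_zero]
  unfold zt
  rw [if_pos (Or.inl rfl)]

theorem smo_existsM (M : ZI) (hM : M ≠ 0) (K : ℕ) : ∃ P : ZI, P ≠ 0 ∧ M ∣ P ∧ Smo P K := by
  obtain ⟨P, hP, hS⟩ := smo_exists K
  refine ⟨M * P, mul_ne_zero hM hP, dvd_mul_right _ _, fun k hk hkK n hn => ?_⟩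
  exact hS k hk hkK n hn.of_mul_right_right

/-- the mass tends to infinity with `Y/X` -/
theorem WM_inf (M : ZI) (hM : M ≠ 0) : ∃ c C : ℝ, 0 < c ∧ 0 < C ∧ ∀ X Y : ℕ, 1 ≤ X → X ≤ Y →
    c * Real.log ((Y : ℝ) / X) - C ≤ WM M X Y := by
  obtain ⟨g, hg, hgP⟩ := GPm_lower M hM
  have hpg : 0 < Real.pi * g := mul_pos Real.pi_pos hg
  obtain ⟨K, hK⟩ := exists_nat_gt (200 / (Real.pi * g))
  have hKp : (0:ℝ) < K := lt_of_le_of_lt (by positivity) hK
  have hK1 : 1 ≤ K := by exact_mod_cast hKp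
  have hKg : 0 < Real.pi * g - 200 / K := by
    rw [div_lt_iff₀ hpg] at hK
    rw [sub_pos, div_lt_iff₀ hKp]
    linarith
  obtain ⟨P, hP, hMP, hS⟩ := smo_existsM M hM K
  obtain ⟨C2, hC2, h2⟩ := phq_avgM M P hP hMP K hK1 hS
  obtain ⟨C3, hC3, h3⟩ := WM_lower M
  have hz : 0 < zM M := zM_pos M
  refine ⟨(Real.pi * g - 200 / K) / zM M, (C2 + C3) / zM M, by positivity, by positivity,
    fun X Y hX hXY => ?_⟩
  have h4 := h2 X Y hX hXY
  have h5 := h3 X Y hX hXY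
  have hL := hg8c_log_nonneg hX hXY
  have h6 : (Real.pi * g - 200 / K) * Real.log ((Y : ℝ) / X) ≤
      (Real.pi * GPm M P - 200 / K) * Real.log ((Y : ℝ) / X) := by
    apply mul_le_mul_of_nonneg_right _ hL
    have := mul_le_mul_of_nonneg_left (hgP P hP hMP) Real.pi_pos.le
    linarith
  have h7 : (Real.pi * g - 200 / K) / zM M * Real.log ((Y : ℝ) / X) - (C2 + C3) / zM M =
      ((Real.pi * g - 200 / K) * Real.log ((Y : ℝ) / X) - (C2 + C3)) / zM M := by ring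
  rw [h7, div_le_iff₀ hz]
  linarith

/-- the sharp large sieve -/
theorem lsM (M : ZI) (hM : M ≠ 0) (ε : ℝ) (hε : 0 < ε) : ∃ P : ZI, P ≠ 0 ∧ M ∣ P ∧
    ∃ C : ℝ, 0 < C ∧ ∀ (X Y N : ℕ)
    (b : ZI → ℂ), 1 ≤ X → X ≤ Y → (∀ n, ¬ IsCoprime n P → b n = 0) →
    ∑ p ∈ FM M X Y, wF p * ‖SC (BX N) b p.1 p.2‖ ^ 2 ≤
      Real.exp (2 * Real.pi * Real.sqrt N / X) * ((1 + ε) * WM M X Y + C) *
        ∑ n ∈ BX N, ‖b n‖ ^ 2 := by
  obtain ⟨g, hg, hgP⟩ := GPm_lower M hM
  have hpg : 0 < Real.pi * g := mul_pos Real.pi_pos hg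
  have hz : 0 < zM M := zM_pos M
  -- choice of `K`
  have hinv : Tendsto (fun K : ℕ => (200 : ℝ) / (K : ℝ)) atTop (𝓝 0) :=
    tendsto_const_div_atTop_nhds_zero_nat 200
  have t1 : Tendsto (fun K : ℕ => (1 + (200 / (K : ℝ)) / (Real.pi * g - 200 / (K : ℝ))) * zM M)
      atTop (𝓝 ((1 + 0 / (Real.pi * g - 0)) * zM M)) := by
    refine Tendsto.mul_const _ (Tendsto.const_add _ (Tendsto.div hinv (hinv.const_sub _) ?_))
    simpa using hpg.ne'
  have t2 : Tendsto (fun K : ℕ => (1 + ε) * kapM M K) atTop (𝓝 ((1 + ε) * zM M)) :=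
    (kapM_tendsto M).const_mul _
  have hlt : (1 + 0 / (Real.pi * g - 0)) * zM M < (1 + ε) * zM M := by
    rw [zero_div, add_zero, one_mul]
    nlinarith
  have ev1 := t1.eventually_lt t2 hlt
  have ev2 : ∀ᶠ K : ℕ in atTop, (200 : ℝ) / (K : ℝ) < Real.pi * g := hinv.eventually_lt_const hpg
  have ev3 : ∀ᶠ K : ℕ in atTop, 0 < kapM M K := (kapM_tendsto M).eventually_const_lt hz
  obtain ⟨K, ⟨⟨hK1, hK2⟩, hK3⟩, hK4⟩ :=
    (((ev1.and ev2).and ev3).and (eventually_ge_atTop 1)).exists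
  obtain ⟨P, hP, hMP, hS⟩ := smo_existsM M hM K
  obtain ⟨C1, hC1, h1⟩ := frac_lsM M P hP hMP K
  obtain ⟨C2, hC2, h2⟩ := phq_avgM M P hP hMP K hK4 hS
  obtain ⟨C3, hC3, h3⟩ := WM_lower M
  have hKp : (0:ℝ) < K := by exact_mod_cast hK4
  have hlogK : 0 ≤ Real.log (K : ℝ) := Real.log_nonneg (by exact_mod_cast hK4)
  have hgg := hgP P hP hMP
  have hGPpos : 0 < GPm M P := lt_of_lt_of_le hg hgg
  set ρ : ℝ := (200 / (K : ℝ)) / (Real.pi * g - 200 / (K : ℝ)) with hρ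
  have hd : 0 < Real.pi * g - 200 / (K : ℝ) := sub_pos.2 hK2
  have hρ0 : 0 ≤ ρ := by rw [hρ]; positivity
  set D : ℝ := ((1 + ρ) * (C3 + C2) + Real.pi * GPm M P * Real.log K + C1) / kapM M K with hD
  have hDpos : 0 < D := by rw [hD]; positivity
  refine ⟨P, hP, hMP, D, by positivity, fun X Y N b hX hXY hb => ?_⟩
  have hL := hg8c_log_nonneg hX hXY
  set L : ℝ := Real.log ((Y : ℝ) / X) with hLdef
  have hXp : (0:ℝ) < X := by exact_mod_cast hX
  have hYp : (0:ℝ) < Y := lt_of_lt_of_le hXp (by exact_mod_cast hXY)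
  have hlogKY : Real.log (((K * Y : ℕ) : ℝ) / X) = Real.log K + L := by
    rw [hLdef, ← Real.log_mul hKp.ne' (by positivity)]
    congr 1
    push_cast
    ring
  have a2 := regroupM M P hP K hS X Y (BX N) b hb
  have a3 := h1 X (K * Y) N (BX N) b hX (hXY.trans (Nat.le_mul_of_pos_left _ hK4))
    (fun n hn => (hg5b_mem_BX.1 hn).2)
  rw [hlogKY] at a3
  have a4 := h2 X Y hX hXY
  rw [← hLdef] at a4
  have a5 := h3 X Y hX hXY
  have hWm := WM_nonneg M X Y
  set E : ℝ := Real.exp (2 * Real.pi * Real.sqrt N / X) with hE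
  have hEp : 0 < E := Real.exp_pos _
  set B2 : ℝ := ∑ n ∈ BX N, ‖b n‖ ^ 2 with hB2
  have hB2n : 0 ≤ B2 := Finset.sum_nonneg (fun n _ => by positivity)
  -- the main estimate for `π GP L`
  have b1 : Real.pi * GPm M P * L ≤ (1 + ρ) * ((Real.pi * GPm M P - 200 / K) * L) := by
    have c1 : Real.pi * g ≤ Real.pi * GPm M P := mul_le_mul_of_nonneg_left hgg Real.pi_pos.le
    have c2 : ρ * (Real.pi * g - 200 / (K : ℝ)) = 200 / K := by
      rw [hρ, div_mul_cancel₀ _ hd.ne']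
    have c3 : 200 / (K : ℝ) ≤ ρ * (Real.pi * GPm M P - 200 / K) := by
      calc 200 / (K : ℝ) = ρ * (Real.pi * g - 200 / (K : ℝ)) := c2.symm
        _ ≤ ρ * (Real.pi * GPm M P - 200 / K) := by
          apply mul_le_mul_of_nonneg_left _ hρ0
          linarith
    nlinarith
  have b2 : Real.pi * GPm M P * L ≤ (1 + ρ) * (zM M * WM M X Y + C3 + C2) := by
    refine b1.trans (mul_le_mul_of_nonneg_left ?_ (by positivity))
    linarith
  have b3 : Real.pi * GPm M P * (Real.log K + L) + C1 ≤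
      kapM M K * ((1 + ε) * WM M X Y + D) := by
    have c1 : kapM M K * D = (1 + ρ) * (C3 + C2) + Real.pi * GPm M P * Real.log K + C1 := by
      rw [hD]; field_simp
    have c2 : (1 + ρ) * zM M * WM M X Y ≤ (1 + ε) * kapM M K * WM M X Y :=
      mul_le_mul_of_nonneg_right hK1.le hWm
    nlinarith
  have b4 : kapM M K * ∑ p ∈ FM M X Y, wF p * ‖SC (BX N) b p.1 p.2‖ ^ 2 ≤
      kapM M K * (E * ((1 + ε) * WM M X Y + D) * B2) := by
    refine (a2.trans a3).trans ?_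
    calc E * (Real.pi * GPm M P * (Real.log K + L) + C1) * B2
        ≤ E * (kapM M K * ((1 + ε) * WM M X Y + D)) * B2 := by
          apply mul_le_mul_of_nonneg_right _ hB2n
          exact mul_le_mul_of_nonneg_left b3 hEp.le
      _ = _ := by ring
  exact le_of_mul_le_mul_left b4 hK3

end Pool.Agent.Y693.R2
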