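import Pool.Agent.Y693.R2.Avg

/-!
The mass of the primitive characters with modulus coprime to `M`.
-/

set_option autoImplicit false

open Complex Filter Topology Set MeasureTheory

namespace Pool.Agent.Y693.R2

open H385
open H385.HG6b (nrm_pos mem_BX card_Rep)
open Pool.Agent.H304R3.HK (tc HC CS bb LamK psi bH aH LH Rep)

/-- the primitive character inducing `χ` -/
theorem prim_gen (q : ZI) (hq : q ≠ 0) (χ : MulChar (RQ q) ℂ) :
    ∃ (d : ZI) (ψ : ZI →* ℂ), d ∣ q ∧ d ≠ 0 ∧ (∀ a b, d ∣ a - b → ψ a = ψ b) ∧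
      (∀ a, ψ a ≠ 0 ↔ IsCoprime a d) ∧
      (∀ e : ZI, e ∣ d → ¬ d ∣ e → ∃ a : ZI, IsCoprime a d ∧ e ∣ a - 1 ∧ ψ a ≠ 1) ∧
      ∀ a : ZI, IsCoprime a q → ψ a = chiZ q χ a := by
  have hqD : He9D q χ q := by
    refine ⟨dvd_rfl, fun a _ h => ?_⟩
    rw [he9_per q χ a 1 h, map_one]
  obtain ⟨d, hd, hmin⟩ : ∃ d : ZI, He9D q χ d ∧ ∀ e : ZI, He9D q χ e →
      d.norm.natAbs ≤ e.norm.natAbs := by
    classical
    have hex : ∃ n : ℕ, ∃ d : ZI, He9D q χ d ∧ d.norm.natAbs = n := ⟨_, q, hqD, rfl⟩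
    obtain ⟨d, hd, hn⟩ := Nat.find_spec hex
    exact ⟨d, hd, fun e he => by rw [hn]; exact Nat.find_min' hex ⟨e, he, rfl⟩⟩
  have hd0 : d ≠ 0 := fun h => hq (by
    have := hd.1
    rw [h] at this
    exact zero_dvd_iff.1 this)
  have hfin : ∀ a : ZI, IsCoprime a q → he9_psi q hq χ d hd a = chiZ q χ a := by
    intro a ha
    exact he9_psi_eq ha (by rw [sub_self]; exact dvd_zero _)
  refine ⟨d, he9_psi q hq χ d hd, hd.1, hd0, ?_, ?_, ?_, hfin⟩
  · intro a b hab
    by_cases hb : IsCoprime b d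
    · obtain ⟨b1, b2⟩ := (he9_lift q d b hq hb).choose_spec
      rw [he9_psi_eq b2 (a := b) ((dvd_sub_comm).1 b1), he9_psi_eq b2 (a := a)]
      have h1 := dvd_sub hab b1
      have h2 : a - b - ((he9_lift q d b hq hb).choose - b) =
        a - (he9_lift q d b hq hb).choose := by ring
      rwa [h2] at h1
    · have ha : ¬ IsCoprime a d := fun h => hb (he9_cop ((dvd_sub_comm).1 hab) h)
      rw [he9_psi_zero ha, he9_psi_zero hb]
  · intro a
    constructor
    · intro h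
      by_contra hc
      exact h (he9_psi_zero hc)
    · intro ha
      obtain ⟨b, b1, b2⟩ := he9_lift q d a hq ha
      rw [he9_psi_eq b2 ((dvd_sub_comm).1 b1)]
      exact he9_ne q χ b b2
  · intro e hed hde
    by_contra hcon
    push Not at hcon
    have heD : He9D q χ e := by
      refine ⟨hed.trans hd.1, fun a ha h => ?_⟩
      rw [← hfin a ha]
      exact hcon a (ha.of_isCoprime_of_dvd_right hd.1) h
    have h1 := hmin e heD
    obtain ⟨c, hc⟩ := hed
    have hc0 : c ≠ 0 := fun h => hd0 (by rw [hc, h, mul_zero])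
    have he0 : e ≠ 0 := fun h => hd0 (by rw [hc, h, zero_mul])
    have h2 : d.norm.natAbs = e.norm.natAbs * c.norm.natAbs := by
      rw [hc, Zsqrtd.norm_mul, Int.natAbs_mul]
    have h3 : c.norm.natAbs ≠ 0 := by
      have := GaussianInt.norm_pos.2 hc0
      omega
    have h4 : e.norm.natAbs ≠ 0 := by
      have := GaussianInt.norm_pos.2 he0
      omega
    have h5 : c.norm.natAbs ≠ 1 := by
      intro h
      have hu := Zsqrtd.norm_eq_one_iff.1 h
      obtain ⟨u, hu⟩ := hu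
      refine hde ?_
      rw [hc, ← hu]
      exact ⟨((u⁻¹ : ZIˣ) : ZI), by rw [mul_assoc, Units.mul_inv, mul_one]⟩
    have h6 : 2 ≤ c.norm.natAbs := by omega
    have h7 : e.norm.natAbs * 2 ≤ e.norm.natAbs * c.norm.natAbs := Nat.mul_le_mul_left _ h6
    omega

/-- number of primitive characters modulo `q` -/
noncomputable def mp (q : ZI) : ℕ := (hg5b_fs q (PrimC q)).card

theorem card_mulChar {q : ZI} (hq : q ≠ 0) : Nat.card (MulChar (RQ q) ℂ) = phiQ q := by
  have h0 := he1_finite hq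
  have hft : Fintype (MulChar (RQ q) ℂ) := @Fintype.ofFinite _ (fq_finite q hq).1
  have hne : NeZero ((Monoid.exponent (RQ q)ˣ : ℕ) : ℂ) := ⟨by
    have : Monoid.exponent (RQ q)ˣ ≠ 0 := Monoid.exponent_ne_zero_of_finite
    exact_mod_cast this⟩
  exact MulChar.card_eq_card_units_of_hasEnoughRootsOfUnity (RQ q) ℂ

theorem mp_le_phi {q : ZI} (hq : q ≠ 0) : mp q ≤ phiQ q := by
  classical
  have h1 := (fq_finite q hq).1
  have hft : Fintype (MulChar (RQ q) ℂ) := Fintype.ofFinite _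
  rw [← card_mulChar hq, Nat.card_eq_fintype_card, ← Finset.card_univ]
  exact Finset.card_le_card (Finset.subset_univ _)

theorem mp_le {q : ZI} (hq : q ≠ 0) : (mp q : ℝ) ≤ nrm q := by
  have h1 : (mp q : ℝ) ≤ phiQ q := by exact_mod_cast mp_le_phi hq
  have h3 := (phq_gP 1 q one_ne_zero hq).2.2.2.2
  unfold phq at h3
  have h4 : (0 : ℝ) < nrm q := by exact_mod_cast nrm_pos hq
  rw [div_le_one h4] at h3
  linarith

theorem im1_unit (j : ℕ) : IsUnit (im1 ^ j) := by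
  apply IsUnit.pow
  exact IsUnit.of_mul_eq_one ⟨0, -1⟩ (by decide)

open Classical in
theorem keyM (q : ZI) (hq : q ≠ 0) :
    phiQ q * 4 ≤ ∑ q' ∈ (BX (nrm q)).filter (fun q' => q' ∣ q), mp q' := by
  have hfin := (fq_finite q hq).1
  have hft : Fintype (MulChar (RQ q) ℂ) := Fintype.ofFinite _
  choose d ψ hd1 hd2 hd3 hd4 hd5 hd6 using prim_gen q hq
  have h2 : ∀ (χ : MulChar (RQ q) ℂ) (j : ℕ), ∃ Ψ : MulChar (RQ (im1 ^ j * d χ)) ℂ,
      (PrimC (im1 ^ j * d χ) Ψ ∧ ∀ a, chiZ (im1 ^ j * d χ) Ψ a = ψ χ a) := by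
    intro χ j
    have hu := im1_unit j
    obtain ⟨Ψ, hΨ⟩ := hg6e_lift (im1 ^ j * d χ) (ψ χ)
      (fun a b hab => hd3 χ a b (dvd_of_mul_left_dvd hab))
      (fun a ha => by
        by_contra hc
        exact ha ((isCoprime_mul_unit_left_right hu a (d χ)).2 ((hd4 χ a).1 hc)))
    refine ⟨Ψ, ?_, hΨ⟩
    intro e he hne
    obtain ⟨a, h1, h2, h3⟩ := hd5 χ e (hu.dvd_mul_left.1 he) (fun h' => hne (hu.mul_left_dvd.2 h'))
    refine ⟨a, (isCoprime_mul_unit_left_right hu a (d χ)).2 h1, h2, ?_⟩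
    rw [hΨ]
    exact h3
  choose Ψ hΨ1 hΨ2 using h2
  have h3 : phiQ q * 4 = ((Finset.univ : Finset (MulChar (RQ q) ℂ)) ×ˢ Finset.range 4).card := by
    rw [Finset.card_product, Finset.card_range, Finset.card_univ, ← Nat.card_eq_fintype_card,
      card_mulChar hq]
  have h4 : ∑ q' ∈ (BX (nrm q)).filter (fun q' => q' ∣ q), mp q' =
      (((BX (nrm q)).filter (fun q' => q' ∣ q)).sigma (fun q' => hg5b_fs q' (PrimC q'))).card := by
    rw [Finset.card_sigma]
    rfl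
  rw [h3, h4]
  refine Finset.card_le_card_of_injOn
    (fun p => (⟨im1 ^ p.2 * d p.1, Ψ p.1 p.2⟩ : Σ q' : ZI, MulChar (RQ q') ℂ)) ?_ ?_
  · rintro ⟨χ, j⟩ hp
    have h0 : im1 ^ j * d χ ≠ 0 := mul_ne_zero (im1_unit j).ne_zero (hd2 χ)
    have hdv : im1 ^ j * d χ ∣ q := (im1_unit j).mul_left_dvd.2 (hd1 χ)
    simp only [Finset.coe_sigma, Set.mem_sigma_iff, Finset.mem_coe, Finset.mem_filter]
    exact ⟨⟨(hg6e_mem_BX _ _).2 ⟨h0, he3_nrm hdv hq⟩, hdv⟩, (hg5b_mem h0 _ _).2 (hΨ1 χ j)⟩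
  · rintro ⟨χ, j⟩ hp ⟨χ', j'⟩ hp' heq
    have hj : j < 4 := Finset.mem_range.1 (Finset.mem_product.1 hp).2
    have hj' : j' < 4 := Finset.mem_range.1 (Finset.mem_product.1 hp').2
    have h5 : ∀ a : ZI, ψ χ a = ψ χ' a := by
      intro a
      have h6 := congrArg (fun s : (Σ q' : ZI, MulChar (RQ q') ℂ) => chiZ s.1 s.2 a) heq
      simp only at h6
      rw [hΨ2 χ j a, hΨ2 χ' j' a] at h6
      exact h6
    have h7 : χ = χ' := by
      refine hg6e_ext fun a ha => ?_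
      rw [← hd6 χ a ha, ← hd6 χ' a ha]
      exact h5 a
    subst h7
    have h8 : im1 ^ j * d χ = im1 ^ j' * d χ := congrArg Sigma.fst heq
    have h9 := mul_right_cancel₀ (hd2 χ) h8
    rw [hg6e_pow_inj hj hj' h9]

/-- the mass -/
noncomputable def WM (M : ZI) (X Y : ℕ) : ℝ := ∑ p ∈ FM M X Y, wF p

theorem WM_nonneg (M : ZI) (X Y : ℕ) : 0 ≤ WM M X Y := by
  unfold WM wF
  positivity

open Classical in
theorem WM_eq (M : ZI) (X Y : ℕ) : WM M X Y =
    ∑ q ∈ (BX Y).filter (fun q => X < nrm q ∧ IsCoprime q M), (1 / (nrm q : ℝ) ^ 2) * (mp q : ℝ) := by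
  unfold WM FM
  rw [Finset.sum_sigma]
  refine Finset.sum_congr rfl fun q _ => ?_
  unfold wF mp
  simp only [Finset.sum_const, nsmul_eq_mul]
  ring

open Classical in
theorem innerM (M : ZI) {C1 : ℝ} (hC : ∀ (x1 x2 : ℝ) (j0 : ZI) (F : Finset ZI),
    0 < x1 → x1 ≤ x2 → (∀ j ∈ F, j ≠ 0 ∧ (1 : ZI) ∣ j - j0 ∧ x1 < (nrm j : ℝ) ∧ (nrm j : ℝ) ≤ x2) →
    ∑ j ∈ F, 1 / (nrm j : ℝ) ≤ Real.pi / (nrm (1 : ZI) : ℝ) * Real.log (x2 / x1) + C1)
    (X Y : ℕ) (hX : 1 ≤ X) (k : ZI) (hk : k ≠ 0) :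
    ∑ q ∈ (BX Y).filter (fun q => X < nrm k * nrm q ∧ IsCoprime q M),
      (mp q : ℝ) / (nrm q : ℝ) ^ 2 ≤ WM M X Y + (Real.pi * Real.log (nrm k) + C1) := by
  have hkn : (1 : ℝ) ≤ nrm k := by exact_mod_cast hg6e_nrm_pos hk
  have hX' : (1 : ℝ) ≤ X := by exact_mod_cast hX
  rw [← Finset.sum_filter_add_sum_filter_not _ (fun q => X < nrm q)]
  apply add_le_add
  · rw [WM_eq]
    have h1 : ∀ q : ZI, (mp q : ℝ) / (nrm q : ℝ) ^ 2 = 1 / (nrm q : ℝ) ^ 2 * (mp q : ℝ) := by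
      intro q; ring
    simp only [h1]
    apply Finset.sum_le_sum_of_subset_of_nonneg
    · intro q hq
      rw [Finset.mem_filter, Finset.mem_filter] at hq
      rw [Finset.mem_filter]
      exact ⟨hq.1.1, hq.2, hq.1.2.2⟩
    · intro q _ _
      positivity
  · have h2 := hC ((X : ℝ) / nrm k) X 0
      (((BX Y).filter (fun q => X < nrm k * nrm q ∧ IsCoprime q M)).filter (fun q => ¬ X < nrm q))
      (by positivity) (div_le_self (by positivity) hkn) ?_
    · have h3 : (nrm (1 : ZI) : ℝ) = 1 := by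
        have : nrm (1 : ZI) = 1 := by decide
        exact_mod_cast this
      have h4 : (X : ℝ) / ((X : ℝ) / nrm k) = nrm k := by
        field_simp
      rw [h3, h4, div_one] at h2
      refine le_trans (Finset.sum_le_sum fun q hq => ?_) h2
      rw [Finset.mem_filter, Finset.mem_filter, hg6e_mem_BX] at hq
      have h5 := mp_le hq.1.1.1
      have h6 : (0 : ℝ) < nrm q := by exact_mod_cast hg6e_nrm_pos hq.1.1.1
      rw [div_le_div_iff₀ (by positivity) h6]
      nlinarith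
    · intro j hj
      rw [Finset.mem_filter, Finset.mem_filter, hg6e_mem_BX] at hj
      refine ⟨hj.1.1.1, one_dvd _, ?_, ?_⟩
      · rw [div_lt_iff₀ (by linarith)]
        have := hj.1.2.1
        rw [mul_comm] at this
        exact_mod_cast this
      · exact_mod_cast Nat.le_of_not_lt hj.2

open Classical in
theorem regroup_massM (M : ZI) (X Y : ℕ) :
    ∑ q ∈ (BX Y).filter (fun q => X < nrm q ∧ IsCoprime q M), (1 / (nrm q : ℝ) ^ 2) *
      ∑ q' ∈ (BX (nrm q)).filter (fun q' => q' ∣ q), (mp q' : ℝ) ≤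
    ∑ k ∈ (BX Y).filter (fun k => IsCoprime k M), (1 / (nrm k : ℝ) ^ 2) *
      ∑ q' ∈ (BX Y).filter (fun q' => X < nrm k * nrm q' ∧ IsCoprime q' M),
        (mp q' : ℝ) / (nrm q' : ℝ) ^ 2 := by
  simp only [Finset.mul_sum]
  rw [Finset.sum_comm' (s' := fun q' => ((BX Y).filter
      (fun q => X < nrm q ∧ IsCoprime q M)).filter (fun q => q' ∣ q))
    (t' := (BX Y).filter (fun q' => IsCoprime q' M))]
  · rw [Finset.sum_comm' (s := (BX Y).filter (fun k => IsCoprime k M))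
      (t := fun k => (BX Y).filter (fun q' => X < nrm k * nrm q' ∧ IsCoprime q' M))
      (s' := fun q' => (BX Y).filter (fun k => X < nrm k * nrm q' ∧ IsCoprime k M))
      (t' := (BX Y).filter (fun q' => IsCoprime q' M))]
    · refine Finset.sum_le_sum fun q' hq' => ?_
      rw [Finset.mem_filter] at hq'
      have hq0 : q' ≠ 0 := ((hg6e_mem_BX _ _).1 hq'.1).1
      have h1 : ((BX Y).filter (fun q => X < nrm q ∧ IsCoprime q M)).filter (fun q => q' ∣ q) ⊆
          ((BX Y).filter (fun k => X < nrm k * nrm q' ∧ IsCoprime k M)).image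
            (fun k => k * q') := by
        intro q hq
        rw [Finset.mem_filter, Finset.mem_filter, hg6e_mem_BX] at hq
        obtain ⟨⟨⟨h2, h3⟩, h4, h4'⟩, c, h5⟩ := hq
        rw [Finset.mem_image]
        refine ⟨c, ?_, by rw [h5, mul_comm]⟩
        have hc0 : c ≠ 0 := fun h => h2 (by rw [h5, h, mul_zero])
        rw [Finset.mem_filter, hg6e_mem_BX]
        have h6 : nrm q = nrm c * nrm q' := by rw [h5, hg6e_nrm_mul, mul_comm]
        have h4'' : IsCoprime c M := by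
          rw [h5] at h4'
          exact h4'.of_mul_left_right
        refine ⟨⟨hc0, ?_⟩, by omega, h4''⟩
        have h7 := hg6e_nrm_pos hq0
        have h8 : nrm c * 1 ≤ nrm c * nrm q' := Nat.mul_le_mul_left _ h7
        omega
      refine le_trans (Finset.sum_le_sum_of_subset_of_nonneg h1 (fun q _ _ => by positivity)) ?_
      rw [Finset.sum_image (fun a _ b _ h => mul_right_cancel₀ hq0 h)]
      refine le_of_eq (Finset.sum_congr rfl fun k hk => ?_)
      rw [hg6e_nrm_mul]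
      push_cast
      rw [mul_pow]
      field_simp
    · intro k q'
      simp only [Finset.mem_filter]
      tauto
  · intro q q'
    simp only [Finset.mem_filter, hg6e_mem_BX]
    constructor
    · rintro ⟨⟨⟨h1, h2⟩, h3, h3'⟩, ⟨h4, h5⟩, h6⟩
      exact ⟨⟨⟨⟨h1, h2⟩, h3, h3'⟩, h6⟩, ⟨h4, by omega⟩, h3'.of_isCoprime_of_dvd_left h6⟩
    · rintro ⟨⟨⟨⟨h1, h2⟩, h3, h3'⟩, h6⟩, ⟨h4, h5⟩, h7⟩
      exact ⟨⟨⟨h1, h2⟩, h3, h3'⟩, ⟨h4, he3_nrm h6 h1⟩, h6⟩

open Classical in
/-- the terms of the constant -/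
noncomputable def zt (M k : ZI) : ℝ :=
  if k = 0 ∨ ¬ IsCoprime k M then 0 else (1 / 4 : ℝ) * (1 / (nrm k : ℝ) ^ 2)

/-- the constant -/
noncomputable def zM (M : ZI) : ℝ := ∑' k : ZI, zt M k

theorem zt_nonneg (M k : ZI) : 0 ≤ zt M k := by
  unfold zt
  split_ifs <;> positivity

theorem zt_summ (M : ZI) : Summable (zt M) := by
  refine Summable.of_nonneg_of_le (zt_nonneg M) (fun k => ?_) hg8c_summ
  unfold zt
  by_cases hk : k = 0
  · rw [if_pos (Or.inl hk), if_pos hk]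
  · rw [if_neg hk]
    split_ifs
    · positivity
    · exact le_rfl

/-- mass of the family -/
theorem WM_lower (M : ZI) : ∃ C : ℝ, 0 < C ∧ ∀ X Y : ℕ, 1 ≤ X → X ≤ Y →
    (open Classical in ∑ q ∈ (BX Y).filter (fun q => X < nrm q ∧ IsCoprime q M),
      phq q / (nrm q : ℝ)) ≤ zM M * WM M X Y + C := by
  classical
  obtain ⟨C1, hC1, hC⟩ := class_sum 1 one_ne_zero
  have hS := hg6e_summ
  obtain ⟨g, hg⟩ : ∃ g : ZI → ℝ, g = fun k : ZI =>
    if k = 0 then (0 : ℝ) else 1 / ((nrm k : ℝ) * Real.sqrt (nrm k)) := ⟨_, rfl⟩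
  rw [← hg] at hS
  have hg0 : ∀ k, 0 ≤ g k := by
    intro k
    rw [hg]
    simp only
    split_ifs
    · exact le_rfl
    · positivity
  have hG : 0 ≤ ∑' k, g k := tsum_nonneg hg0
  refine ⟨(2 * Real.pi + C1) * ∑' k, g k + 1, ?_, fun X Y hX hXY => ?_⟩
  · have := Real.pi_pos
    positivity
  -- termwise bound
  have hterm : ∀ q ∈ (BX Y).filter (fun q => X < nrm q ∧ IsCoprime q M), phq q / (nrm q : ℝ) ≤
      (1 / 4 : ℝ) * ((1 / (nrm q : ℝ) ^ 2) *
        ∑ q' ∈ (BX (nrm q)).filter (fun q' => q' ∣ q), (mp q' : ℝ)) := by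
    intro q hq
    rw [Finset.mem_filter, hg6e_mem_BX] at hq
    have hq0 := hq.1.1
    have hn : (1 : ℝ) ≤ nrm q := by exact_mod_cast hg6e_nrm_pos hq0
    have h6 := keyM q hq0
    have h7 : (phiQ q : ℝ) * 4 ≤ ∑ q' ∈ (BX (nrm q)).filter (fun q' => q' ∣ q), (mp q' : ℝ) := by
      exact_mod_cast h6
    have h9 : phq q / (nrm q : ℝ) = (1 / (nrm q : ℝ) ^ 2) * phiQ q := by
      unfold phq
      field_simp
    rw [h9]
    have h10 : 0 ≤ 1 / (nrm q : ℝ) ^ 2 := by positivity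
    nlinarith [mul_le_mul_of_nonneg_left h7 h10]
  have hW0 : 0 ≤ WM M X Y := WM_nonneg M X Y
  refine le_trans (Finset.sum_le_sum hterm) ?_
  rw [← Finset.mul_sum]
  have hB := regroup_massM M X Y
  have hD : ∑ k ∈ (BX Y).filter (fun k => IsCoprime k M), (1 / (nrm k : ℝ) ^ 2) *
      ∑ q' ∈ (BX Y).filter (fun q' => X < nrm k * nrm q' ∧ IsCoprime q' M),
        (mp q' : ℝ) / (nrm q' : ℝ) ^ 2 ≤
      ∑ k ∈ (BX Y).filter (fun k => IsCoprime k M),
        ((1 / (nrm k : ℝ) ^ 2) * WM M X Y + (2 * Real.pi + C1) * g k) := by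
    refine Finset.sum_le_sum fun k hk => ?_
    have hk0 := ((hg6e_mem_BX _ _).1 (Finset.mem_filter.1 hk).1).1
    have h1 := innerM M hC X Y hX k hk0
    have hn : (1 : ℝ) ≤ nrm k := by exact_mod_cast hg6e_nrm_pos hk0
    have h10 : 0 ≤ 1 / (nrm k : ℝ) ^ 2 := by positivity
    refine le_trans (mul_le_mul_of_nonneg_left h1 h10) ?_
    rw [mul_add]
    have hs : 0 < Real.sqrt (nrm k) := Real.sqrt_pos.2 (by linarith)
    have hs1 : 1 ≤ Real.sqrt (nrm k) := Real.one_le_sqrt.2 hn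
    have hss : Real.sqrt (nrm k) * Real.sqrt (nrm k) = nrm k := Real.mul_self_sqrt (by linarith)
    have h2 : Real.log (nrm k) ≤ 2 * Real.sqrt (nrm k) := by
      have h3 : Real.log (Real.sqrt (nrm k)) ≤ Real.sqrt (nrm k) := by
        have := Real.log_le_sub_one_of_pos hs
        linarith
      rw [Real.log_sqrt (by linarith)] at h3
      linarith
    have h4 : Real.pi * Real.log (nrm k) + C1 ≤ (2 * Real.pi + C1) * Real.sqrt (nrm k) := by
      have hpi := Real.pi_pos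
      nlinarith [mul_le_mul_of_nonneg_left h2 hpi.le, mul_le_mul_of_nonneg_left hs1 hC1.le]
    have h5 : 1 / (nrm k : ℝ) ^ 2 * ((2 * Real.pi + C1) * Real.sqrt (nrm k)) =
        (2 * Real.pi + C1) * g k := by
      rw [hg]
      simp only [if_neg hk0]
      have hnk : (nrm k : ℝ) ≠ 0 := by linarith
      have hsk : Real.sqrt (nrm k) ≠ 0 := hs.ne'
      rw [div_mul_eq_mul_div, one_mul, mul_one_div, div_eq_div_iff (by positivity) (by positivity)]
      rw [show (2 * Real.pi + C1) * Real.sqrt (nrm k) * ((nrm k : ℝ) * Real.sqrt (nrm k)) =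
        (2 * Real.pi + C1) * (nrm k : ℝ) * (Real.sqrt (nrm k) * Real.sqrt (nrm k)) by ring, hss]
      ring
    have h6 := mul_le_mul_of_nonneg_left h4 h10
    rw [h5] at h6
    linarith
  have hE : ∑ k ∈ (BX Y).filter (fun k => IsCoprime k M),
      ((1 / (nrm k : ℝ) ^ 2) * WM M X Y + (2 * Real.pi + C1) * g k) ≤
      4 * zM M * WM M X Y + (2 * Real.pi + C1) * ∑' k, g k := by
    rw [Finset.sum_add_distrib, ← Finset.sum_mul, ← Finset.mul_sum]
    apply add_le_add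
    · apply mul_le_mul_of_nonneg_right _ hW0
      have h1 : ∑ k ∈ (BX Y).filter (fun k => IsCoprime k M), zt M k ≤ zM M := by
        apply (zt_summ M).sum_le_tsum
        intro k _
        exact zt_nonneg M k
      have h2 : ∑ k ∈ (BX Y).filter (fun k => IsCoprime k M), 1 / (nrm k : ℝ) ^ 2 =
          4 * ∑ k ∈ (BX Y).filter (fun k => IsCoprime k M), zt M k := by
        rw [Finset.mul_sum]
        refine Finset.sum_congr rfl fun k hk => ?_
        rw [Finset.mem_filter] at hk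
        unfold zt
        rw [if_neg]
        · ring
        · rintro (h | h)
          · exact ((hg6e_mem_BX _ _).1 hk.1).1 h
          · exact h hk.2
      rw [h2]
      linarith
    · have hpi := Real.pi_pos
      apply mul_le_mul_of_nonneg_left _ (by positivity)
      exact hS.sum_le_tsum _ (fun k _ => hg0 k)
  have hpi := Real.pi_pos
  have hfin : 0 ≤ (2 * Real.pi + C1) * ∑' k, g k := by positivity
  linarith [hB, hD, hE]

end Pool.Agent.Y693.R2
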