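import Pool.Agent.Y693.R2.LS
import Pool.Agent.Y693.R2.Core1

/-!
Primitive Hecke characters: uniqueness; the primitive character inducing a product.
-/

set_option autoImplicit false

open Complex Filter Topology Set MeasureTheory
open H370 (zset mult NN Nd Ns)

namespace Pool.Agent.Y693.R2

open H385
open H385.HG6b (nrm_pos)
open Pool.Agent.H304R3.HK (tc HC LH)

theorem hc_dvd {d d' q : ZI} {ψ ψ' : ZI →* ℂ} (hq : q ≠ 0) (h : HC d ψ) (h' : HC d' ψ')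
    (he : ∀ a, IsCoprime a q → ψ a = ψ' a) : d ∣ d' := by
  by_contra hcon
  have hg : ¬ d ∣ EuclideanDomain.gcd d d' := fun h1 =>
    hcon (h1.trans (EuclideanDomain.gcd_dvd_right d d'))
  obtain ⟨v, hv1, hv2, hv3⟩ := h.prim _ (EuclideanDomain.gcd_dvd_left d d') hg
  obtain ⟨u, hu1, hu2, hu3⟩ := hg5b_crt hq hv1 hv2
  apply hv3
  rw [← h.per u v hu1, he u hu3, h'.per u 1 hu2, map_one]

theorem hc_unique {d d' q : ZI} {ψ ψ' : ZI →* ℂ} (hq : q ≠ 0) (h : HC d ψ) (h' : HC d' ψ')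
    (he : ∀ a, IsCoprime a q → ψ a = ψ' a) : ψ = ψ' := by
  have h1 := hc_dvd hq h h' he
  have h2 := hc_dvd hq h' h (fun a ha => (he a ha).symm)
  refine MonoidHom.ext fun a => ?_
  by_cases ha : IsCoprime a d
  · obtain ⟨b, hb1, hb2⟩ := he9_lift q d a hq ha
    rw [← h.per b a hb1, he b hb2, h'.per b a (h2.trans hb1)]
  · have e1 : ψ a = 0 := by
      by_contra hc
      exact ha ((h.supp a).1 hc)
    have e2 : ψ' a = 0 := by
      by_contra hc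
      exact ha (((h'.supp a).1 hc).of_isCoprime_of_dvd_right h1)
    rw [e1, e2]

/-- `ψ` is the primitive character of conductor `d` inducing `g` -/
def IsPr (g : ZI →* ℂ) (d : ZI) (ψ : ZI →* ℂ) : Prop :=
  HC d ψ ∧ ∃ q : ZI, q ≠ 0 ∧ ∀ a, IsCoprime a q → ψ a = g a

open Classical in
noncomputable def PmD (g : ZI →* ℂ) : ZI :=
  if h : ∃ d, ∃ ψ, IsPr g d ψ then h.choose else 0

open Classical in
noncomputable def Pm (g : ZI →* ℂ) : ZI →* ℂ :=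
  if h : ∃ d, ∃ ψ, IsPr g d ψ then h.choose_spec.choose else 1

theorem pm_is {g : ZI →* ℂ} {d : ZI} {ψ : ZI →* ℂ} (h : IsPr g d ψ) : IsPr g (PmD g) (Pm g) := by
  have hex : ∃ d, ∃ ψ, IsPr g d ψ := ⟨d, ψ, h⟩
  unfold PmD Pm
  rw [dif_pos hex, dif_pos hex]
  exact hex.choose_spec.choose_spec

theorem isPr_agree {g : ZI →* ℂ} {d d' : ZI} {ψ ψ' : ZI →* ℂ} (h : IsPr g d ψ)
    (h' : IsPr g d' ψ') : ψ = ψ' ∧ d ∣ d' := by
  obtain ⟨h1, q, hq, h2⟩ := h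
  obtain ⟨h1', q', hq', h2'⟩ := h'
  have he : ∀ a, IsCoprime a (q * q') → ψ a = ψ' a := fun a ha => by
    rw [h2 a ha.of_mul_right_left, h2' a ha.of_mul_right_right]
  exact ⟨hc_unique (mul_ne_zero hq hq') h1 h1' he, hc_dvd (mul_ne_zero hq hq') h1 h1' he⟩

theorem pm_eq {g : ZI →* ℂ} {d : ZI} {ψ : ZI →* ℂ} (h : IsPr g d ψ) :
    Pm g = ψ ∧ PmD g ∣ d ∧ d ∣ PmD g ∧ HC (PmD g) (Pm g) := by
  have h0 := pm_is h
  exact ⟨(isPr_agree h0 h).1, (isPr_agree h0 h).2, (isPr_agree h h0).2, h0.1⟩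

theorem pm_congr {g g' : ZI →* ℂ} {d q : ZI} {ψ : ZI →* ℂ} (h : IsPr g d ψ) (hq : q ≠ 0)
    (he : ∀ a, IsCoprime a q → g a = g' a) : Pm g' = Pm g := by
  have h' : IsPr g' d ψ := by
    obtain ⟨h1, q', hq', h2⟩ := h
    refine ⟨h1, q' * q, mul_ne_zero hq' hq, fun a ha => ?_⟩
    rw [h2 a ha.of_mul_right_left, he a ha.of_mul_right_right]
  rw [(pm_eq h).1, (pm_eq h').1]

/-- the product character -/
noncomputable def pg (m : ZI) (χm : MulChar (RQ m) ℂ) (r : ZI) (χr : MulChar (RQ r) ℂ) :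
    ZI →* ℂ := chiZ m χm * chiZ r χr

theorem pg_apply (m : ZI) (χm : MulChar (RQ m) ℂ) (r : ZI) (χr : MulChar (RQ r) ℂ) (a : ZI) :
    pg m χm r χr a = chiZ m χm a * chiZ r χr a := rfl

theorem pg_lift (m : ZI) (χm : MulChar (RQ m) ℂ) (r : ZI) (χr : MulChar (RQ r) ℂ) :
    ∃ Ψ : MulChar (RQ (m * r)) ℂ, ∀ a, chiZ (m * r) Ψ a = pg m χm r χr a := by
  refine hg6e_lift (m * r) (pg m χm r χr) ?_ ?_
  · intro a b hab
    rw [pg_apply, pg_apply, he9_per m χm a b (dvd_of_mul_right_dvd hab),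
      he9_per r χr a b (dvd_of_mul_left_dvd hab)]
  · intro a ha
    rw [pg_apply]
    by_cases h1 : IsCoprime a m
    · have h2 : ¬ IsCoprime a r := fun h2 => ha (h1.mul_right h2)
      rw [hg5b_zero χr h2, mul_zero]
    · rw [hg5b_zero χm h1, zero_mul]

theorem pg_pr {m r : ZI} (hm : m ≠ 0) (hr : r ≠ 0) (χm : MulChar (RQ m) ℂ) (χr : MulChar (RQ r) ℂ)
    (hs : chiZ m χm im1 * chiZ r χr im1 = -I) :
    ∃ (d : ZI) (ψ : ZI →* ℂ), d ∣ m * r ∧ HC d ψ ∧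
      ∀ a : ZI, IsCoprime a (m * r) → ψ a = pg m χm r χr a := by
  obtain ⟨Ψ, hΨ⟩ := pg_lift m χm r χr
  obtain ⟨d, ψ, h1, h2, h3⟩ := prim_exists (m * r) (mul_ne_zero hm hr) Ψ (by rw [hΨ]; exact hs)
  exact ⟨d, ψ, h1, h2, fun a ha => by rw [h3 a ha, hΨ]⟩

theorem pg_spec {m r : ZI} (hm : m ≠ 0) (hr : r ≠ 0) (χm : MulChar (RQ m) ℂ)
    (χr : MulChar (RQ r) ℂ) (hs : chiZ m χm im1 * chiZ r χr im1 = -I) :
    IsPr (pg m χm r χr) (PmD (pg m χm r χr)) (Pm (pg m χm r χr)) ∧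
    PmD (pg m χm r χr) ∣ m * r ∧
    ∀ a : ZI, IsCoprime a (m * r) → Pm (pg m χm r χr) a = pg m χm r χr a := by
  obtain ⟨d, ψ, h1, h2, h3⟩ := pg_pr hm hr χm χr hs
  have h0 : IsPr (pg m χm r χr) d ψ := ⟨h2, m * r, mul_ne_zero hm hr, h3⟩
  obtain ⟨g1, g2, g3, g4⟩ := pm_eq h0
  exact ⟨pm_is h0, g2.trans h1, fun a ha => by rw [g1]; exact h3 a ha⟩

theorem pg_dvd {m r : ZI} (hm : m ≠ 0) (hr : r ≠ 0) (hc : IsCoprime r m) (χm : MulChar (RQ m) ℂ)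
    (χr : MulChar (RQ r) ℂ) (hp : PrimC r χr) (hs : chiZ m χm im1 * chiZ r χr im1 = -I) :
    r ∣ PmD (pg m χm r χr) := by
  obtain ⟨⟨h1, -⟩, h2, h3⟩ := pg_spec hm hr χm χr hs
  set d := PmD (pg m χm r χr) with hd
  set ψ := Pm (pg m χm r χr) with hψ
  by_contra hcon
  have hg : ¬ r ∣ EuclideanDomain.gcd r (m * d) := fun h =>
    hcon (hc.dvd_of_dvd_mul_left (h.trans (EuclideanDomain.gcd_dvd_right r (m * d))))
  obtain ⟨v, hv1, hv2, hv3⟩ := hp _ (EuclideanDomain.gcd_dvd_left r (m * d)) hg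
  obtain ⟨u, hu1, hu2, hu3⟩ := hg5b_crt (mul_ne_zero hm hr) hv1 hv2
  apply hv3
  rw [← he9_per r χr u v hu1]
  have e1 := h3 u hu3
  rw [h1.per u 1 (dvd_of_mul_left_dvd hu2), map_one, pg_apply,
    he9_per m χm u 1 (dvd_of_mul_right_dvd hu2), map_one, one_mul] at e1
  exact e1.symm

/-- values at all elements coprime to `m` -/
theorem pg_val {m r : ZI} (hm : m ≠ 0) (hr : r ≠ 0) (hc : IsCoprime r m) (χm : MulChar (RQ m) ℂ)
    (χr : MulChar (RQ r) ℂ) (hp : PrimC r χr) (hs : chiZ m χm im1 * chiZ r χr im1 = -I)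
    (a : ZI) (ha : IsCoprime a m) : Pm (pg m χm r χr) a = chiZ m χm a * chiZ r χr a := by
  obtain ⟨⟨h1, -⟩, h2, h3⟩ := pg_spec hm hr χm χr hs
  have h4 := pg_dvd hm hr hc χm χr hp hs
  by_cases har : IsCoprime a r
  · exact h3 a (ha.mul_right har)
  · rw [hg5b_zero χr har, mul_zero]
    by_contra hcon
    exact har (((h1.supp a).1 hcon).of_isCoprime_of_dvd_right h4)

end Pool.Agent.Y693.R2
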