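import Pool.Agent.Y693.R2.Frac

/-!
Regrouping by primitive characters, moduli coprime to `M`.
-/

set_option autoImplicit false

open Complex Filter Topology Set MeasureTheory

namespace Pool.Agent.Y693.R2

open H385
open Pool.Agent.H304R3.HK (tc HC CS bb LamK psi bH aH LH Rep)

/-- pairs `(r, χ)`: `χ` primitive modulo `r`, `X < N(r) ≤ Y`, `r` coprime to `M` -/
noncomputable def FM (M : ZI) (X Y : ℕ) : Finset (Σ q : ZI, MulChar (RQ q) ℂ) :=
  open Classical in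
  ((BX Y).filter (fun q => X < nrm q ∧ IsCoprime q M)).sigma (fun q => hg5b_fs q (PrimC q))

open Classical in
/-- `∑ N(k)⁻²` over the ideals of norm at most `K` coprime to `M` -/
noncomputable def kapM (M : ZI) (K : ℕ) : ℝ :=
  (1 / 4 : ℝ) * ∑ k ∈ (BX K).filter (fun k => IsCoprime k M), 1 / (nrm k : ℝ) ^ 2

theorem mem_FM {M : ZI} {X Y : ℕ} {p : Σ q : ZI, MulChar (RQ q) ℂ} :
    p ∈ FM M X Y ↔ p.1 ≠ 0 ∧ X < nrm p.1 ∧ nrm p.1 ≤ Y ∧ IsCoprime p.1 M ∧ PrimC p.1 p.2 := by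
  classical
  unfold FM
  rw [Finset.mem_sigma, Finset.mem_filter]
  constructor
  · rintro ⟨⟨h1, h2, h3⟩, h4⟩
    have h5 := hg5b_BX_ne h1
    exact ⟨h5, h2, (hg5b_mem_BX.1 h1).2, h3, (hg5b_mem h5 _ _).1 h4⟩
  · rintro ⟨h1, h2, h3, h4, h5⟩
    refine ⟨⟨hg5b_mem_BX.2 ⟨by omega, h3⟩, h2, h4⟩, (hg5b_mem h1 _ _).2 h5⟩

open Classical in
/-- the counting argument -/
theorem countM (M : ZI) (K X Y : ℕ) (f : (q : ZI) → MulChar (RQ q) ℂ → ℝ)
    (hf : ∀ q χ, 0 ≤ f q χ)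
    (hind : ∀ (m k : ZI) (ψ : MulChar (RQ m) ℂ), k ≠ 0 → nrm k ≤ K → IsCoprime k M →
      f (m * k) (hg5b_ind m k ψ) = f m ψ) :
    kapM M K * ∑ p ∈ FM M X Y, wF p * f p.1 p.2 ≤
    ∑ q ∈ (BX (K * Y)).filter (fun q => X < nrm q ∧ IsCoprime q M), (1 / (nrm q : ℝ) ^ 2) *
      ∑ χ ∈ hg5b_fs q (BigC K q), f q χ := by
  set T : Finset (((q : ZI) × MulChar (RQ q) ℂ) × ZI) :=
    FM M X Y ×ˢ (BX K).filter (fun k => IsCoprime k M) with hT
  set U : Finset ((q : ZI) × MulChar (RQ q) ℂ) :=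
    ((BX (K * Y)).filter (fun q => X < nrm q ∧ IsCoprime q M)).sigma
      (fun q => hg5b_fs q (BigC K q)) with hU
  set g : (((q : ZI) × MulChar (RQ q) ℂ) × ZI) → ((q : ZI) × MulChar (RQ q) ℂ) :=
    fun t => ⟨t.1.1 * t.2, hg5b_ind t.1.1 t.2 t.1.2⟩ with hg
  set h : ((q : ZI) × MulChar (RQ q) ℂ) → ℝ := fun u => (1 / (nrm u.1 : ℝ) ^ 2) * f u.1 u.2 with hh
  have hT' : ∀ t ∈ T, t.1.1 ≠ 0 ∧ nrm t.1.1 ≤ Y ∧ X < nrm t.1.1 ∧ PrimC t.1.1 t.1.2 ∧ t.2 ≠ 0 ∧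
      nrm t.2 ≤ K ∧ IsCoprime t.1.1 M ∧ IsCoprime t.2 M := by
    intro t ht
    rw [hT, Finset.mem_product, Finset.mem_filter, mem_FM] at ht
    obtain ⟨⟨h1, h2, h3, h4, h5⟩, h6, h7⟩ := ht
    exact ⟨h1, h3, h2, h5, hg5b_BX_ne h6, (hg5b_mem_BX.1 h6).2, h4, h7⟩
  have hmaps : ∀ t ∈ T, g t ∈ U := by
    intro t ht
    obtain ⟨h1, h2, h3, h4, h5, h6, h8, h9⟩ := hT' t ht
    have h7 : 1 ≤ nrm t.2 := by
      by_contra hcon
      apply h5
      have : nrm t.2 = 0 := by omega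
      unfold nrm at this
      exact GaussianInt.norm_eq_zero.1 (Int.natAbs_eq_zero.1 this)
    rw [hU, Finset.mem_sigma, Finset.mem_filter, hg5b_mem_BX]
    show ((1 ≤ nrm (t.1.1 * t.2) ∧ nrm (t.1.1 * t.2) ≤ K * Y) ∧ X < nrm (t.1.1 * t.2) ∧
      IsCoprime (t.1.1 * t.2) M) ∧
      hg5b_ind t.1.1 t.2 t.1.2 ∈ hg5b_fs (t.1.1 * t.2) (BigC K (t.1.1 * t.2))
    refine ⟨⟨⟨?_, ?_⟩, ?_, h8.mul_left h9⟩, (hg5b_mem (mul_ne_zero h1 h5) _ _).2
      (hg5b_bigC h1 h5 h6 _ h4)⟩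
    · rw [hg5b_nrm_mul]
      have : 1 ≤ nrm t.1.1 := by omega
      exact Nat.mul_pos this h7
    · rw [hg5b_nrm_mul, Nat.mul_comm K Y]
      exact Nat.mul_le_mul h2 h6
    · rw [hg5b_nrm_mul]
      exact lt_of_lt_of_le h3 (Nat.le_mul_of_pos_right _ h7)
  have hLHS : kapM M K * ∑ p ∈ FM M X Y, wF p * f p.1 p.2 = (1 / 4 : ℝ) * ∑ t ∈ T, h (g t) := by
    unfold kapM
    rw [hT, Finset.sum_product, mul_assoc]
    congr 1
    rw [Finset.mul_sum]
    refine Finset.sum_congr rfl fun p hp => ?_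
    rw [Finset.sum_mul]
    refine Finset.sum_congr rfl fun k hk => ?_
    rw [Finset.mem_filter] at hk
    show 1 / (nrm k : ℝ) ^ 2 * (1 / (nrm p.1 : ℝ) ^ 2 * f p.1 p.2) =
      (1 / (nrm (p.1 * k) : ℝ) ^ 2) * f (p.1 * k) (hg5b_ind p.1 k p.2)
    rw [hind p.1 k p.2 (hg5b_BX_ne hk.1) (hg5b_mem_BX.1 hk.1).2 hk.2, hg5b_nrm_mul]
    push_cast
    rw [mul_pow, one_div, one_div, one_div, mul_inv]
    ring
  have hfib : ∀ u ∈ U, ((T.filter (fun t => g t = u)).card : ℝ) ≤ 4 := by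
    intro u _
    rcases (T.filter (fun t => g t = u)).eq_empty_or_nonempty with he | ⟨t0, ht0⟩
    · rw [he]
      simp
    rw [Finset.mem_filter] at ht0
    obtain ⟨ht0, hu0⟩ := ht0
    obtain ⟨a1, a2, a3, a4, a5, a6, -, -⟩ := hT' t0 ht0
    -- equality of the induced characters
    have heq : ∀ t ∈ T, g t = u → t.1.1 * t.2 = t0.1.1 * t0.2 ∧
        ∀ x, IsCoprime x (t0.1.1 * t0.2) → chiZ t.1.1 t.1.2 x = chiZ t0.1.1 t0.1.2 x := by
      intro t _ hu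
      have h1 : g t = g t0 := hu.trans hu0.symm
      have h2 : t.1.1 * t.2 = t0.1.1 * t0.2 := congrArg Sigma.fst h1
      refine ⟨h2, fun x hx => ?_⟩
      have h3 : chiZ (g t).1 (g t).2 x = chiZ (g t0).1 (g t0).2 x := by rw [h1]
      have h4 : chiZ (t.1.1 * t.2) (hg5b_ind t.1.1 t.2 t.1.2) x =
        chiZ (t0.1.1 * t0.2) (hg5b_ind t0.1.1 t0.2 t0.1.2) x := h3
      rwa [hg5b_ind_eq _ _ _ hx, hg5b_ind_eq _ _ _ (by rw [h2]; exact hx)] at h4
    have hcard : (T.filter (fun t => g t = u)).card ≤ ((BX 1).image (fun w => t0.1.1 * w)).card := by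
      refine Finset.card_le_card_of_injOn (fun t => t.1.1) ?_ ?_
      · intro t ht
        rw [Finset.mem_coe, Finset.mem_filter] at ht
        obtain ⟨ht, hu⟩ := ht
        obtain ⟨b1, b2, b3, b4, b5, b6, -, -⟩ := hT' t ht
        obtain ⟨h1, h2⟩ := heq t ht hu
        have h3 : t0.1.1 ∣ t.1.1 := hg5b_dvd (mul_ne_zero a1 a5) t0.1.2 t.1.2 a4
          (fun x hx => (h2 x hx).symm)
        have h4 : t.1.1 ∣ t0.1.1 := hg5b_dvd (mul_ne_zero a1 a5) t.1.2 t0.1.2 b4 h2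
        obtain ⟨w, hw⟩ := h3
        rw [Finset.mem_coe, Finset.mem_image]
        refine ⟨w, ?_, hw.symm⟩
        rw [hg5b_mem_BX]
        have h5 := he3_nrm h4 a1
        rw [hw, hg5b_nrm_mul] at h5
        have h6 : 0 < nrm t0.1.1 := by omega
        have h7 : nrm w ≤ 1 := by
          by_contra hcon
          push Not at hcon
          have : nrm t0.1.1 * 2 ≤ nrm t0.1.1 * nrm w := Nat.mul_le_mul_left _ hcon
          omega
        have h8 : nrm w ≠ 0 := by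
          intro h8
          have : w = 0 := by
            unfold nrm at h8
            exact GaussianInt.norm_eq_zero.1 (Int.natAbs_eq_zero.1 h8)
          rw [this, mul_zero] at hw
          exact b1 hw
        omega
      · intro t ht t' ht' htt
        rw [Finset.mem_coe, Finset.mem_filter] at ht ht'
        obtain ⟨ht, hu⟩ := ht
        obtain ⟨ht', hu'⟩ := ht'
        obtain ⟨b1, b2, b3, b4, b5, b6, -, -⟩ := hT' t ht
        obtain ⟨h1, h2⟩ := heq t ht hu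
        obtain ⟨h1', h2'⟩ := heq t' ht' hu'
        obtain ⟨⟨m, ψ⟩, k⟩ := t
        obtain ⟨⟨m', ψ'⟩, k'⟩ := t'
        simp only at htt h1 h1' h2 h2' b1
        subst htt
        have hk : k = k' := mul_left_cancel₀ b1 (h1.trans h1'.symm)
        subst hk
        have hψ : ψ = ψ' := by
          refine hg5b_ext ψ ψ' fun x hx => ?_
          obtain ⟨y, hy1, hy2⟩ := he9_lift (t0.1.1 * t0.2) m x (mul_ne_zero a1 a5) hx
          rw [← he9_per m ψ y x hy1, ← he9_per m ψ' y x hy1, h2 y hy2, h2' y hy2]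
        rw [hψ]
    have h4 : ((BX 1).image (fun w => t0.1.1 * w)).card ≤ 4 :=
      Finset.card_image_le.trans hg5b_BX_one
    exact_mod_cast hcard.trans h4
  have hsum : ∑ t ∈ T, h (g t) = ∑ u ∈ U, ((T.filter (fun t => g t = u)).card : ℝ) * h u := by
    rw [← Finset.sum_fiberwise_of_maps_to hmaps]
    refine Finset.sum_congr rfl fun u _ => ?_
    rw [Finset.sum_congr rfl (g := fun _ => h u) (fun t ht => by
      rw [(Finset.mem_filter.1 ht).2])]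
    rw [Finset.sum_const, nsmul_eq_mul]
  have hRHS : ∑ u ∈ U, h u = ∑ q ∈ (BX (K * Y)).filter (fun q => X < nrm q ∧ IsCoprime q M),
      (1 / (nrm q : ℝ) ^ 2) * ∑ χ ∈ hg5b_fs q (BigC K q), f q χ := by
    rw [hU, Finset.sum_sigma]
    refine Finset.sum_congr rfl fun q _ => ?_
    rw [Finset.mul_sum]
  rw [hLHS, hsum, ← hRHS, Finset.mul_sum]
  refine Finset.sum_le_sum fun u hu => ?_
  have h1 : 0 ≤ h u := mul_nonneg (by positivity) (hf _ _)
  have h2 := mul_le_mul_of_nonneg_right (hfib u hu) h1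
  linarith

open Classical in
/-- regrouping by primitive characters -/
theorem regroupM (M P : ZI) (hP : P ≠ 0) (K : ℕ) (hS : Smo P K) (X Y : ℕ)
    (F : Finset ZI) (b : ZI → ℂ) (hb : ∀ n, ¬ IsCoprime n P → b n = 0) :
    kapM M K * ∑ p ∈ FM M X Y, wF p * ‖SC F b p.1 p.2‖ ^ 2 ≤
    ∑ q ∈ (BX (K * Y)).filter (fun q => X < nrm q ∧ IsCoprime q M), (gP P q / (nrm q : ℝ) ^ 2) *
      ∑ a ∈ (Rep q).filter (fun a => GcdLe K q a), ‖SZ F b (tc a / tc q)‖ ^ 2 := by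
  classical
  refine le_trans (countM M K X Y (fun q χ => ‖SC F b q χ‖ ^ 2) (fun _ _ => by positivity)
    (fun m k ψ hk hkK _ => by rw [hg5b_SC hS hb hk hkK])) ?_
  refine Finset.sum_le_sum fun q hq => ?_
  have hq0 : q ≠ 0 := hg5b_BX_ne (Finset.mem_filter.1 hq).1
  have h1 := bessel_q q hq0 K F b
  obtain ⟨g0, -, g1, g2, -⟩ := phq_gP P q hP hq0
  have hn : (0 : ℝ) < nrm q := by
    have := (hg5b_mem_BX.1 (Finset.mem_filter.1 hq).1).1
    exact_mod_cast this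
  have hphi : (0 : ℝ) < phiQ q := by exact_mod_cast (fq_finite q hq0).2.1
  rw [hg5b_sum hq0] at h1
  set A : ℝ := ∑ χ ∈ hg5b_fs q (BigC K q), ‖SC F b q χ‖ ^ 2 with hA
  have hA0 : 0 ≤ A := Finset.sum_nonneg fun _ _ => by positivity
  calc (1 / (nrm q : ℝ) ^ 2) * A ≤ (gP P q / (nrm q : ℝ) ^ 2) * ((nrm q : ℝ) / phiQ q * A) := by
        have h3 : 1 ≤ gP P q * ((nrm q : ℝ) / phiQ q) := by
          have h4 : phq q * ((nrm q : ℝ) / phiQ q) = 1 := by
            unfold phq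
            field_simp
          rw [← h4]
          exact mul_le_mul_of_nonneg_right g1 (by positivity)
        have h5 : (gP P q / (nrm q : ℝ) ^ 2) * ((nrm q : ℝ) / phiQ q * A) =
          (1 / (nrm q : ℝ) ^ 2) * ((gP P q * ((nrm q : ℝ) / phiQ q)) * A) := by ring
        rw [h5]
        refine mul_le_mul_of_nonneg_left ?_ (by positivity)
        exact le_mul_of_one_le_left hA0 h3
    _ ≤ _ := mul_le_mul_of_nonneg_left h1 (by positivity)

end Pool.Agent.Y693.R2
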