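import Pool.Agent.Y693.R2.All
import Pool.Agent.Y693.R2.Num
import Pool.Agent.W164.RC.Lower
import Pool.Agent.H385R2.LocalD

/-!
The sum over all characters modulo `m s`: the characters of small conductor are negligible.
-/

set_option autoImplicit false

open Complex Filter Topology Set MeasureTheory
open H370 (zset mult NN Nd Ns)

namespace Pool.Agent.Y693.R2

open H385
open H385.HG6b (nrm_pos)
open Pool.Agent.H304R3.HK (tc HC LH one_le_norm_tc)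

theorem pmq_prim (q : ZI) (hq : q ≠ 0) (χ : MulChar (RQ q) ℂ) (hχ : χ ∈ FQs q) :
    PmD (chiZ q χ) ∣ q ∧ HC (PmD (chiZ q χ)) (Pm (chiZ q χ)) ∧
      ∀ a : ZI, IsCoprime a q → Pm (chiZ q χ) a = chiZ q χ a := by
  obtain ⟨d, ψ, h1, h2, h3⟩ := prim_exists q hq χ (((fq_finite q hq).2.2 χ).1 hχ)
  have h0 : IsPr (chiZ q χ) d ψ := ⟨h2, q, hq, h3⟩
  obtain ⟨g1, g2, g3, g4⟩ := pm_eq h0
  exact ⟨g2.trans h1, g4, fun a ha => by rw [g1]; exact h3 a ha⟩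

theorem mass_up : ∃ C : ℝ, 0 < C ∧ ∀ (M : ZI) (X Y Z : ℕ), Y ≤ Z → 1 ≤ Z →
    WM M X Y ≤ C * (1 + Real.log Z) := by
  classical
  obtain ⟨C1, hC1, hC⟩ := class_sum 1 one_ne_zero
  have hpi := Real.pi_pos
  have hlog2 : 0 < Real.log 2 := Real.log_pos (by norm_num)
  refine ⟨Real.pi + Real.pi * Real.log 2 + C1, by positivity, fun M X Y Z hYZ hZ => ?_⟩
  have hZ' : (1 : ℝ) ≤ Z := by exact_mod_cast hZ
  have hlZ : 0 ≤ Real.log Z := Real.log_nonneg hZ'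
  rw [WM_eq]
  have h2 := hC (1 / 2) Z 0 ((BX Y).filter (fun q => X < nrm q ∧ IsCoprime q M)) (by norm_num)
    (by linarith) ?_
  · have h3 : (nrm (1 : ZI) : ℝ) = 1 := by
      have : nrm (1 : ZI) = 1 := by decide
      exact_mod_cast this
    have h4 : Real.log ((Z : ℝ) / (1 / 2)) = Real.log 2 + Real.log Z := by
      rw [show (Z : ℝ) / (1 / 2) = 2 * Z by ring, Real.log_mul (by norm_num) (by linarith)]
    rw [h3, h4, div_one] at h2
    refine le_trans (Finset.sum_le_sum fun q hq => ?_) (h2.trans ?_)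
    · rw [Finset.mem_filter, hg6e_mem_BX] at hq
      have h5 := mp_le hq.1.1
      have h6 : (0 : ℝ) < nrm q := by exact_mod_cast hg6e_nrm_pos hq.1.1
      rw [one_div, ← div_eq_inv_mul, div_le_div_iff₀ (by positivity) h6]
      nlinarith
    · have e1 : 0 ≤ Real.log 2 * Real.log Z := mul_nonneg hlog2.le hlZ
      have e2 : 0 ≤ C1 * Real.log Z := mul_nonneg hC1.le hlZ
      have e3 : 0 ≤ Real.pi * (Real.log 2 * Real.log Z) := mul_nonneg hpi.le e1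
      nlinarith
  · intro j hj
    rw [Finset.mem_filter, hg6e_mem_BX] at hj
    refine ⟨hj.1.1, one_dvd _, ?_, ?_⟩
    · have : (1 : ℝ) ≤ nrm j := by exact_mod_cast hg6e_nrm_pos hj.1.1
      linarith
    · exact_mod_cast hj.1.2.trans hYZ

theorem nn_up : ∃ C : ℝ, 0 < C ∧ ∀ (d : ZI) (ψ : ZI →* ℂ) (T : ℝ), HC d ψ → 3 ≤ T →
    (NN (LH ψ) T (2 * T) : ℝ) ≤ C * T * Real.log (‖tc d‖ * (2 * T)) := by
  obtain ⟨A, hA1, hgood⟩ := Pool.Agent.H304R3.HK.goodH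
  obtain ⟨C, hC, h⟩ := zcount_long_D 2 A (by norm_num) hA1
  refine ⟨C, hC, fun d ψ T hHC hT => ?_⟩
  have := h ‖tc d‖ (LH ψ) _ (one_le_norm_tc hHC.q0) (hgood _ _ hHC).2.2.2 T (2 * T) hT (by linarith)
  rw [show C * (2 * T - T) = C * T by ring] at this
  exact this

/-- the family sum of a function of the characters -/
noncomputable def FF (m : ZI) (X Y : ℕ) (f : (ZI →* ℂ) → ℝ) : ℝ :=
  ∑ p ∈ SS m X Y, wF p.1 * f (Pm (gp m p))

open Classical in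
/-- the sum over all characters modulo `m s` -/
noncomputable def AA (m : ZI) (X Y : ℕ) (f : (ZI →* ℂ) → ℝ) : ℝ :=
  ∑ s ∈ (BX Y).filter (fun s => X < nrm s ∧ IsCoprime s m), (1 / (nrm s : ℝ) ^ 2) *
      ∑ χ ∈ FQs (m * s), f (Pm (chiZ (m * s) χ))

open Classical in
theorem AA_eq {m : ZI} (hm : m ≠ 0) (X Y : ℕ) (f : (ZI →* ℂ) → ℝ) :
    AA m X Y f = (1 / 4 : ℝ) * ∑ k ∈ (BX Y).filter (fun k => IsCoprime k m),
      (1 / (nrm k : ℝ) ^ 2) * FF m (X / nrm k) (Y / nrm k) f := sum_all hm X Y f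

theorem FF_nonneg (m : ZI) (X Y : ℕ) (f : (ZI →* ℂ) → ℝ) (hf : ∀ ψ, 0 ≤ f ψ) :
    0 ≤ FF m X Y f := by
  refine Finset.sum_nonneg fun p _ => mul_nonneg ?_ (hf _)
  unfold wF; positivity

/-- trivial upper bound for the zeros of the family -/
theorem FF_up {m : ZI} (hm : 4 < nrm m) : ∃ C : ℝ, 0 < C ∧ ∀ (X Y Z : ℕ) (T : ℝ), Y ≤ Z → 1 ≤ Z →
    3 ≤ T → FF m X Y (fun ψ => (NN (LH ψ) T (2 * T) : ℝ)) ≤
      C * T * Real.log ((nrm m : ℝ) * Z * (2 * T)) * (1 + Real.log Z) := by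
  have hm0 : m ≠ 0 := by
    rintro rfl
    simp [nrm] at hm
  obtain ⟨C1, hC1, h1⟩ := mass_up
  obtain ⟨C2, hC2, h2⟩ := nn_up
  have hφ : 0 < phiQ m := (fq_finite m hm0).2.1
  have hφ' : (0 : ℝ) < phiQ m := by exact_mod_cast hφ
  refine ⟨C2 * ((phiQ m : ℝ) / 4 * C1), by positivity, fun X Y Z T hYZ hZ hT => ?_⟩
  have hZ' : (1 : ℝ) ≤ Z := by exact_mod_cast hZ
  have hmn : (1 : ℝ) ≤ nrm m := by exact_mod_cast (by omega : 1 ≤ nrm m)
  set L : ℝ := Real.log ((nrm m : ℝ) * Z * (2 * T)) with hL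
  have hL0 : 0 ≤ L := Real.log_nonneg (by
    refine one_le_mul_of_one_le_of_one_le (one_le_mul_of_one_le_of_one_le hmn hZ') (by linarith))
  have hwF : ∀ p : Σ q : ZI, MulChar (RQ q) ℂ, 0 ≤ wF p := fun p => by
    unfold wF; positivity
  have hpt : ∀ p ∈ SS m X Y, (NN (LH (Pm (gp m p))) T (2 * T) : ℝ) ≤ C2 * T * L := by
    intro p hp
    obtain ⟨h3, h4⟩ := (mem_SS hm0).1 hp
    rw [mem_FM] at h3
    obtain ⟨a1, a2, a3, a4, a5⟩ := h3
    obtain ⟨⟨b1, -⟩, b2, b3⟩ := pg_spec hm0 a1 p.2 p.1.2 h4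
    refine (h2 _ _ T b1 hT).trans ?_
    refine mul_le_mul_of_nonneg_left ?_ (by positivity)
    have hQ1 := one_le_norm_tc b1.q0
    refine Real.log_le_log (by positivity) ?_
    refine mul_le_mul_of_nonneg_right ?_ (by linarith)
    have hn := nrm_eq (PmD (pg m p.2 p.1.1 p.1.2))
    have h5 : nrm (PmD (pg m p.2 p.1.1 p.1.2)) ≤ nrm m * Z := by
      refine (he3_nrm b2 (mul_ne_zero hm0 a1)).trans ?_
      rw [hg5b_nrm_mul]
      exact Nat.mul_le_mul_left _ (a3.trans hYZ)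
    have h6 : (nrm (PmD (pg m p.2 p.1.1 p.1.2)) : ℝ) ≤ (nrm m : ℝ) * Z := by exact_mod_cast h5
    rw [hn] at h6
    nlinarith
  calc FF m X Y (fun ψ => (NN (LH ψ) T (2 * T) : ℝ)) ≤
      ∑ p ∈ SS m X Y, wF p.1 * (C2 * T * L) :=
        Finset.sum_le_sum fun p hp => mul_le_mul_of_nonneg_left (hpt p hp) (hwF _)
    _ = ((phiQ m : ℝ) / 4 * WM m X Y) * (C2 * T * L) := by rw [← Finset.sum_mul, mass_SS hm]
    _ ≤ ((phiQ m : ℝ) / 4 * (C1 * (1 + Real.log Z))) * (C2 * T * L) := by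
        refine mul_le_mul_of_nonneg_right ?_ (by positivity)
        exact mul_le_mul_of_nonneg_left (h1 m X Y Z hYZ hZ) (by positivity)
    _ = _ := by ring

end Pool.Agent.Y693.R2
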