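import Pool.Agent.Y693.R2.Tail

/-!
The main inequality for the sum over all characters modulo `m s`.
-/

set_option autoImplicit false

open Complex Filter Topology Set MeasureTheory
open H370 (zset mult NN Nd Ns)

namespace Pool.Agent.Y693.R2

open H385
open H385.HG6b (nrm_pos)
open Pool.Agent.H304R3.HK (tc HC LH one_le_norm_tc)

/-- the parameters for the inner families -/
theorem inner_par (nm : ℕ) (hnm : 1 ≤ nm) (C0 K0 η0 η L0 : ℝ) (hC0 : 1 ≤ C0) (hK0 : 1 ≤ K0)
    (hη0 : 0 < η0) (hη : 0 < η) (hηη : η ≤ η0 / 8)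
    (hL0 : 8 * (Real.log nm + (1 + η0) * Real.log 2) ≤ 3 * η0 * L0)
    (X Y n : ℕ) (T : ℝ) (hX : 1 ≤ X) (hn : 1 ≤ n) (hnX : n ^ 2 ≤ X)
    (hXY : 2 * K0 * X ≤ Y) (hYX : (Y : ℝ) ≤ (X : ℝ) ^ (1 + η)) (hLX : L0 ≤ Real.log X)
    (hT : C0 * (1 + Real.sqrt (Real.log X)) ≤ T) (hTX : T ≤ (X : ℝ) ^ η) :
    1 ≤ X / n ∧ K0 * ((X / n : ℕ) : ℝ) ≤ ((Y / n : ℕ) : ℝ) ∧
      ((nm * (Y / n) : ℕ) : ℝ) ≤ ((X / n : ℕ) : ℝ) ^ (1 + η0) ∧
      C0 * (1 + Real.sqrt (Real.log ((X / n : ℕ) : ℝ))) ≤ T ∧ T ≤ ((X / n : ℕ) : ℝ) ^ η0 := by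
  have hnX' : n ≤ X := le_trans (by nlinarith) hnX
  have h1 : 1 ≤ X / n := (Nat.le_div_iff_mul_le (by omega)).2 (by omega)
  obtain ⟨x, hx⟩ : ∃ x : ℕ, x = X / n := ⟨_, rfl⟩
  obtain ⟨y, hy⟩ : ∃ y : ℕ, y = Y / n := ⟨_, rfl⟩
  rw [← hx, ← hy]
  rw [← hx] at h1
  have a1 : x * n ≤ X := by rw [hx]; exact Nat.div_mul_le_self X n
  have a2 : X < (x + 1) * n := by
    rw [hx]
    exact Nat.lt_mul_of_div_lt (Nat.lt_succ_self _) (by omega)
  have a3 : y * n ≤ Y := by rw [hy]; exact Nat.div_mul_le_self Y n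
  have a4 : Y < (y + 1) * n := by
    rw [hy]
    exact Nat.lt_mul_of_div_lt (Nat.lt_succ_self _) (by omega)
  have hxr : (1 : ℝ) ≤ x := by exact_mod_cast h1
  have hnr : (1 : ℝ) ≤ n := by exact_mod_cast hn
  have hXr : (1 : ℝ) ≤ X := by exact_mod_cast hX
  have a1r : (x : ℝ) * n ≤ X := by exact_mod_cast a1
  have a2r : (X : ℝ) ≤ ((x : ℝ) + 1) * n := by exact_mod_cast a2.le
  have a3r : (y : ℝ) * n ≤ Y := by exact_mod_cast a3
  have a4r : (Y : ℝ) ≤ ((y : ℝ) + 1) * n := by exact_mod_cast a4.le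
  have hnXr : (n : ℝ) ^ 2 ≤ X := by exact_mod_cast hnX
  have hnXr' : (n : ℝ) ≤ X := by exact_mod_cast hnX'
  have hn0 : (0 : ℝ) < n := by linarith
  have hx0 : (0 : ℝ) < x := by linarith
  have hX0 : (0 : ℝ) < X := by linarith
  have a5 : (X : ℝ) ≤ 2 * (x * n) := by
    have : ((x : ℝ) + 1) * n ≤ 2 * (x * n) := by
      have := mul_le_mul_of_nonneg_right hxr hn0.le
      linarith
    linarith
  -- logs
  set L := Real.log X with hL
  set ℓ := Real.log (n : ℝ) with hℓ
  set ℓm := Real.log (nm : ℝ) with hℓm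
  have hℓ0 : 0 ≤ ℓ := Real.log_nonneg hnr
  have hL0' : 0 ≤ L := Real.log_nonneg hXr
  have hlog2 : 0 < Real.log 2 := Real.log_pos (by norm_num)
  have hnmr : (1 : ℝ) ≤ nm := by exact_mod_cast hnm
  have hℓm0 : 0 ≤ ℓm := Real.log_nonneg hnmr
  have b1 : 2 * ℓ ≤ L := by
    have := Real.log_le_log (by positivity) hnXr
    rw [Real.log_pow] at this
    exact_mod_cast this
  have b2 : L - Real.log 2 - ℓ ≤ Real.log x := by
    have := Real.log_le_log hX0 a5
    rw [Real.log_mul (by norm_num) (by positivity), Real.log_mul hx0.ne' hn0.ne'] at this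
    linarith
  have b3 : Real.log x ≤ L := Real.log_le_log hx0 (by
    calc (x : ℝ) = x * 1 := (mul_one _).symm
      _ ≤ x * n := mul_le_mul_of_nonneg_left hnr hx0.le
      _ ≤ X := a1r)
  have hη8 : η * L ≤ η0 / 8 * L := mul_le_mul_of_nonneg_right hηη hL0'
  have hLL : 8 * (ℓm + (1 + η0) * Real.log 2) ≤ 3 * (η0 * L) := by
    refine hL0.trans ?_
    have : η0 * L0 ≤ η0 * L := mul_le_mul_of_nonneg_left hLX hη0.le
    linarith
  have hT0 : 0 < T := by
    have := Real.sqrt_nonneg L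
    have h2 : 0 < C0 * (1 + Real.sqrt L) := by positivity
    linarith
  have c2 : K0 * (x : ℝ) ≤ y := by
    have d1 : K0 * x * n ≤ y * n := by
      have e1 : K0 * (x * n) ≤ K0 * X := mul_le_mul_of_nonneg_left a1r (by linarith)
      have e2 : 1 * (n : ℝ) ≤ K0 * X := by
        have := mul_le_mul hK0 hnXr' hn0.le (by linarith)
        linarith
      have e3 : ((y : ℝ) + 1) * n = y * n + n := by ring
      rw [e3] at a4r
      linarith
    exact le_of_mul_le_mul_right d1 hn0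
  have hy0 : (0 : ℝ) < y := lt_of_lt_of_le (by positivity) c2
  have hY0 : (0 : ℝ) < Y := lt_of_lt_of_le (by positivity) hXY
  have hlY : Real.log Y ≤ (1 + η) * L := by
    have := Real.log_le_log hY0 hYX
    rwa [Real.log_rpow hX0] at this
  have hly : Real.log y ≤ (1 + η) * L - ℓ := by
    have := Real.log_le_log (by positivity) a3r
    rw [Real.log_mul hy0.ne' hn0.ne'] at this
    linarith
  have hη1 : η0 * (L - 2 * Real.log 2) ≤ 2 * (η0 * Real.log x) := by
    have : L - 2 * Real.log 2 ≤ 2 * Real.log x := by linarith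
    have := mul_le_mul_of_nonneg_left this hη0.le
    linarith
  refine ⟨h1, c2, ?_, ?_, ?_⟩
  · have e1 : ((nm * y : ℕ) : ℝ) = nm * y := by push_cast; ring
    rw [e1, ← Real.log_le_log_iff (by positivity) (by positivity), Real.log_rpow hx0,
      Real.log_mul (by positivity) hy0.ne']
    have e2 : (1 + η0) * Real.log x = Real.log x + η0 * Real.log x := by ring
    rw [e2]
    have e3 : (1 + η) * L = L + η * L := by ring
    rw [e3] at hly
    linarith
  · refine le_trans ?_ hT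
    refine mul_le_mul_of_nonneg_left ?_ (by linarith)
    have := Real.sqrt_le_sqrt b3
    linarith
  · have e1 : Real.log T ≤ η * L := by
      have := Real.log_le_log hT0 hTX
      rwa [Real.log_rpow hX0] at this
    rw [← Real.log_le_log_iff hT0 (by positivity), Real.log_rpow hx0]
    linarith

/-- the tail -/
theorem tail_sum {m : ZI} (hm : 4 < nrm m) (δ : ℝ) (hδ : 0 < δ) : ∃ L0 : ℝ, 1 ≤ L0 ∧
    ∀ (X Y : ℕ) (T η : ℝ), 1 ≤ X → 1 ≤ Y → 0 < η → η ≤ 1 / 8 → (Y : ℝ) ≤ (X : ℝ) ^ (1 + η) →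
    3 ≤ T → T ≤ (X : ℝ) ^ η → L0 ≤ Real.log X →
    (open Classical in ∑ k ∈ ((BX Y).filter (fun k => IsCoprime k m)).filter
      (fun k => ¬ nrm k ^ 2 ≤ X), (1 / (nrm k : ℝ) ^ 2) *
        FF m (X / nrm k) (Y / nrm k) (fun ψ => (NN (LH ψ) T (2 * T) : ℝ))) ≤ δ * T := by
  classical
  obtain ⟨C, hC, hup⟩ := FF_up hm
  have hS := hg6e_summ
  obtain ⟨g, hg⟩ : ∃ g : ZI → ℝ, g = fun k : ZI =>
    if k = 0 then (0 : ℝ) else 1 / ((nrm k : ℝ) * Real.sqrt (nrm k)) := ⟨_, rfl⟩
  rw [← hg] at hS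
  have hg0 : ∀ k, 0 ≤ g k := by
    intro k
    rw [hg]
    simp only
    split_ifs
    · exact le_rfl
    · positivity
  obtain ⟨G, hG⟩ : ∃ G : ℝ, G = ∑' k, g k := ⟨_, rfl⟩
  have hG0 : 0 ≤ G := by rw [hG]; exact tsum_nonneg hg0
  have hmn : (1 : ℝ) ≤ nrm m := by exact_mod_cast (by omega : 1 ≤ nrm m)
  have hlog2 : 0 < Real.log 2 := Real.log_pos (by norm_num)
  have hℓm0 : 0 ≤ Real.log (nrm m : ℝ) := Real.log_nonneg hmn
  refine ⟨1 + 2 * (Real.log (nrm m : ℝ) + Real.log 2) + 8 * (1536 * C * G / δ),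
    by have : 0 ≤ 8 * (1536 * C * G / δ) := by positivity
       linarith, ?_⟩
  intro X Y T η hX hY hη hη8 hYX hT hTX hL
  have hXr : (1 : ℝ) ≤ X := by exact_mod_cast hX
  have hX0 : (0 : ℝ) < X := by linarith
  have hYr : (1 : ℝ) ≤ Y := by exact_mod_cast hY
  have hY0 : (0 : ℝ) < Y := by linarith
  have hT0 : 0 < T := by linarith
  set L := Real.log X with hLd
  have hq : 0 ≤ 8 * (1536 * C * G / δ) := by positivity
  have hL1 : 1 ≤ L := by linarith
  have hL0 : 0 < L := by linarith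
  have hLm : 2 * (Real.log (nrm m : ℝ) + Real.log 2) ≤ L := by linarith
  have hηL : η * L ≤ 1 / 8 * L := mul_le_mul_of_nonneg_right hη8 hL0.le
  have hlY : Real.log Y ≤ (1 + η) * L := by
    have := Real.log_le_log hY0 hYX
    rwa [Real.log_rpow hX0] at this
  have hlT : Real.log T ≤ η * L := by
    have := Real.log_le_log hT0 hTX
    rwa [Real.log_rpow hX0] at this
  have e3 : (1 + η) * L = L + η * L := by ring
  rw [e3] at hlY
  have hlY0 : 0 ≤ Real.log Y := Real.log_nonneg hYr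
  have h1 : Real.log ((nrm m : ℝ) * Y * (2 * T)) ≤ 2 * L := by
    rw [Real.log_mul (by positivity) (by positivity), Real.log_mul (by positivity) hY0.ne',
      Real.log_mul (by norm_num) hT0.ne']
    linarith
  have h10 : 0 ≤ Real.log ((nrm m : ℝ) * Y * (2 * T)) := by
    refine Real.log_nonneg ?_
    exact one_le_mul_of_one_le_of_one_le (one_le_mul_of_one_le_of_one_le hmn hYr) (by linarith)
  have h2 : 1 + Real.log Y ≤ 3 * L := by linarith
  have hFF : ∀ k : ZI, FF m (X / nrm k) (Y / nrm k) (fun ψ => (NN (LH ψ) T (2 * T) : ℝ)) ≤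
      6 * C * T * L ^ 2 := by
    intro k
    refine (hup (X / nrm k) (Y / nrm k) Y T (Nat.div_le_self _ _) hY hT).trans ?_
    calc C * T * Real.log ((nrm m : ℝ) * Y * (2 * T)) * (1 + Real.log Y) ≤
        C * T * (2 * L) * (3 * L) := by
          refine mul_le_mul ?_ h2 (by linarith) (by positivity)
          exact mul_le_mul_of_nonneg_left h1 (by positivity)
      _ = _ := by ring
  have hterm : ∀ k ∈ ((BX Y).filter (fun k => IsCoprime k m)).filter (fun k => ¬ nrm k ^ 2 ≤ X),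
      (1 / (nrm k : ℝ) ^ 2) * FF m (X / nrm k) (Y / nrm k)
        (fun ψ => (NN (LH ψ) T (2 * T) : ℝ)) ≤
      (6 * C * T * L ^ 2 * Real.exp (-(L / 4))) * g k := by
    intro k hk
    rw [Finset.mem_filter, Finset.mem_filter] at hk
    obtain ⟨⟨hk1, hk2⟩, hk3⟩ := hk
    have hk0 := hg5b_BX_ne hk1
    have hkn : (1 : ℝ) ≤ nrm k := by exact_mod_cast nrm_pos hk0
    have hkn0 : (0 : ℝ) < nrm k := by linarith
    have hkX : (X : ℝ) ≤ (nrm k : ℝ) ^ 2 := by
      have : X < nrm k ^ 2 := not_le.1 hk3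
      exact_mod_cast this.le
    have hlk : L ≤ 2 * Real.log (nrm k) := by
      have := Real.log_le_log hX0 hkX
      rw [Real.log_pow] at this
      exact_mod_cast this
    have hsq : Real.exp (L / 4) ≤ Real.sqrt (nrm k) := by
      rw [← Real.log_le_log_iff (Real.exp_pos _) (Real.sqrt_pos.2 hkn0), Real.log_exp,
        Real.log_sqrt hkn0.le]
      linarith
    have hgk : g k = 1 / ((nrm k : ℝ) * Real.sqrt (nrm k)) := by
      rw [hg]
      simp only [if_neg hk0]
    have hinv : 1 / (nrm k : ℝ) ^ 2 ≤ Real.exp (-(L / 4)) * g k := by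
      have hs0 : 0 < Real.sqrt (nrm k) := Real.sqrt_pos.2 hkn0
      have hss : Real.sqrt (nrm k) * Real.sqrt (nrm k) = nrm k := Real.mul_self_sqrt hkn0.le
      have e1 : 1 / (nrm k : ℝ) ^ 2 = (Real.sqrt (nrm k))⁻¹ * g k := by
        rw [hgk]
        field_simp
        rw [pow_two, hss]
      rw [e1]
      refine mul_le_mul_of_nonneg_right ?_ (hg0 k)
      rw [Real.exp_neg]
      exact inv_anti₀ (Real.exp_pos _) hsq
    calc (1 / (nrm k : ℝ) ^ 2) * FF m (X / nrm k) (Y / nrm k)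
          (fun ψ => (NN (LH ψ) T (2 * T) : ℝ)) ≤ (1 / (nrm k : ℝ) ^ 2) * (6 * C * T * L ^ 2) :=
          mul_le_mul_of_nonneg_left (hFF k) (by positivity)
      _ ≤ (Real.exp (-(L / 4)) * g k) * (6 * C * T * L ^ 2) :=
          mul_le_mul_of_nonneg_right hinv (by positivity)
      _ = _ := by ring
  refine (Finset.sum_le_sum hterm).trans ?_
  rw [← Finset.mul_sum]
  have h3 : ∑ k ∈ ((BX Y).filter (fun k => IsCoprime k m)).filter (fun k => ¬ nrm k ^ 2 ≤ X), g k ≤
      G := by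
    rw [hG]
    exact hS.sum_le_tsum _ (fun k _ => hg0 k)
  have h4 : L ^ 2 ≤ 256 * Real.exp (L / 8) := by
    have h5 : L / 16 ≤ Real.exp (L / 16) := by
      have := Real.add_one_le_exp (L / 16)
      linarith
    have h6 : L ≤ 16 * Real.exp (L / 16) := by linarith
    calc L ^ 2 ≤ (16 * Real.exp (L / 16)) ^ 2 := pow_le_pow_left₀ hL0.le h6 2
      _ = 256 * (Real.exp (L / 16) * Real.exp (L / 16)) := by ring
      _ = 256 * Real.exp (L / 8) := by rw [← Real.exp_add]; congr 2; ring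
  have h7 : 1536 * C * G / δ ≤ Real.exp (L / 8) := by
    have := Real.add_one_le_exp (L / 8)
    linarith
  rw [div_le_iff₀ hδ] at h7
  have h8 : 6 * C * T * L ^ 2 * Real.exp (-(L / 4)) * G ≤ δ * T := by
    calc 6 * C * T * L ^ 2 * Real.exp (-(L / 4)) * G ≤
        6 * C * T * (256 * Real.exp (L / 8)) * Real.exp (-(L / 4)) * G := by
          refine mul_le_mul_of_nonneg_right ?_ hG0
          refine mul_le_mul_of_nonneg_right ?_ (Real.exp_pos _).le
          exact mul_le_mul_of_nonneg_left h4 (by positivity)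
      _ = T * (1536 * C * G) * (Real.exp (L / 8) * Real.exp (-(L / 4))) := by ring
      _ ≤ T * (Real.exp (L / 8) * δ) * (Real.exp (L / 8) * Real.exp (-(L / 4))) := by
          refine mul_le_mul_of_nonneg_right ?_ (by positivity)
          exact mul_le_mul_of_nonneg_left h7 hT0.le
      _ = δ * T * (Real.exp (L / 8) * (Real.exp (L / 8) * Real.exp (-(L / 4)))) := by ring
      _ = δ * T := by
          rw [← Real.exp_add, ← Real.exp_add]
          have : L / 8 + (L / 8 + -(L / 4)) = 0 := by ring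
          rw [this, Real.exp_zero, mul_one]
  refine le_trans ?_ h8
  exact mul_le_mul_of_nonneg_left h3 (by positivity)

end Pool.Agent.Y693.R2
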