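import Pool.Agent.Y693.R2.Tail2

/-!
The main inequality for the sum over all characters modulo `m s`, second part.
-/

set_option autoImplicit false

open Complex Filter Topology Set MeasureTheory
open H370 (zset mult NN Nd Ns)

namespace Pool.Agent.Y693.R2

open H385
open H385.HG6b (nrm_pos)
open Pool.Agent.H304R3.HK (tc HC LH one_le_norm_tc)

theorem FF_one {m : ZI} (hm : 4 < nrm m) (X Y : ℕ) :
    FF m X Y (fun _ => 1) = (phiQ m : ℝ) / 4 * WM m X Y := by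
  unfold FF
  rw [← mass_SS hm]
  exact Finset.sum_congr rfl fun p _ => mul_one _

theorem FF_one_big {m : ZI} (hm : 4 < nrm m) : ∃ K : ℝ, 1 ≤ K ∧ ∀ X Y : ℕ, 1 ≤ X → K * X ≤ Y →
    1 ≤ FF m X Y (fun _ => 1) := by
  have hm0 : m ≠ 0 := by
    rintro rfl
    simp [nrm] at hm
  obtain ⟨c, C, hc, hC, h⟩ := WM_inf m hm0
  have hφ : 0 < phiQ m := (fq_finite m hm0).2.1
  have hφ' : (1 : ℝ) ≤ phiQ m := by exact_mod_cast hφ
  refine ⟨Real.exp ((4 + C) / c), Real.one_le_exp (by positivity), fun X Y hX hXY => ?_⟩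
  have hXr : (1 : ℝ) ≤ X := by exact_mod_cast hX
  have hX0 : (0 : ℝ) < X := by linarith
  have he : 1 ≤ Real.exp ((4 + C) / c) := Real.one_le_exp (by positivity)
  have hXYr : (X : ℝ) ≤ Y := by
    refine le_trans ?_ hXY
    exact le_mul_of_one_le_left hX0.le he
  have hXYn : X ≤ Y := by exact_mod_cast hXYr
  have hY0 : (0 : ℝ) < Y := by linarith
  have h1 : (4 + C) / c ≤ Real.log ((Y : ℝ) / X) := by
    rw [Real.le_log_iff_exp_le (by positivity), le_div_iff₀ hX0]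
    exact hXY
  rw [div_le_iff₀ hc] at h1
  have h2 := h X Y hX hXYn
  rw [FF_one hm]
  have h3 : 4 ≤ WM m X Y := by linarith
  have h4 : (phiQ m : ℝ) / 4 * 4 ≤ (phiQ m : ℝ) / 4 * WM m X Y :=
    mul_le_mul_of_nonneg_left h3 (by positivity)
  linarith

theorem AA_one {m : ZI} (hm : 4 < nrm m) {X Y : ℕ} (hY : 1 ≤ Y) :
    (1 / 4 : ℝ) * FF m X Y (fun _ => 1) ≤ AA m X Y (fun _ => 1) := by
  classical
  have hm0 : m ≠ 0 := by
    rintro rfl
    simp [nrm] at hm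
  rw [AA_eq hm0]
  refine mul_le_mul_of_nonneg_left ?_ (by norm_num)
  have h1 : (1 : ZI) ∈ (BX Y).filter (fun k => IsCoprime k m) := by
    rw [Finset.mem_filter, hg5b_mem_BX]
    have : nrm (1 : ZI) = 1 := by decide
    rw [this]
    exact ⟨⟨le_rfl, hY⟩, isCoprime_one_left⟩
  have h2 := Finset.single_le_sum (f := fun k : ZI => (1 / (nrm k : ℝ) ^ 2) *
    FF m (X / nrm k) (Y / nrm k) (fun _ => 1)) (fun k _ => mul_nonneg (by positivity)
      (FF_nonneg _ _ _ _ (fun _ => zero_le_one))) h1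
  have h3 : nrm (1 : ZI) = 1 := by decide
  rw [h3, Nat.div_one, Nat.div_one] at h2
  norm_num at h2 ⊢
  exact h2

/-- lower bound for the number of zeros -/
theorem AA_low {m : ZI} (hm : 4 < nrm m) : ∃ C : ℝ, 1 ≤ C ∧
    ∀ (X Y : ℕ) (T η : ℝ), 1 ≤ X → 0 < η → η ≤ 1 / 8 → (Y : ℝ) ≤ (X : ℝ) ^ (1 + η) →
    C * (1 + Real.sqrt (Real.log X)) ≤ T → T ≤ (X : ℝ) ^ η → Real.log (nrm m) ≤ Real.log X / 2 →
    T * AA m X Y (fun _ => 1) ≤ AA m X Y (fun ψ => (NN (LH ψ) T (2 * T) : ℝ)) := by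
  classical
  have hm0 : m ≠ 0 := by
    rintro rfl
    simp [nrm] at hm
  obtain ⟨C1, hC1, h1⟩ := Pool.Agent.W164.RC.fam_lower (fun q χ => PmD (chiZ q χ))
    (fun q χ => Pm (chiZ q χ)) pmq_prim
  refine ⟨C1, hC1, fun X Y T η hX hη hη8 hYX hT hTX hmX => ?_⟩
  have hXr : (1 : ℝ) ≤ X := by exact_mod_cast hX
  have hX0 : (0 : ℝ) < X := by linarith
  have hsq0 := Real.sqrt_nonneg (Real.log X)
  have hT0 : 0 < T := by
    refine lt_of_lt_of_le ?_ hT
    positivity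
  unfold AA
  rw [Finset.mul_sum]
  refine Finset.sum_le_sum fun s hs => ?_
  rw [Finset.mem_filter, hg5b_mem_BX] at hs
  obtain ⟨⟨hs1, hsY⟩, hsX, hsm⟩ := hs
  have hs0 : s ≠ 0 := by
    rintro rfl
    simp [nrm] at hs1
  have hq0 := mul_ne_zero hm0 hs0
  have hsr : (1 : ℝ) ≤ nrm s := by exact_mod_cast hs1
  have hmr : (1 : ℝ) ≤ nrm m := by exact_mod_cast (by omega : 1 ≤ nrm m)
  have hsXr : (X : ℝ) ≤ nrm s := by exact_mod_cast hsX.le
  have hsYr : (nrm s : ℝ) ≤ (X : ℝ) ^ (1 + η) := le_trans (by exact_mod_cast hsY) hYX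
  have hn : (nrm (m * s) : ℝ) = ‖tc (m * s)‖ ^ 2 := nrm_eq (m * s)
  have hQ1 := one_le_norm_tc hq0
  have hlQ : 2 * Real.log ‖tc (m * s)‖ = Real.log (nrm m) + Real.log (nrm s) := by
    have h2 : Real.log (nrm (m * s) : ℝ) = 2 * Real.log ‖tc (m * s)‖ := by
      rw [hn, Real.log_pow]; push_cast; ring
    rw [← h2, hg5b_nrm_mul]
    push_cast
    rw [Real.log_mul (by positivity) (by positivity)]
  have hl1 : Real.log X ≤ Real.log (nrm s) := Real.log_le_log hX0 hsXr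
  have hl2 : Real.log (nrm s) ≤ (1 + η) * Real.log X := by
    have := Real.log_le_log (by linarith) hsYr
    rwa [Real.log_rpow hX0] at this
  have hl0 : 0 ≤ Real.log (nrm m : ℝ) := Real.log_nonneg hmr
  have hlX0 : 0 ≤ Real.log X := Real.log_nonneg hXr
  have hηL : η * Real.log X ≤ 1 / 8 * Real.log X := mul_le_mul_of_nonneg_right hη8 hlX0
  have e3 : (1 + η) * Real.log X = Real.log X + η * Real.log X := by ring
  rw [e3] at hl2
  have g1 : C1 * (1 + Real.sqrt (Real.log ‖tc (m * s)‖)) ≤ T := by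
    refine le_trans ?_ hT
    refine mul_le_mul_of_nonneg_left ?_ (by linarith)
    have : Real.log ‖tc (m * s)‖ ≤ Real.log X := by linarith
    have := Real.sqrt_le_sqrt this
    linarith
  have g2 : T ≤ ‖tc (m * s)‖ := by
    rw [← Real.log_le_log_iff hT0 (by linarith)]
    have := Real.log_le_log hT0 hTX
    rw [Real.log_rpow hX0] at this
    linarith
  have h2 := h1 (m * s) T hq0 g1 g2
  have h3 : ∑ χ ∈ FQs (m * s), (1 : ℝ) = ((FQs (m * s)).card : ℝ) := by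
    rw [Finset.sum_const, nsmul_eq_mul, mul_one]
  simp only [h3]
  calc T * ((1 / (nrm s : ℝ) ^ 2) * ((FQs (m * s)).card : ℝ)) =
      (1 / (nrm s : ℝ) ^ 2) * (T * ((FQs (m * s)).card : ℝ)) := by ring
    _ ≤ _ := mul_le_mul_of_nonneg_left h2 (by positivity)

/-- **main inequality** -/
theorem tail_all {m : ZI} (hm : 4 < nrm m) : ∃ C K η : ℝ, 1 ≤ C ∧ 1 ≤ K ∧ 0 < η ∧ η ≤ 1 / 8 ∧
    ∀ (X Y : ℕ) (T : ℝ), 1 ≤ X → K * X ≤ Y → (Y : ℝ) ≤ (X : ℝ) ^ (1 + η) →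
    C * (1 + Real.sqrt (Real.log X)) ≤ T → T ≤ (X : ℝ) ^ η →
    T / 4 ≤ AA m X Y (fun ψ => (NN (LH ψ) T (2 * T) : ℝ)) ∧
    0.8883 * AA m X Y (fun ψ => (NN (LH ψ) T (2 * T) : ℝ)) ≤
      AA m X Y (fun ψ => (Ns (LH ψ) T (2 * T) : ℝ)) := by
  classical
  have hm0 : m ≠ 0 := by
    rintro rfl
    simp [nrm] at hm
  obtain ⟨C0, K0, η0, hC0, hK0, hη0, hfam⟩ := fam_final hm
  obtain ⟨K1, hK1, hone⟩ := FF_one_big hm
  obtain ⟨C1, hC1, hlow⟩ := AA_low hm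
  obtain ⟨L1, hL1, htail⟩ := tail_sum hm 0.00001 (by norm_num)
  obtain ⟨η, hη, hη1, hη2⟩ : ∃ η : ℝ, 0 < η ∧ η ≤ η0 / 8 ∧ η ≤ 1 / 8 :=
    ⟨min (η0 / 8) (1 / 8), by positivity, min_le_left _ _, min_le_right _ _⟩
  have hmr : (1 : ℝ) ≤ nrm m := by exact_mod_cast (by omega : 1 ≤ nrm m)
  have hℓm0 : 0 ≤ Real.log (nrm m : ℝ) := Real.log_nonneg hmr
  have hlog2 : 0 < Real.log 2 := Real.log_pos (by norm_num)
  obtain ⟨L2, hL2⟩ : ∃ L2 : ℝ, L2 = 8 * (Real.log (nrm m) + (1 + η0) * Real.log 2) / (3 * η0) :=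
    ⟨_, rfl⟩
  have hL20 : 0 ≤ L2 := by rw [hL2]; positivity
  obtain ⟨L0, hL0⟩ : ∃ L0 : ℝ, L0 = L1 + L2 + 2 * Real.log (nrm m) := ⟨_, rfl⟩
  have hL00 : 1 ≤ L0 := by linarith
  refine ⟨C0 + C1 + 3 + Real.exp L0, 2 * K0 + K1, η, ?_, by linarith, hη, hη2, ?_⟩
  · have := Real.exp_pos L0
    linarith
  intro X Y T hX hXY hYX hT hTX
  have hXr : (1 : ℝ) ≤ X := by exact_mod_cast hX
  have hX0 : (0 : ℝ) < X := by linarith
  have hsq0 := Real.sqrt_nonneg (Real.log X)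
  have hexp := Real.exp_pos L0
  have hlX0 : 0 ≤ Real.log X := Real.log_nonneg hXr
  have hsp : ∀ c : ℝ, c ≤ C0 + C1 + 3 + Real.exp L0 → c * (1 + Real.sqrt (Real.log X)) ≤ T := by
    intro c hc
    refine le_trans ?_ hT
    exact mul_le_mul_of_nonneg_right hc (by linarith)
  have hT0 := hsp C0 (by linarith)
  have hT1 := hsp C1 (by linarith)
  have hT3 : 3 ≤ T := by
    have := hsp 3 (by linarith)
    linarith
  have hTe : Real.exp L0 ≤ T := by
    have h1 := hsp (Real.exp L0) (by linarith)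
    have h2 : Real.exp L0 * 1 ≤ Real.exp L0 * (1 + Real.sqrt (Real.log X)) :=
      mul_le_mul_of_nonneg_left (by linarith) hexp.le
    linarith
  have hTpos : 0 < T := by linarith
  have hLX : L0 ≤ Real.log X := by
    have h1 : L0 ≤ Real.log T := by
      rw [Real.le_log_iff_exp_le hTpos]; exact hTe
    have h2 : Real.log T ≤ η * Real.log X := by
      have := Real.log_le_log hTpos hTX
      rwa [Real.log_rpow hX0] at this
    have h3 : η * Real.log X ≤ 1 * Real.log X := mul_le_mul_of_nonneg_right (by linarith) hlX0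
    linarith
  have hXY0 : 2 * K0 * X ≤ Y := by
    refine le_trans ?_ hXY
    exact mul_le_mul_of_nonneg_right (by linarith) hX0.le
  have hXY1 : K1 * X ≤ Y := by
    refine le_trans ?_ hXY
    exact mul_le_mul_of_nonneg_right (by linarith) hX0.le
  have hY1 : 1 ≤ Y := by
    have h1 : (1 : ℝ) ≤ Y := by
      have : 1 * 1 ≤ K1 * X := mul_le_mul hK1 hXr zero_le_one (by linarith)
      linarith
    exact_mod_cast h1
  -- lower bound
  have hA1 : 1 ≤ FF m X Y (fun _ => 1) := hone X Y hX hXY1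
  have hA2 := AA_one hm (X := X) hY1
  have hA3 := hlow X Y T η hX hη hη2 hYX hT1 hTX (by linarith)
  have hA4 : T / 4 ≤ AA m X Y (fun ψ => (NN (LH ψ) T (2 * T) : ℝ)) := by
    have : T * (1 / 4) ≤ T * AA m X Y (fun _ => 1) :=
      mul_le_mul_of_nonneg_left (by linarith) hTpos.le
    linarith
  refine ⟨hA4, ?_⟩
  -- the inner families
  have hin : ∀ k ∈ ((BX Y).filter (fun k => IsCoprime k m)).filter (fun k => nrm k ^ 2 ≤ X),
      0.88836 * ((1 / (nrm k : ℝ) ^ 2) *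
        FF m (X / nrm k) (Y / nrm k) (fun ψ => (NN (LH ψ) T (2 * T) : ℝ))) ≤
      (1 / (nrm k : ℝ) ^ 2) *
        FF m (X / nrm k) (Y / nrm k) (fun ψ => (Ns (LH ψ) T (2 * T) : ℝ)) := by
    intro k hk
    rw [Finset.mem_filter, Finset.mem_filter] at hk
    have hk0 := hg5b_BX_ne hk.1.1
    obtain ⟨g1, g2, g3, g4, g5⟩ := inner_par (nrm m) (by omega) C0 K0 η0 η L2 hC0 hK0 hη0 hη hη1
      (by rw [hL2]; field_simp; linarith) X Y (nrm k) T hX (nrm_pos hk0) hk.2 hXY0 hYX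
      (by linarith) hT0 hTX
    obtain ⟨-, h2⟩ := hfam (X / nrm k) (Y / nrm k) T g1 g2 g3 g4 g5
    have h3 := mul_le_mul_of_nonneg_left h2 (by positivity : (0 : ℝ) ≤ 1 / (nrm k : ℝ) ^ 2)
    refine le_trans (le_of_eq ?_) h3
    unfold FF
    ring
  have hS1 := Finset.sum_le_sum hin
  rw [← Finset.mul_sum] at hS1
  have hS2 := htail X Y T η hX hY1 hη hη2 hYX hT3 hTX (by linarith)
  have eN := AA_eq hm0 X Y (fun ψ => (NN (LH ψ) T (2 * T) : ℝ))
  have eS := AA_eq hm0 X Y (fun ψ => (Ns (LH ψ) T (2 * T) : ℝ))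
  rw [← Finset.sum_filter_add_sum_filter_not _ (fun k => nrm k ^ 2 ≤ X)] at eN eS
  have hS3 : 0 ≤ ∑ k ∈ ((BX Y).filter (fun k => IsCoprime k m)).filter
      (fun k => ¬ nrm k ^ 2 ≤ X), (1 / (nrm k : ℝ) ^ 2) *
        FF m (X / nrm k) (Y / nrm k) (fun ψ => (Ns (LH ψ) T (2 * T) : ℝ)) := by
    refine Finset.sum_nonneg fun k _ => mul_nonneg (by positivity) (FF_nonneg _ _ _ _ fun _ => ?_)
    exact Nat.cast_nonneg _
  generalize (∑ k ∈ ((BX Y).filter (fun k => IsCoprime k m)).filter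
      (fun k => nrm k ^ 2 ≤ X), (1 / (nrm k : ℝ) ^ 2) *
        FF m (X / nrm k) (Y / nrm k) (fun ψ => (NN (LH ψ) T (2 * T) : ℝ))) = a1 at hS1 eN
  generalize (∑ k ∈ ((BX Y).filter (fun k => IsCoprime k m)).filter
      (fun k => nrm k ^ 2 ≤ X), (1 / (nrm k : ℝ) ^ 2) *
        FF m (X / nrm k) (Y / nrm k) (fun ψ => (Ns (LH ψ) T (2 * T) : ℝ))) = a2 at hS1 eS
  generalize (∑ k ∈ ((BX Y).filter (fun k => IsCoprime k m)).filter
      (fun k => ¬ nrm k ^ 2 ≤ X), (1 / (nrm k : ℝ) ^ 2) *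
        FF m (X / nrm k) (Y / nrm k) (fun ψ => (NN (LH ψ) T (2 * T) : ℝ))) = a3 at hS2 eN
  generalize (∑ k ∈ ((BX Y).filter (fun k => IsCoprime k m)).filter
      (fun k => ¬ nrm k ^ 2 ≤ X), (1 / (nrm k : ℝ) ^ 2) *
        FF m (X / nrm k) (Y / nrm k) (fun ψ => (Ns (LH ψ) T (2 * T) : ℝ))) = a4 at hS3 eS
  generalize AA m X Y (fun ψ => (NN (LH ψ) T (2 * T) : ℝ)) = a5 at hA4 eN ⊢
  generalize AA m X Y (fun ψ => (Ns (LH ψ) T (2 * T) : ℝ)) = a6 at eS ⊢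
  norm_num at hS1 hS2 eN eS ⊢
  linarith

end Pool.Agent.Y693.R2
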